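import Pool.Agent.H97.SIM.Av
import Pool.Agent.H15.Sig.EvenJ

/-!
# Strict inequality for the fourth moment

PROOF. `IsSig.moment_le` (file `H15/Sig/Even.lean`) with `N = 2`, `s = 4`, `c = x^8 / 2`
(`x^(2*4) <= c * (4 - 2)`): `∫ |S^2|^2 <= 2 pi * sum_(k<4) (x^(2k) - c (k - 2)) |d_k|^2` with
`d_0 = 1`, `d_1 = 0`, `d_2 = 2 b_1`, `d_3 = 2 b_2` (`sps_sq_0` ... `sps_sq_3`), so
`<= 2 pi (1 + x^8 + 4 |b_1|^2 x^4 + 4 |b_2|^2 (x^6 - x^8/2))`. By the area theorem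
`|b_1|^2 + 2 |b_2|^2 <= 1`, so `4 |b_1|^2 x^4 + 4 |b_2|^2 (x^6 - x^8 / 2) <= 4 x^4 (|b_1|^2 +
|b_2|^2) <= 4 x^4 (1 + |b_1|^2) / 2 < 4 x^4` if `|b_1| < 1`. The right side is the value for
`1 + u^2` (`moment_J 2`). Translate: `ec t = e (-t)`, `av_neg`.
-/

open Complex MeasureTheory Set Filter Topology
open scoped ComplexConjugate Real

namespace Pool.Agent.H97.SIM

open Pool.Agent.H15.Sig

variable {F : ℂ → ℂ} {b : ℕ → ℂ}

private theorem av_sx (b : ℕ → ℂ) (X : ℝ) : av (fun t => ‖sx b X t‖ ^ 4) =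
    (2 * π)⁻¹ * ∫ t in (-π)..π, ‖(1 + (X * ec t) * pw b (X * ec t)) ^ 2‖ ^ 2 := by
  rw [← av_neg, av]
  congr 1
  refine intervalIntegral.integral_congr fun t _ => ?_
  simp only [sx, S, ec_eq, norm_pow]
  ring

private theorem av_gJ {X : ℝ} (hX0 : 0 < X) (hX : X < 1) : av (fun t => ‖gJ X t‖ ^ 4) =
    (2 * π)⁻¹ * ∫ t in (-π)..π, ‖(1 + (X * ec t) * pw jb (X * ec t)) ^ 2‖ ^ 2 := by
  rw [← av_neg, av]
  congr 1
  refine intervalIntegral.integral_congr fun t _ => ?_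
  have hn : ‖(X : ℂ) * e (-t)‖ < 1 := by
    rw [norm_mul, norm_e, mul_one, Complex.norm_real, Real.norm_of_nonneg hX0.le]
    exact hX
  simp only [gJ, ec_eq, norm_pow]
  rw [pw_jb hn]
  ring_nf

private theorem av_gJ' {X : ℝ} (hX0 : 0 < X) (hX : X < 1) : av (fun t => ‖gJ X t‖ ^ 4) =
    1 + 4 * X ^ 4 + X ^ 8 := by
  rw [av_gJ hX0 hX, moment_J 2 hX0 hX]
  have hpi := Real.pi_pos
  simp [Finset.sum_range_succ]
  field_simp
  ring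

private theorem four_core (h : IsSig F b) {X : ℝ} (hX0 : 0 < X) (hX : X < 1) :
    av (fun t => ‖sx b X t‖ ^ 4) ≤
      1 + 4 * ‖b 1‖ ^ 2 * X ^ 4 + 4 * ‖b 2‖ ^ 2 * (X ^ 6 - X ^ 8 / 2) + X ^ 8 := by
  rw [av_sx]
  have hb0 : b 0 = 0 := h.b0
  have h1 := h.moment_le (N := 2) (s := 4) (by norm_num) (by norm_num) hX0 hX
    (c := X ^ 8 / 2) (by positivity) (by norm_num)
  have hpi := Real.pi_pos
  have h2 : (2 * π)⁻¹ * (∫ t in (-π)..π, ‖(1 + (X * ec t) * pw b (X * ec t)) ^ 2‖ ^ 2) ≤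
      (2 * π)⁻¹ * (2 * π * ∑ k ∈ Finset.range 4,
        (X ^ (2 * k) - X ^ 8 / 2 * ((k : ℝ) - (2 : ℕ))) * ‖PowerSeries.coeff k (sps b ^ 2)‖ ^ 2) :=
    mul_le_mul_of_nonneg_left h1 (by positivity)
  refine h2.trans (le_of_eq ?_)
  rw [← mul_assoc, inv_mul_cancel₀ (by positivity), one_mul]
  simp only [Finset.sum_range_succ, Finset.sum_range_zero]
  rw [sps_sq_0, sps_sq_1 hb0, sps_sq_2 hb0, sps_sq_3 hb0]
  simp only [norm_mul, norm_one, norm_zero]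
  norm_num
  ring

theorem four_strict (h : IsSig F b) (hb : ‖b 1‖ < 1) {X : ℝ} (hX0 : 0 < X) (hX : X < 1) :
    av (fun t => ‖sx b X t‖ ^ 4) < av (fun t => ‖gJ X t‖ ^ 4) := by
  rw [av_gJ' hX0 hX]
  refine (four_core h hX0 hX).trans_lt ?_
  have harea := h.area 3
  simp only [Finset.sum_range_succ, Finset.sum_range_zero] at harea
  norm_num at harea
  have hb1 : ‖b 1‖ ^ 2 < 1 := by
    have := norm_nonneg (b 1)
    nlinarith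
  have hb2 : 0 ≤ ‖b 2‖ ^ 2 := by positivity
  have hx4 : 0 < X ^ 4 := by positivity
  have hx6 : X ^ 6 ≤ X ^ 4 := pow_le_pow_of_le_one hX0.le hX.le (by norm_num)
  have hx8 : 0 < X ^ 8 := by positivity
  have e1 : ‖b 2‖ ^ 2 * (X ^ 6 - X ^ 8 / 2) ≤ ‖b 2‖ ^ 2 * X ^ 4 :=
    mul_le_mul_of_nonneg_left (by linarith) hb2
  have e2 : (‖b 1‖ ^ 2 + ‖b 2‖ ^ 2) * X ^ 4 < 1 * X ^ 4 :=
    mul_lt_mul_of_pos_right (by linarith) hx4
  linarith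

theorem four_le (h : IsSig F b) {X : ℝ} (hX0 : 0 < X) (hX : X < 1) :
    av (fun t => ‖sx b X t‖ ^ 4) ≤ av (fun t => ‖gJ X t‖ ^ 4) := by
  rw [av_gJ' hX0 hX]
  refine (four_core h hX0 hX).trans ?_
  have harea := h.area 3
  simp only [Finset.sum_range_succ, Finset.sum_range_zero] at harea
  norm_num at harea
  have hb2 : 0 ≤ ‖b 2‖ ^ 2 := by positivity
  have hx4 : 0 < X ^ 4 := by positivity
  have hx6 : X ^ 6 ≤ X ^ 4 := pow_le_pow_of_le_one hX0.le hX.le (by norm_num)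
  have hx8 : 0 < X ^ 8 := by positivity
  have e1 : ‖b 2‖ ^ 2 * (X ^ 6 - X ^ 8 / 2) ≤ ‖b 2‖ ^ 2 * X ^ 4 :=
    mul_le_mul_of_nonneg_left (by linarith) hb2
  have e2 : (‖b 1‖ ^ 2 + ‖b 2‖ ^ 2) * X ^ 4 ≤ 1 * X ^ 4 :=
    mul_le_mul_of_nonneg_right (by linarith) hx4.le
  linarith

end Pool.Agent.H97.SIM
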