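import Pool.Agent.H97.SIM.RotB

/-!
# The Schur step

CLAIM: for a pair `(f, h)` there is a pair `(f1, h1)` with (all sums over the circle averaged)
`Ig f = av log (1 + |f1|^2 / s) + Ig f1`, `natDegree f1 <= natDegree f - 1`,
`|f1_j|^2 - |h1_(j+1)|^2 = |f_(j+1)|^2 - |h_(j+1)|^2` for all `j >= 0`,
`|h1_0|^2 = |h_0|^2 - |f_0|^2`.

PROOF. By `Pair.lt0` `|f_0| < |h_0|`. Choose `w` with `|w| = 1` such that
`g = f_0 / (w h_0)` is real and `>= 0` (`w = 1` if `f_0 = 0`), so `0 <= g < 1`; replace `h` by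
`w h` (`Pair.phase`; all moduli of coefficients are unchanged). Let `T = arsinh (g / sqrt (1 -
g^2))`, so `sinh T = g / sqrt (1 - g^2)`, `cosh T = 1 / sqrt (1 - g^2)` and
`cosh T f_0 - sinh T h_0 = 0`. Put `F = rp f h T = cosh T f - sinh T h`,
`h1 = rp h f T`; `F.coeff 0 = 0`, so `F = X * f1` with `f1 = F.divX`
(`Polynomial.divX_mul_X_add`), `|F| = |f1|` on the circle, hence `(f1, h1)` is a pair
(`Pair.rot`). `Ig F = Ig f` (`Pair.inv`), and for `F = X f1`:
`conj F * z F' = |z|^2 (|f1|^2 + conj f1 z f1')`, so `Ig F = av [l (|f1|^2) |f1|^2] + Ig f1 =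
av log (1 + |f1|^2 / s) + Ig f1` (`l1_mul`). DEGREE: `natDegree F <= natDegree f` by `Pair.deg`,
`natDegree_divX_eq_natDegree_tsub_one`. COEFFICIENTS: for every `j`,
`|F_j|^2 - |h1_j|^2 = |c f_j - σ h_j|^2 - |c h_j - σ f_j|^2 = |f_j|^2 - |h_j|^2` (real `c, σ`,
`c^2 - σ^2 = 1`), and `F_(j+1) = f1_j`, `F_0 = 0`.
-/

open Complex MeasureTheory Set Polynomial
open scoped ComplexConjugate Real

namespace Pool.Agent.H97.SIM

variable {s : ℝ} {f h : ℂ[X]}

theorem Ig_X_mul (hs : 0 < s) (f1 : ℂ[X]) : Ig s (pe (X * f1)) (pd (X * f1)) =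
    av (fun t => Real.log (1 + ‖pe f1 t‖ ^ 2 / s)) + Ig s (pe f1) (pd f1) := by
  have hc1 : Continuous fun t => Real.log (1 + ‖pe f1 t‖ ^ 2 / s) := by
    refine Continuous.log (continuous_const.add (((continuous_pe f1).norm.pow 2).div_const s))
      fun t => ?_
    have : 0 ≤ ‖pe f1 t‖ ^ 2 / s := by positivity
    positivity
  have hc2 : Continuous fun t => l1 (‖pe f1 t‖ ^ 2 / s) / s * (conj (pe f1 t) * pd f1 t).re := by
    have h8 : Continuous fun t => l1 (‖pe f1 t‖ ^ 2 / s) := by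
      refine l1_contOn.comp_continuous (((continuous_pe _).norm.pow 2).div_const s) fun t => ?_
      have h9 : 0 ≤ ‖pe f1 t‖ ^ 2 / s := div_nonneg (by positivity) hs.le
      exact lt_of_lt_of_le (by norm_num) h9
    exact (h8.div_const s).mul (Complex.continuous_re.comp
      ((Complex.continuous_conj.comp (continuous_pe _)).mul (continuous_pd _)))
  unfold Ig
  rw [← av_add hc1 hc2]
  apply av_congr
  intro t
  have he : ‖e t‖ = 1 := norm_e t
  have h1 : pe (X * f1) t = e t * pe f1 t := by simp [pe]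
  have h2 : pd (X * f1) t = e t * (pe f1 t + pd f1 t) := by
    simp only [pd, pe, derivative_mul, derivative_X, one_mul, eval_add, eval_mul, eval_X]
  have h3 : ‖pe (X * f1) t‖ = ‖pe f1 t‖ := by rw [h1, norm_mul, he, one_mul]
  have h4 : conj (e t) * e t = 1 := by
    rw [mul_comm, Complex.mul_conj, Complex.normSq_eq_norm_sq, he]
    norm_num
  have h5 : (conj (pe (X * f1) t) * pd (X * f1) t).re =
      ‖pe f1 t‖ ^ 2 + (conj (pe f1 t) * pd f1 t).re := by
    rw [h1, h2, map_mul]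
    have h6 : conj (e t) * conj (pe f1 t) * (e t * (pe f1 t + pd f1 t)) =
        conj (pe f1 t) * pe f1 t + conj (pe f1 t) * pd f1 t := by
      linear_combination (conj (pe f1 t) * (pe f1 t + pd f1 t)) * h4
    rw [h6, add_re]
    congr 1
    rw [mul_comm, Complex.mul_conj, Complex.normSq_eq_norm_sq, Complex.ofReal_re]
  rw [h3, h5, mul_add]
  congr 1
  have h7 := l1_mul (‖pe f1 t‖ ^ 2 / s)
  rw [← h7]
  field_simp

theorem Pair.step (P : Pair s f h) : ∃ f1 h1 : ℂ[X], Pair s f1 h1 ∧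
    f1.natDegree ≤ f.natDegree - 1 ∧
    (∀ j, ‖f1.coeff j‖ ^ 2 - ‖h1.coeff (j + 1)‖ ^ 2 =
      ‖f.coeff (j + 1)‖ ^ 2 - ‖h.coeff (j + 1)‖ ^ 2) ∧
    ‖h1.coeff 0‖ ^ 2 = ‖h.coeff 0‖ ^ 2 - ‖f.coeff 0‖ ^ 2 ∧
    Ig s (pe f) (pd f) = av (fun t => Real.log (1 + ‖pe f1 t‖ ^ 2 / s)) +
      Ig s (pe f1) (pd f1) := by
  have hlt := P.lt0
  have hh0 : 0 < ‖h.coeff 0‖ := lt_of_le_of_lt (norm_nonneg _) hlt
  -- the phase
  obtain ⟨w, hw, g, hg0, hg1, hg⟩ : ∃ w : ℂ, ‖w‖ = 1 ∧ ∃ g : ℝ, 0 ≤ g ∧ g < 1 ∧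
      f.coeff 0 = (g : ℂ) * (w * h.coeff 0) := by
    have hh : h.coeff 0 ≠ 0 := norm_pos_iff.1 hh0
    by_cases hf : f.coeff 0 = 0
    · exact ⟨1, norm_one, 0, le_rfl, one_pos, by rw [hf]; simp⟩
    · have hf0 : 0 < ‖f.coeff 0‖ := norm_pos_iff.2 hf
      refine ⟨(f.coeff 0 / ‖f.coeff 0‖) / (h.coeff 0 / ‖h.coeff 0‖), ?_,
        ‖f.coeff 0‖ / ‖h.coeff 0‖, by positivity, by rwa [div_lt_one hh0], ?_⟩
      · rw [norm_div, norm_div, norm_div, Complex.norm_real, Complex.norm_real, norm_norm,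
          norm_norm, div_self hf0.ne', div_self hh0.ne', div_one]
      · have h1 : ((‖f.coeff 0‖ : ℝ) : ℂ) ≠ 0 := by exact_mod_cast hf0.ne'
        have h2 : ((‖h.coeff 0‖ : ℝ) : ℂ) ≠ 0 := by exact_mod_cast hh0.ne'
        push_cast
        field_simp
  have P2 : Pair s f (C w * h) := P.phase hw
  set k : ℂ[X] := C w * h with hk
  have hk0 : ∀ j, ‖k.coeff j‖ = ‖h.coeff j‖ := by
    intro j
    rw [hk, coeff_C_mul, norm_mul, hw, one_mul]
  have hgk : f.coeff 0 = (g : ℂ) * k.coeff 0 := by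
    rw [hk, coeff_C_mul]
    exact hg
  clear_value k
  -- the angle
  have hg2 : 0 < 1 - g ^ 2 := by nlinarith
  set T : ℝ := Real.arsinh (g / Real.sqrt (1 - g ^ 2)) with hT
  have hsq : 0 < Real.sqrt (1 - g ^ 2) := Real.sqrt_pos.2 hg2
  have hsinh : Real.sinh T = g / Real.sqrt (1 - g ^ 2) := Real.sinh_arsinh _
  have hcosh : Real.cosh T = 1 / Real.sqrt (1 - g ^ 2) := by
    have h1 := Real.cosh_sq T
    rw [hsinh, div_pow, Real.sq_sqrt hg2.le] at h1
    have h2 : Real.cosh T ^ 2 = (1 / Real.sqrt (1 - g ^ 2)) ^ 2 := by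
      rw [h1, div_pow, Real.sq_sqrt hg2.le]
      field_simp
      ring
    exact (pow_left_inj₀ (Real.cosh_pos T).le (by positivity) two_ne_zero).1 h2
  have hgT : Real.sinh T = g * Real.cosh T := by
    rw [hsinh, hcosh]
    ring
  have hcs : Real.cosh T ^ 2 - Real.sinh T ^ 2 = 1 := by
    have h1 := Real.cosh_sq T
    linarith
  -- the rotated pair
  set F : ℂ[X] := rp f k T with hF
  set h1 : ℂ[X] := rp k f T with hh1
  have hFc : ∀ j, F.coeff j = (Real.cosh T : ℂ) * f.coeff j - (Real.sinh T : ℂ) * k.coeff j := by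
    intro j
    rw [hF, rp, coeff_sub, coeff_C_mul, coeff_C_mul]
  have hhc : ∀ j, h1.coeff j = (Real.cosh T : ℂ) * k.coeff j - (Real.sinh T : ℂ) * f.coeff j := by
    intro j
    rw [hh1, rp, coeff_sub, coeff_C_mul, coeff_C_mul]
  have hF0 : F.coeff 0 = 0 := by
    rw [hFc, hgk, hgT]
    push_cast
    ring
  have hFX : F = X * F.divX := by
    have h2 := divX_mul_X_add F
    rw [hF0, C_0, add_zero] at h2
    rw [mul_comm]
    exact h2.symm
  have P3 : Pair s F h1 := P2.rot T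
  have hn : ∀ z : ℂ, ‖z‖ = 1 → ‖F.eval z‖ = ‖F.divX.eval z‖ := by
    intro z hz
    conv_lhs => rw [hFX]
    rw [eval_mul, eval_X, norm_mul, hz, one_mul]
  have hdiff : ∀ j, ‖F.coeff j‖ ^ 2 - ‖h1.coeff j‖ ^ 2 = ‖f.coeff j‖ ^ 2 - ‖h.coeff j‖ ^ 2 := by
    intro j
    rw [← hk0 j, hFc, hhc]
    rw [← Complex.normSq_eq_norm_sq, ← Complex.normSq_eq_norm_sq, ← Complex.normSq_eq_norm_sq,
      ← Complex.normSq_eq_norm_sq, Complex.normSq_apply, Complex.normSq_apply,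
      Complex.normSq_apply, Complex.normSq_apply]
    simp only [sub_re, sub_im, mul_re, mul_im, ofReal_re, ofReal_im, zero_mul, sub_zero, add_zero]
    linear_combination ((f.coeff j).re * (f.coeff j).re + (f.coeff j).im * (f.coeff j).im -
      ((k.coeff j).re * (k.coeff j).re + (k.coeff j).im * (k.coeff j).im)) * hcs
  refine ⟨F.divX, h1, ⟨P.pos, fun t => ?_, P3.nz⟩, ?_, ?_, ?_, ?_⟩
  · rw [← hn (e t) (norm_e t)]
    exact P3.circ t
  · rw [natDegree_divX_eq_natDegree_tsub_one]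
    have h2 : F.natDegree ≤ f.natDegree := by
      rw [hF, rp]
      refine (natDegree_sub_le _ _).trans (max_le ?_ ?_)
      · exact natDegree_C_mul_le _ _
      · exact (natDegree_C_mul_le _ _).trans P2.deg
    omega
  · intro j
    rw [coeff_divX]
    exact hdiff (j + 1)
  · have h2 := hdiff 0
    rw [hF0, norm_zero] at h2
    linarith
  · have h2 := P2.inv T
    rw [← h2, ← Ig_X_mul P.pos, ← hFX]

end Pool.Agent.H97.SIM
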