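import Pool.Agent.H97.SIM.RotB
import Pool.Agent.H97.SIM.Step

/-!
# The explicit values for `1 + u^2`

Let `0 < x <= 1`, `0 < q < 1`, `s = (1 - q) (1 - x^4 q) / q`, `c = x^2`. The polynomials
`f = 1 + c X^2`, `h = q^(-1/2) (1 + c q X^2)` form a pair: `h` has no zeros in the closed disc
(`c q < 1`), and on the circle `|f|^2 = 1 + c^2 + 2 c cos 2t`,
`|h|^2 = (1 + c^2 q^2) / q + 2 c cos 2t`, and `(1 + c^2 q^2) / q - 1 - c^2 = s`.
`J_L`: `Lg = log |h 0|^2 = - log q` (`Pair.logmean`).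
`J_I`: rotate with `sinh T = sqrt q / sqrt (1 - q)`, `cosh T = 1 / sqrt (1 - q)`:
`cosh T f - sinh T h = (1 - q)^(-1/2) (f - sqrt q h) = (1 - q)^(-1/2) (c X^2 - c q X^2) =
kap X^2`, `kap = c sqrt (1 - q)`. By `Pair.inv`, `Ig f = Ig (kap X^2) = l (kap^2) * 2 kap^2 =
2 log (1 + kap^2 / s)`, and `1 + c^2 (1 - q) q / ((1 - q) (1 - c^2 q)) = 1 / (1 - c^2 q) =
(1 - q) / (q s)`.
`J_sq`, `J_k`: direct (`|gJ|^2 = 1 + x^4 + 2 x^2 cos 2t`, `Re (conj gJ kJ) = 2 x^2 cos 2t + 2 x^4`,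
mean of `cos 2t` is `0`; or `poly_parseval`).
-/

open Complex MeasureTheory Set Polynomial
open scoped ComplexConjugate Real

namespace Pool.Agent.H97.SIM

theorem gJ_continuous (x : ℝ) : Continuous (gJ x) := by
  have h := continuous_e
  unfold gJ
  fun_prop

theorem kJ_continuous (x : ℝ) : Continuous (kJ x) := by
  have h := continuous_e
  unfold kJ
  fun_prop

private noncomputable def fJ (x : ℝ) : ℂ[X] := 1 + C (((x ^ 2 : ℝ)) : ℂ) * X ^ 2

private theorem pe_fJ (x t : ℝ) : pe (fJ x) t = gJ x t := by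
  unfold pe fJ gJ
  simp only [eval_add, eval_one, eval_mul, eval_C, eval_pow, eval_X]
  push_cast
  ring

private theorem pd_fJ (x t : ℝ) : pd (fJ x) t = kJ x t := by
  unfold pd fJ kJ
  simp only [derivative_add, derivative_one, derivative_C_mul, derivative_X_pow, zero_add,
    eval_mul, eval_C, eval_pow, eval_X]
  push_cast
  ring

private noncomputable def hJ (x q : ℝ) : ℂ[X] :=
  C (((Real.sqrt q)⁻¹ : ℝ) : ℂ) * (1 + C (((x ^ 2 * q : ℝ)) : ℂ) * X ^ 2)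

private theorem norm_aux (c : ℝ) (w : ℂ) (hw : ‖w‖ = 1) :
    ‖(1 : ℂ) + (c : ℂ) * w‖ ^ 2 = 1 + 2 * c * w.re + c ^ 2 := by
  have h1 : w.re * w.re + w.im * w.im = 1 := by
    have := Complex.sq_norm w
    rw [hw, Complex.normSq_apply] at this
    linarith
  rw [Complex.sq_norm, Complex.normSq_apply]
  simp only [add_re, one_re, re_ofReal_mul, add_im, one_im, im_ofReal_mul]
  nlinarith

private theorem hJ_eval (x q : ℝ) (z : ℂ) : (hJ x q).eval z =
    (((Real.sqrt q)⁻¹ : ℝ) : ℂ) * (1 + ((x ^ 2 * q : ℝ) : ℂ) * z ^ 2) := by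
  unfold hJ
  simp only [eval_add, eval_one, eval_mul, eval_C, eval_pow, eval_X]

private theorem J_pair {x q : ℝ} (hx0 : 0 < x) (hx1 : x ≤ 1) (hq0 : 0 < q) (hq1 : q < 1) :
    Pair ((1 - q) * (1 - x ^ 4 * q) / q) (fJ x) (hJ x q) := by
  have hx4 : x ^ 4 ≤ 1 := pow_le_one₀ hx0.le hx1
  have hx2 : x ^ 2 ≤ 1 := pow_le_one₀ hx0.le hx1
  have hx4q : x ^ 4 * q < 1 := by nlinarith
  refine ⟨?_, ?_, ?_⟩
  · have h1 : 0 < 1 - q := by linarith
    have h2 : 0 < 1 - x ^ 4 * q := by linarith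
    positivity
  · intro t
    have hw : ‖e t ^ 2‖ = 1 := by rw [norm_pow, norm_e, one_pow]
    have h1 : (fJ x).eval (e t) = 1 + ((x ^ 2 : ℝ) : ℂ) * e t ^ 2 := by
      unfold fJ
      simp only [eval_add, eval_one, eval_mul, eval_C, eval_pow, eval_X]
    rw [hJ_eval, h1, norm_mul, mul_pow, norm_aux _ _ hw, norm_aux _ _ hw, Complex.norm_real,
      Real.norm_eq_abs, sq_abs, inv_pow, Real.sq_sqrt hq0.le]
    field_simp
    ring
  · intro z hz hz0
    rw [hJ_eval] at hz0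
    have h1 : (((Real.sqrt q)⁻¹ : ℝ) : ℂ) ≠ 0 := by
      have : 0 < Real.sqrt q := Real.sqrt_pos.2 hq0
      exact_mod_cast (inv_pos.2 this).ne'
    have h2 : 1 + ((x ^ 2 * q : ℝ) : ℂ) * z ^ 2 = 0 := (mul_eq_zero.1 hz0).resolve_left h1
    have h3 : ((x ^ 2 * q : ℝ) : ℂ) * z ^ 2 = -1 := by linear_combination h2
    have h4 : ‖((x ^ 2 * q : ℝ) : ℂ) * z ^ 2‖ = 1 := by rw [h3, norm_neg, norm_one]
    rw [norm_mul, norm_pow, Complex.norm_real, Real.norm_eq_abs,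
      abs_of_pos (by positivity)] at h4
    have h5 : ‖z‖ ^ 2 ≤ 1 := pow_le_one₀ (norm_nonneg _) hz
    have h6 : x ^ 2 * q * ‖z‖ ^ 2 ≤ q := by
      calc x ^ 2 * q * ‖z‖ ^ 2 ≤ x ^ 2 * q * 1 := by gcongr
        _ ≤ 1 * q := by rw [mul_one]; gcongr
        _ = q := one_mul q
    linarith

private theorem pe_fJ' (x : ℝ) : pe (fJ x) = gJ x := funext (pe_fJ x)

private theorem pd_fJ' (x : ℝ) : pd (fJ x) = kJ x := funext (pd_fJ x)

theorem J_L {x q : ℝ} (hx0 : 0 < x) (hx1 : x ≤ 1) (hq0 : 0 < q) (hq1 : q < 1) :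
    Lg ((1 - q) * (1 - x ^ 4 * q) / q) (gJ x) = -Real.log q := by
  rw [← pe_fJ', (J_pair hx0 hx1 hq0 hq1).logmean, coeff_zero_eq_eval_zero, hJ_eval]
  rw [zero_pow (two_ne_zero), mul_zero, add_zero, mul_one, Complex.norm_real, Real.norm_eq_abs,
    sq_abs, inv_pow, Real.sq_sqrt hq0.le, Real.log_inv]

theorem J_I {x q s : ℝ} (hx0 : 0 < x) (hx1 : x ≤ 1) (hq0 : 0 < q) (hq1 : q < 1)
    (hs : s = (1 - q) * (1 - x ^ 4 * q) / q) :
    Ig s (gJ x) (kJ x) = 2 * Real.log ((1 - q) / (q * s)) := by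
  subst hs
  set s := (1 - q) * (1 - x ^ 4 * q) / q with hs
  have P := J_pair hx0 hx1 hq0 hq1
  rw [← hs] at P
  have hs0 : 0 < s := P.pos
  have h1q : 0 < 1 - q := by linarith
  set T := Real.arsinh (Real.sqrt q / Real.sqrt (1 - q)) with hT
  have hsq : 0 < Real.sqrt q := Real.sqrt_pos.2 hq0
  have hs1q : 0 < Real.sqrt (1 - q) := Real.sqrt_pos.2 h1q
  have hsq2 : Real.sqrt q ^ 2 = q := Real.sq_sqrt hq0.le
  have hs1q2 : Real.sqrt (1 - q) ^ 2 = 1 - q := Real.sq_sqrt h1q.le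
  have hsinh : Real.sinh T = Real.sqrt q / Real.sqrt (1 - q) := Real.sinh_arsinh _
  have hcosh : Real.cosh T = 1 / Real.sqrt (1 - q) := by
    have h1 : Real.cosh T ^ 2 = (1 / Real.sqrt (1 - q)) ^ 2 := by
      have h2 := Real.cosh_sq T
      rw [h2, hsinh, div_pow, div_pow, hsq2, hs1q2]
      field_simp
      ring
    exact (sq_eq_sq₀ (Real.cosh_pos T).le (by positivity)).1 h1
  set κ : ℝ := x ^ 2 * Real.sqrt (1 - q) with hκ
  have hrp : rp (fJ x) (hJ x q) T = C (κ : ℂ) * X ^ 2 := by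
    unfold rp fJ hJ
    rw [hsinh, hcosh]
    have e1 : ((Real.sqrt q / Real.sqrt (1 - q) : ℝ) : ℂ) * (((Real.sqrt q)⁻¹ : ℝ) : ℂ) =
        ((1 / Real.sqrt (1 - q) : ℝ) : ℂ) := by
      rw [← Complex.ofReal_mul]
      congr 1
      field_simp
    have e2 : ((1 / Real.sqrt (1 - q) : ℝ) : ℂ) * (((x ^ 2 : ℝ)) : ℂ) -
        ((1 / Real.sqrt (1 - q) : ℝ) : ℂ) * (((x ^ 2 * q : ℝ)) : ℂ) = (κ : ℂ) := by
      rw [← Complex.ofReal_mul, ← Complex.ofReal_mul, ← Complex.ofReal_sub]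
      congr 1
      rw [hκ]
      field_simp
      rw [hs1q2]
    rw [← mul_assoc, ← C_mul, e1, ← e2, C_sub, C_mul, C_mul]
    ring
  have hinv := P.inv T
  rw [pe_fJ', pd_fJ', hrp] at hinv
  rw [← hinv]
  have hpe : ∀ t, pe (C (κ : ℂ) * X ^ 2) t = (κ : ℂ) * e t ^ 2 := by
    intro t
    unfold pe
    simp only [eval_mul, eval_C, eval_pow, eval_X]
  have hpd : ∀ t, pd (C (κ : ℂ) * X ^ 2) t = 2 * ((κ : ℂ) * e t ^ 2) := by
    intro t
    unfold pd
    simp only [derivative_C_mul, derivative_X_pow, eval_mul, eval_C, eval_pow, eval_X]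
    push_cast
    ring
  have hκ0 : 0 < κ := by positivity
  have hnorm : ∀ t, ‖(κ : ℂ) * e t ^ 2‖ ^ 2 = κ ^ 2 := by
    intro t
    rw [norm_mul, norm_pow, norm_e, one_pow, mul_one, Complex.norm_real, Real.norm_eq_abs, sq_abs]
  have hre : ∀ t, (conj ((κ : ℂ) * e t ^ 2) * (2 * ((κ : ℂ) * e t ^ 2))).re = 2 * κ ^ 2 := by
    intro t
    have h1 : conj ((κ : ℂ) * e t ^ 2) * (2 * ((κ : ℂ) * e t ^ 2)) =
        ((2 * κ ^ 2 : ℝ) : ℂ) := by
      have h2 := Complex.normSq_eq_conj_mul_self (z := (κ : ℂ) * e t ^ 2)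
      have h3 : Complex.normSq ((κ : ℂ) * e t ^ 2) = κ ^ 2 := by
        rw [← Complex.sq_norm, hnorm t]
      rw [h3] at h2
      push_cast at h2 ⊢
      linear_combination (-2 : ℂ) * h2
    rw [h1, Complex.ofReal_re]
  have hI : Ig s (pe (C (κ : ℂ) * X ^ 2)) (pd (C (κ : ℂ) * X ^ 2)) =
      av (fun _ => l1 (κ ^ 2 / s) / s * (2 * κ ^ 2)) := by
    unfold Ig
    refine av_congr fun t => ?_
    rw [hpe, hpd, hnorm, hre]
  rw [hI, av_const]
  have hl := l1_mul (κ ^ 2 / s)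
  have h5 : l1 (κ ^ 2 / s) / s * (2 * κ ^ 2) = 2 * (κ ^ 2 / s * l1 (κ ^ 2 / s)) := by
    ring
  rw [h5, hl]
  congr 2
  have hx4 : x ^ 4 ≤ 1 := pow_le_one₀ hx0.le hx1
  have hx4q : x ^ 4 * q < 1 := by nlinarith
  have h6 : 0 < 1 - x ^ 4 * q := by linarith
  have hκ2 : κ ^ 2 = x ^ 4 * (1 - q) := by
    rw [hκ, mul_pow, hs1q2]
    ring
  rw [hκ2, hs]
  field_simp
  ring

theorem J_sq (x : ℝ) : av (fun t => ‖gJ x t‖ ^ 2) = 1 + x ^ 4 := by
  have hdeg : (fJ x).natDegree < 3 := by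
    unfold fJ
    refine lt_of_le_of_lt (natDegree_add_le _ _) ?_
    refine max_lt ?_ (lt_of_le_of_lt (natDegree_C_mul_X_pow_le _ _) (by norm_num))
    rw [natDegree_one]
    norm_num
  have h := poly_parseval (fJ x) hdeg
  rw [pe_fJ'] at h
  rw [h, Finset.sum_range_succ, Finset.sum_range_succ, Finset.sum_range_one]
  have h0 : (fJ x).coeff 0 = 1 := by
    unfold fJ
    rw [coeff_add, coeff_one, coeff_C_mul, coeff_X_pow]
    simp
  have h1 : (fJ x).coeff 1 = 0 := by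
    unfold fJ
    rw [coeff_add, coeff_one, coeff_C_mul, coeff_X_pow]
    simp
  have h2 : (fJ x).coeff 2 = ((x ^ 2 : ℝ) : ℂ) := by
    unfold fJ
    rw [coeff_add, coeff_one, coeff_C_mul, coeff_X_pow]
    simp
  rw [h0, h1, h2, norm_one, norm_zero, Complex.norm_real, Real.norm_eq_abs, sq_abs]
  ring

theorem J_k (x : ℝ) : av (fun t => (conj (gJ x t) * kJ x t).re) = 2 * x ^ 4 := by
  have h1 : ∀ t, (conj (gJ x t) * kJ x t).re = ‖gJ x t‖ ^ 2 + (x ^ 4 - 1) := by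
    intro t
    have hw : ‖e t ^ 2‖ = 1 := by rw [norm_pow, norm_e, one_pow]
    have hw2 : (e t ^ 2).re * (e t ^ 2).re + (e t ^ 2).im * (e t ^ 2).im = 1 := by
      have := Complex.sq_norm (e t ^ 2)
      rw [hw, Complex.normSq_apply] at this
      linarith
    have hg : gJ x t = 1 + ((x ^ 2 : ℝ) : ℂ) * e t ^ 2 := by
      unfold gJ
      push_cast
      ring
    have hk : kJ x t = ((2 * x ^ 2 : ℝ) : ℂ) * e t ^ 2 := by
      unfold kJ
      push_cast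
      ring
    rw [hg, hk, norm_aux _ _ hw]
    simp only [mul_re, mul_im, conj_re, conj_im, add_re, one_re, add_im, one_im, ofReal_re,
      ofReal_im]
    have e1 : x ^ 4 = x ^ 2 * x ^ 2 := by ring
    rw [e1]
    linear_combination (2 * x ^ 2 * x ^ 2) * hw2
  have hc : Continuous (fun t => ‖gJ x t‖ ^ 2) := (gJ_continuous x).norm.pow 2
  rw [av_congr h1, av_add hc continuous_const, J_sq, av_const]
  ring

end Pool.Agent.H97.SIM
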