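import Pool.Agent.H97.SIM.Lim

/-!
# The linearised core inequality for the class Sigma: passage to the limit

See the header of `Lim`.
-/

open Complex MeasureTheory Set Filter Topology Polynomial
open scoped ComplexConjugate Real

namespace Pool.Agent.H97.SIM

open Pool.Agent.H15.Sig

variable {F : ℂ → ℂ} {b : ℕ → ℂ}

private theorem av_tendsto {Φ : ℕ → ℝ → ℝ} {Ψ : ℝ → ℝ} {C : ℝ} (hΦ : ∀ N, Continuous (Φ N))
    (hb : ∀ᶠ N in atTop, ∀ t ∈ Icc (-π) π, |Φ N t| ≤ C)
    (hl : ∀ t, Tendsto (fun N => Φ N t) atTop (𝓝 (Ψ t))) :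
    Tendsto (fun N => av (Φ N)) atTop (𝓝 (av Ψ)) := by
  have hpi : -π ≤ π := by linarith [Real.pi_pos]
  unfold av
  refine Tendsto.const_mul _ ?_
  refine intervalIntegral.tendsto_integral_filter_of_dominated_convergence (fun _ => C) ?_ ?_
    intervalIntegrable_const ?_
  · exact Eventually.of_forall fun N => (hΦ N).aestronglyMeasurable
  · filter_upwards [hb] with N hN
    refine Eventually.of_forall fun t ht => ?_
    rw [uIoc_of_le hpi] at ht
    rw [Real.norm_eq_abs]
    exact hN t ⟨ht.1.le, ht.2⟩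
  · exact Eventually.of_forall fun t _ => hl t

private theorem bound_of_unif {g : ℕ → ℝ → ℂ} {G : ℝ → ℂ} (hG : Continuous G)
    (h : TendstoUniformly g G atTop) :
    ∃ M : ℝ, 0 ≤ M ∧ ∀ᶠ N in atTop, ∀ t ∈ Icc (-π) π, ‖g N t‖ ≤ M := by
  obtain ⟨M, hM⟩ := (isCompact_Icc (a := -π) (b := π)).exists_bound_of_continuousOn
    hG.continuousOn
  refine ⟨|M| + 1, by positivity, ?_⟩
  have h1 := Metric.tendstoUniformly_iff.1 h 1 one_pos
  filter_upwards [h1] with N hN t ht
  have h2 := hM t ht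
  have h3 := hN t
  rw [dist_eq_norm] at h3
  have h4 : ‖g N t‖ ≤ ‖G t‖ + ‖G t - g N t‖ := by
    have := norm_sub_le (G t) (G t - g N t)
    rwa [sub_sub_cancel] at this
  have h5 := le_abs_self M
  linarith

/-- `Lg` is continuous under uniform convergence to a continuous (hence bounded on
`[-pi, pi]`) function -/
theorem Lg_tendsto {s : ℝ} (hs : 0 < s) {g : ℕ → ℝ → ℂ} {G : ℝ → ℂ}
    (hg : ∀ N, Continuous (g N)) (hG : Continuous G) (h : TendstoUniformly g G atTop) :
    Tendsto (fun N => Lg s (g N)) atTop (𝓝 (Lg s G)) := by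
  obtain ⟨M, hM0, hM⟩ := bound_of_unif hG h
  have hpos : ∀ y : ℂ, 0 < ‖y‖ ^ 2 + s := fun y => by positivity
  refine av_tendsto (C := max |Real.log s| |Real.log (M ^ 2 + s)|) ?_ ?_ ?_
  · intro N
    exact ((hg N).norm.pow 2 |>.add continuous_const).log (fun t => (hpos _).ne')
  · filter_upwards [hM] with N hN t ht
    refine abs_le_max_abs_abs ?_ ?_
    · exact Real.log_le_log hs (by have := sq_nonneg ‖g N t‖; linarith)
    · refine Real.log_le_log (hpos _) ?_
      have := pow_le_pow_left₀ (norm_nonneg _) (hN t ht) 2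
      linarith
  · intro t
    have h1 : Tendsto (fun N => g N t) atTop (𝓝 (G t)) := h.tendsto_at t
    exact ((h1.norm.pow 2).add_const s).log (hpos _).ne'

theorem Ig_tendsto {s : ℝ} (hs : 0 < s) {g k : ℕ → ℝ → ℂ} {G K : ℝ → ℂ}
    (hg : ∀ N, Continuous (g N)) (hG : Continuous G) (h : TendstoUniformly g G atTop)
    (hk : ∀ N, Continuous (k N)) (hK : Continuous K) (h' : TendstoUniformly k K atTop) :
    Tendsto (fun N => Ig s (g N) (k N)) atTop (𝓝 (Ig s G K)) := by
  obtain ⟨M, hM0, hM⟩ := bound_of_unif hG h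
  obtain ⟨M', hM'0, hM'⟩ := bound_of_unif hK h'
  have hnn : ∀ y : ℂ, 0 ≤ ‖y‖ ^ 2 / s := fun y => by positivity
  have hmem : ∀ y : ℂ, ‖y‖ ^ 2 / s ∈ Ioi (-1 : ℝ) := fun y => by
    have := hnn y
    show (-1 : ℝ) < _
    linarith
  refine av_tendsto (C := 1 / s * (M * M')) ?_ ?_ ?_
  · intro N
    have c1 : Continuous fun t => l1 (‖g N t‖ ^ 2 / s) :=
      l1_contOn.comp_continuous (((hg N).norm.pow 2).div_const s) (fun t => hmem _)
    have c2 : Continuous fun t => (conj (g N t) * k N t).re :=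
      continuous_re.comp ((continuous_conj.comp (hg N)).mul (hk N))
    exact (c1.div_const s).mul c2
  · filter_upwards [hM, hM'] with N hN hN' t ht
    rw [abs_mul]
    refine mul_le_mul ?_ ?_ (abs_nonneg _) (by positivity)
    · rw [abs_div, abs_of_pos hs, abs_of_pos (l1_pos (hnn _))]
      exact div_le_div_of_nonneg_right (l1_le_one (hnn _)) hs.le
    · refine (Complex.abs_re_le_norm _).trans ?_
      rw [norm_mul, Complex.norm_conj]
      exact mul_le_mul (hN t ht) (hN' t ht) (norm_nonneg _) hM0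
  · intro t
    have h1 : Tendsto (fun N => g N t) atTop (𝓝 (G t)) := h.tendsto_at t
    have h2 : Tendsto (fun N => k N t) atTop (𝓝 (K t)) := h'.tendsto_at t
    have h3 : Tendsto (fun N => l1 (‖g N t‖ ^ 2 / s)) atTop (𝓝 (l1 (‖G t‖ ^ 2 / s))) :=
      (l1_analytic (hmem (G t))).continuousAt.tendsto.comp ((h1.norm.pow 2).div_const s)
    have h4 : Tendsto (fun N => (conj (g N t) * k N t).re) atTop (𝓝 (conj (G t) * K t).re) :=
      (continuous_re.tendsto _).comp (((continuous_conj.tendsto _).comp h1).mul h2)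
    exact (h3.div_const s).mul h4

theorem lin_core (h : IsSig F b) {x : ℝ} (hx0 : 0 < x) (hx : x < 1) {s q : ℝ} (hs : 0 < s)
    (hq0 : 0 < q) (hq1 : q < 1) :
    hq q ≤ Lg s (sx b x) - (1 - q) * (Real.log s + (Ig s (sx b x) (sd b x) - Kx b x / s) / 2) := by
  have cpe : ∀ N, Continuous (fun t => pe (pN b x N) t) := fun N => by
    unfold pe
    exact (pN b x N).continuous.comp continuous_e
  have cpd : ∀ N, Continuous (fun t => pd (pN b x N) t) := fun N => by
    unfold pd
    exact continuous_e.mul ((pN b x N).derivative.continuous.comp continuous_e)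
  have t1 := Lg_tendsto hs cpe (sx_continuous h hx0 hx) (pe_pN_tendsto h hx0 hx)
  have t2 := Ig_tendsto hs cpe (sx_continuous h hx0 hx) (pe_pN_tendsto h hx0 hx) cpd
    (sd_continuous h hx0 hx) (pd_pN_tendsto h hx0 hx)
  have t3 : Tendsto (fun N : ℕ => ∑ j ∈ Finset.range (N + 1),
      ((j - 2 : ℕ) : ℝ) * ‖(pN b x N).coeff j‖ ^ 2) atTop (𝓝 (Kx b x)) := by
    have e1 : ∀ N : ℕ, ∑ j ∈ Finset.range (N + 1), ((j - 2 : ℕ) : ℝ) * ‖(pN b x N).coeff j‖ ^ 2 =
        ∑ n ∈ Finset.range N, ((n - 1 : ℕ) : ℝ) * ‖b n‖ ^ 2 * x ^ (2 * n + 2) := by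
      intro N
      rw [Finset.sum_range_succ']
      simp only [Nat.zero_sub, Nat.cast_zero, zero_mul, add_zero]
      refine Finset.sum_congr rfl fun n hn => ?_
      rw [pN_coeff_succ b x N n (Finset.mem_range.1 hn), norm_mul, norm_pow, Complex.norm_real,
        Real.norm_eq_abs, abs_of_pos hx0, mul_pow, ← pow_mul,
        show n + 1 - 2 = n - 1 from by omega, show (n + 1) * 2 = 2 * n + 2 from by ring]
      ring
    simp only [e1]
    exact (Kx_summable h hx0 hx).hasSum.tendsto_sum_nat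
  have t4 : Tendsto (fun N : ℕ => Lg s (fun t => pe (pN b x N) t) - (1 - q) * (Real.log s +
      (Ig s (fun t => pe (pN b x N) t) (fun t => pd (pN b x N) t) -
      (∑ j ∈ Finset.range (N + 1), ((j - 2 : ℕ) : ℝ) * ‖(pN b x N).coeff j‖ ^ 2) / s) / 2))
      atTop (𝓝 (Lg s (sx b x) - (1 - q) * (Real.log s +
        (Ig s (sx b x) (sd b x) - Kx b x / s) / 2))) :=
    t1.sub ((((t2.sub (t3.div_const s)).div_const 2).const_add _).const_mul _)
  exact ge_of_tendsto t4 (Eventually.of_forall fun N =>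
    lin_poly hs hq0 hq1 (pN_coeff_zero b x N) (pN_natDegree b x N))

end Pool.Agent.H97.SIM
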