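import Pool.Agent.H97.SIM.WArea
import Pool.Agent.H97.SIM.LimB
import Pool.Agent.H97.SIM.JEq

/-!
# The comparison with `1 + u^2` at radius one

CLAIM: for `0 < x < 1`, `s > 0`: `av uu (|S(x e)|^2 / s) <= av uu (|1 + e^2|^2 / s)`.

PROOF. Choose `q` in `(0, 1)` with `(1 - q)^2 / q = s` (`exists_q`: `q = 1 + s/2 -
sqrt (s + s^2/4)`, or the intermediate value theorem), `th = (1 - q) / (1 + q)`, and abbreviate
`L = Lg s (sx b x)`, `I = Ig s (sx b x) (sd b x)`, `m = mx b x`, `K = Kx b x`.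
(a) `lin_core`: `2 L - (1 - q) (I - K / s) >= 2 hq q + 2 (1 - q) log s`.
(b) `warea` with `sg = s`: since `l1 (|S|^2 / s) |S|^2 = s log (1 + |S|^2 / s) =
s (log (|S|^2 + s) - log s)` and `l1 (|S|^2 / s) Re (conj S u S') = s * (integrand of Ig)`:
`(1 + m) - (K + 2 m) - th s (L - log s - I) >= 0`, i.e.
`- I <= (1 - m - K) / (th s) - L + log s`; multiply by `1 - q` (`(1 - q) / th = 1 + q`):
`- (1 - q) I <= (1 + q) (1 - m - K) / s - (1 - q) L + (1 - q) log s`.
(a) and (b): `(1 + q) L >= 2 hq q + (1 - q) log s - (1 + q) (1 - m) / s + 2 q K / s`.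
As `log s = 2 log (1 - q) - log q`, `2 hq q + (1 - q) log s = - (1 + q) log q`. So
`L >= - log q - (1 - m) / s`. By `J_L` with `x = 1`: `Lg s (gJ 1) = - log q`, and
`av |gJ 1|^2 = 2`, `av |S|^2 = 1 + m`:
`av uu (|S|^2 / s) = (1 + m) / s - L + log s <= 2 / s + log q + log s = av uu (|gJ 1|^2 / s)`.
-/

open Complex MeasureTheory Set Filter Topology
open scoped ComplexConjugate Real

namespace Pool.Agent.H97.SIM

open Pool.Agent.H15.Sig

variable {F : ℂ → ℂ} {b : ℕ → ℂ}

theorem exists_q {s : ℝ} (hs : 0 < s) : ∃ q : ℝ, 0 < q ∧ q < 1 ∧ (1 - q) * (1 - q) / q = s := by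
  have hc : ContinuousOn (fun q : ℝ => (1 - q) * (1 - q) - s * q) (Icc 0 1) := by fun_prop
  have h1 := intermediate_value_Icc' (zero_le_one (α := ℝ)) hc
  have h2 : (0 : ℝ) ∈ Icc ((1 - 1) * (1 - 1) - s * 1) ((1 - (0:ℝ)) * (1 - 0) - s * 0) := by
    constructor
    · linarith
    · norm_num
  obtain ⟨q, ⟨hq0, hq1⟩, hq⟩ := h1 h2
  have hq' : (1 - q) * (1 - q) - s * q = 0 := hq
  have h3 : q ≠ 0 := by
    rintro rfl
    norm_num at hq'
  have h4 : q ≠ 1 := by
    rintro rfl
    norm_num at hq'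
    exact hs.ne' hq'
  refine ⟨q, lt_of_le_of_ne hq0 (Ne.symm h3), lt_of_le_of_ne hq1 h4, ?_⟩
  rw [div_eq_iff h3]
  linarith

/-- `av uu (|g|^2 / s) = av |g|^2 / s - Lg s g + log s` -/
theorem av_uu {s : ℝ} (hs : 0 < s) {g : ℝ → ℂ} (hg : Continuous g) :
    av (fun t => uu (‖g t‖ ^ 2 / s)) = av (fun t => ‖g t‖ ^ 2) / s - Lg s g + Real.log s := by
  have hpos : ∀ t, 0 < ‖g t‖ ^ 2 + s := fun t => by positivity
  have h1 : ∀ t, uu (‖g t‖ ^ 2 / s) = s⁻¹ * ‖g t‖ ^ 2 - (Real.log (‖g t‖ ^ 2 + s) - Real.log s) := by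
    intro t
    have h2 : 1 + ‖g t‖ ^ 2 / s = (‖g t‖ ^ 2 + s) / s := by
      field_simp
      ring
    rw [uu, h2, Real.log_div (hpos t).ne' hs.ne']
    ring
  have c1 : Continuous (fun t => ‖g t‖ ^ 2) := by fun_prop
  have c2 : Continuous (fun t => Real.log (‖g t‖ ^ 2 + s)) :=
    Continuous.log (by fun_prop) fun t => (hpos t).ne'
  have c3 : Continuous (fun t => Real.log (‖g t‖ ^ 2 + s) - Real.log s) := c2.sub continuous_const
  have c4 : Continuous (fun t => s⁻¹ * ‖g t‖ ^ 2) := by fun_prop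
  rw [av_congr h1, av_sub c4 c3, av_mul_const, av_sub c2 continuous_const, av_const, Lg]
  ring

theorem base_uu (h : IsSig F b) {x s : ℝ} (hx0 : 0 < x) (hx : x < 1) (hs : 0 < s) :
    av (fun t => uu (‖sx b x t‖ ^ 2 / s)) ≤ av (fun t => uu (‖gJ 1 t‖ ^ 2 / s)) := by
  obtain ⟨q, hq0, hq1, hqs⟩ := exists_q hs
  have cS := sx_continuous h hx0 hx
  have cD := sd_continuous h hx0 hx
  have hJ : Lg s (gJ 1) = -Real.log q := by
    have h1 := J_L (x := 1) zero_lt_one le_rfl hq0 hq1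
    rw [one_pow, one_mul, hqs] at h1
    exact h1
  rw [av_uu hs cS, av_uu hs (gJ_continuous 1), av_sx_sq h hx0 hx, J_sq, hJ]
  have ha := lin_core h hx0 hx hs hq0 hq1
  set L := Lg s (sx b x) with hL
  set Iv := Ig s (sx b x) (sd b x) with hI
  set m := mx b x with hm
  set K := Kx b x with hK
  have hK0 : 0 ≤ K := Kx_nonneg b hx0
  let th : ℝ := (1 - q) / (1 + q)
  have hth : th = (1 - q) / (1 + q) := rfl
  have hth0 : 0 < th := div_pos (by linarith) (by linarith)
  have hth1 : th ≤ 1 := by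
    rw [hth, div_le_one (by linarith)]
    linarith
  have hb := warea h hx0 hx hs hth0.le hth1
  have cl : Continuous (fun t => l1 (‖sx b x t‖ ^ 2 / s)) := by
    refine l1_contOn.comp_continuous (by fun_prop) fun t => ?_
    have h1 : 0 ≤ ‖sx b x t‖ ^ 2 / s := by positivity
    exact lt_of_lt_of_le (by norm_num) h1
  have cR : Continuous (fun t => (conj (sx b x t) * sd b x t).re) :=
    Complex.continuous_re.comp ((Complex.continuous_conj.comp cS).mul cD)
  have cN : Continuous (fun t => ‖sx b x t‖ ^ 2) := by fun_prop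
  have hpos : ∀ t, 0 < ‖sx b x t‖ ^ 2 + s := fun t => by positivity
  have c2 : Continuous (fun t => Real.log (‖sx b x t‖ ^ 2 + s)) :=
    Continuous.log (by fun_prop) fun t => (hpos t).ne'
  have e1 : ∀ t, (1 - th * l1 (‖sx b x t‖ ^ 2 / s)) *
      (‖sx b x t‖ ^ 2 - (conj (sx b x t) * sd b x t).re)
      = (‖sx b x t‖ ^ 2 - (conj (sx b x t) * sd b x t).re)
        - (th * s) * ((Real.log (‖sx b x t‖ ^ 2 + s) - Real.log s)
          - l1 (‖sx b x t‖ ^ 2 / s) / s * (conj (sx b x t) * sd b x t).re) := by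
    intro t
    have h2 : ‖sx b x t‖ ^ 2 / s * l1 (‖sx b x t‖ ^ 2 / s)
        = Real.log (‖sx b x t‖ ^ 2 + s) - Real.log s := by
      rw [l1_mul, ← Real.log_div (hpos t).ne' hs.ne']
      congr 1
      field_simp
      ring
    rw [← h2]
    field_simp
  have c3 : Continuous (fun t => Real.log (‖sx b x t‖ ^ 2 + s) - Real.log s) :=
    c2.sub continuous_const
  have c4 : Continuous (fun t => ‖sx b x t‖ ^ 2 - (conj (sx b x t) * sd b x t).re) := cN.sub cR
  have c5 : Continuous (fun t => l1 (‖sx b x t‖ ^ 2 / s) / s * (conj (sx b x t) * sd b x t).re) :=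
    (cl.div_const s).mul cR
  have c6 : Continuous (fun t => (Real.log (‖sx b x t‖ ^ 2 + s) - Real.log s)
      - l1 (‖sx b x t‖ ^ 2 / s) / s * (conj (sx b x t) * sd b x t).re) := c3.sub c5
  have c7 : Continuous (fun t => (th * s) * ((Real.log (‖sx b x t‖ ^ 2 + s) - Real.log s)
      - l1 (‖sx b x t‖ ^ 2 / s) / s * (conj (sx b x t) * sd b x t).re)) :=
    continuous_const.mul c6
  have hIv : Iv = av (fun t => l1 (‖sx b x t‖ ^ 2 / s) / s * (conj (sx b x t) * sd b x t).re) := rfl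
  have hLv : L = av (fun t => Real.log (‖sx b x t‖ ^ 2 + s)) := rfl
  rw [av_congr e1, av_sub c4 c7, av_sub cN cR, av_mul_const,
    av_sub c3 c5, av_sub c2 continuous_const, av_const,
    av_sx_sq h hx0 hx, av_sx_sd h hx0 hx, ← hIv, ← hLv, ← hm, ← hK] at hb
  have hlog : Real.log s = 2 * Real.log (1 - q) - Real.log q := by
    rw [← hqs, Real.log_div (by nlinarith) hq0.ne', Real.log_mul (by linarith) (by linarith)]
    ring
  have hthq : th * (1 + q) = 1 - q := by
    rw [hth, div_mul_cancel₀]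
    linarith
  have hb2 : 0 ≤ (1 + q) * (1 - m - K) - (1 - q) * s * (L - Real.log s - Iv) := by
    have h3 : (1 + q) * ((1 + m) - (K + 2 * m) - th * s * (L - Real.log s - Iv))
        = (1 + q) * (1 - m - K) - (1 - q) * s * (L - Real.log s - Iv) := by
      rw [← hthq]
      ring
    rw [← h3]
    exact mul_nonneg (by linarith) hb
  have ha2 : s * (2 * hq q) ≤ s * (2 * L) - (1 - q) * (2 * s * Real.log s + (s * Iv - K)) := by
    have h4 : s * (2 * (L - (1 - q) * (Real.log s + (Iv - K / s) / 2)))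
        = s * (2 * L) - (1 - q) * (2 * s * Real.log s + (s * Iv - K)) := by
      field_simp
    rw [← h4]
    exact mul_le_mul_of_nonneg_left (mul_le_mul_of_nonneg_left ha (by norm_num)) hs.le
  have hh : 2 * hq q + (1 - q) * Real.log s = -((1 + q) * Real.log q) := by
    rw [hq, hlog]
    ring
  have key : (1 + q) * (s * (-Real.log q) - (1 - m)) ≤ (1 + q) * (s * L) := by
    have h5 : 0 ≤ 2 * q * K := by positivity
    have h6 : s * (2 * hq q + (1 - q) * Real.log s) = s * (-((1 + q) * Real.log q)) := by rw [hh]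
    nlinarith
  have key2 : s * (-Real.log q) - (1 - m) ≤ s * L := le_of_mul_le_mul_left key (by linarith)
  have h7 : (1 + m) / s - L ≤ (1 + 1 ^ 4) / s - (-Real.log q) := by
    rw [← sub_nonneg]
    have h8 : (1 + 1 ^ 4) / s - (-Real.log q) - ((1 + m) / s - L)
        = (s * L - (s * (-Real.log q) - (1 - m))) / s := by
      field_simp
      ring
    rw [h8]
    exact div_nonneg (by linarith) hs.le
  linarith

end Pool.Agent.H97.SIM
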