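import Pool.Agent.H97.SIM.Defs

/-!
# The mean over the circle

PROOF. Linearity and monotonicity of interval integrals; `av c = c`. `av_eq_circleAverage`:
`Real.circleAverage f 0 1 = (2 pi)^-1 * integral over 0..2 pi of f (circleMap 0 1 t)`,
`circleMap 0 1 t = e t`, and the integral of a `2 pi`-periodic function over `-pi..pi` is that over
`0..2 pi` (`Function.Periodic.intervalIntegral_add_eq`). `av_re`: the mean value property for a
function analytic in a neighbourhood of the closed disc
(`circleAverage_of_differentiable_on` or the Cauchy integral formula at the centre,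
`DiffContOnCl.circleAverage` - search in Mathlib for `circleAverage`), then take real parts.
`av_neg`: substitute `t -> -t`.
-/

open Complex MeasureTheory Set
open scoped ComplexConjugate Real

namespace Pool.Agent.H97.SIM

theorem norm_e (t : ℝ) : ‖e t‖ = 1 := by
  rw [e, Complex.norm_exp_ofReal_mul_I]

theorem continuous_e : Continuous e := by
  unfold e; fun_prop

theorem e_hasDerivAt (t : ℝ) : HasDerivAt e (I * e t) t := by
  have h1 : HasDerivAt (fun x : ℝ => (x : ℂ) * I) (1 * I) t :=
    (Complex.ofRealCLM.hasDerivAt (x := t)).mul_const I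
  have h2 := h1.cexp
  unfold e
  convert h2 using 1
  ring

theorem conj_e (t : ℝ) : conj (e t) = (e t)⁻¹ := by
  unfold e
  rw [← Complex.exp_conj, ← Complex.exp_neg]
  congr 1
  simp

theorem e_periodic (t : ℝ) : e (t + 2 * π) = e t := by
  unfold e
  have h : ((t + 2 * π : ℝ) : ℂ) * I = (t : ℂ) * I + 2 * π * I := by
    push_cast
    ring
  rw [h, Complex.exp_periodic]

theorem e_neg_pi : e (-π) = e π := by
  have h := e_periodic (-π)
  rw [← h]
  congr 1
  ring

theorem ec_eq (t : ℝ) : Pool.Agent.H15.Sig.ec t = e (-t) := by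
  unfold Pool.Agent.H15.Sig.ec e
  congr 1
  push_cast
  ring

theorem av_const (c : ℝ) : av (fun _ => c) = c := by
  unfold av
  rw [intervalIntegral.integral_const, smul_eq_mul]
  have : (π : ℝ) ≠ 0 := Real.pi_ne_zero
  field_simp
  ring

theorem av_add {f g : ℝ → ℝ} (hf : Continuous f) (hg : Continuous g) :
    av (fun t => f t + g t) = av f + av g := by
  unfold av
  rw [intervalIntegral.integral_add (hf.intervalIntegrable _ _) (hg.intervalIntegrable _ _)]
  ring

theorem av_sub {f g : ℝ → ℝ} (hf : Continuous f) (hg : Continuous g) :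
    av (fun t => f t - g t) = av f - av g := by
  unfold av
  rw [intervalIntegral.integral_sub (hf.intervalIntegrable _ _) (hg.intervalIntegrable _ _)]
  ring

theorem av_mul_const (c : ℝ) (f : ℝ → ℝ) : av (fun t => c * f t) = c * av f := by
  unfold av
  rw [intervalIntegral.integral_const_mul]
  ring

theorem av_mono {f g : ℝ → ℝ} (hf : Continuous f) (hg : Continuous g) (h : ∀ t, f t ≤ g t) :
    av f ≤ av g := by
  unfold av
  refine mul_le_mul_of_nonneg_left ?_ (by positivity)
  exact intervalIntegral.integral_mono (by linarith [Real.pi_pos]) (hf.intervalIntegrable _ _)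
    (hg.intervalIntegrable _ _) h

theorem av_nonneg {f : ℝ → ℝ} (h : ∀ t, 0 ≤ f t) : 0 ≤ av f := by
  unfold av
  refine mul_nonneg (by positivity) ?_
  exact intervalIntegral.integral_nonneg (by linarith [Real.pi_pos]) (fun t _ => h t)

theorem av_congr {f g : ℝ → ℝ} (h : ∀ t, f t = g t) : av f = av g := by
  rw [funext h]

/-- the substitution `t -> -t` -/
theorem av_neg (f : ℝ → ℝ) : av (fun t => f (-t)) = av f := by
  unfold av
  rw [intervalIntegral.integral_comp_neg, neg_neg]

theorem av_eq_circleAverage (f : ℂ → ℝ) : av (fun t => f (e t)) = Real.circleAverage f 0 1 := by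
  have hc : ∀ t : ℝ, circleMap 0 1 t = e t := by
    intro t
    simp [circleMap, e]
  have hp : Function.Periodic (fun t : ℝ => f (e t)) (2 * π) := by
    intro t
    show f (e (t + 2 * π)) = f (e t)
    rw [e_periodic]
  have h1 := hp.intervalIntegral_add_eq (-π) 0
  have h2 : -π + 2 * π = π := by ring
  rw [h2, zero_add] at h1
  rw [Real.circleAverage_def, smul_eq_mul]
  unfold av
  rw [h1]
  congr 1
  refine intervalIntegral.integral_congr ?_
  intro t _
  show f (e t) = f (circleMap 0 1 t)
  rw [hc]

/-- the mean value property -/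
theorem av_re {U : Set ℂ} (hU : IsOpen U) (hs : Metric.closedBall (0:ℂ) 1 ⊆ U) {f : ℂ → ℂ}
    (hf : DifferentiableOn ℂ f U) : av (fun t => (f (e t)).re) = (f 0).re := by
  have hd : DiffContOnCl ℂ f (Metric.ball 0 |(1 : ℝ)|) := by
    rw [abs_one]
    refine DifferentiableOn.diffContOnCl ?_
    rw [closure_ball (0 : ℂ) one_ne_zero]
    exact hf.mono hs
  have h1 := hd.circleAverage
  have h2 : av (fun t => (f (e t)).re) = Real.circleAverage (fun z => (f z).re) 0 1 :=
    av_eq_circleAverage (fun z => (f z).re)
  rw [h2, ← h1, Real.circleAverage_def, Real.circleAverage_def, Complex.smul_re]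
  congr 1
  have hci : Continuous (fun t : ℝ => f (circleMap 0 1 t)) := by
    have hcf : ContinuousOn f (Metric.closedBall 0 1) := hf.continuousOn.mono hs
    refine hcf.comp_continuous (continuous_circleMap 0 1) ?_
    intro t
    exact circleMap_mem_closedBall 0 zero_le_one t
  have h3 := Complex.reCLM.intervalIntegral_comp_comm (hci.intervalIntegrable (μ := volume) 0 (2 * π))
  exact h3

end Pool.Agent.H97.SIM
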