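import Pool.Agent.H97.SIM.MomA

/-!
# Second moments of `S`

`S u = 1 + sum b_n u^(n+1)`, `b_0 = 0`, `sum n |b_n|^2 <= 1` (`IsSig.area`).

PROOF. `Rep (sps b) (S b)` is `IsSig.rep_sps`; `Rep.parseval_self` (with `ec t = e (-t)`, `av_neg`)
gives `av |S|^2 = 1 + sum |b_n|^2 x^(2n+2)`. `u S' u = sum (n+1) b_n u^(n+1)`: it is represented by
the power series with coefficients `k * coeff k (sps b)` (`Rep.hasDerivAt`), and `Rep.parseval`
gives `av Re (conj S * u S') = sum (n+1) |b_n|^2 x^(2n+2)`; since `b_0 = 0`,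
`(n+1) |b_n|^2 = (n-1)_+ |b_n|^2 + 2 |b_n|^2` for all `n`.
`mx_le`: `x^(2n+2) <= x^4` for `n >= 1` and `sum_(n>=1) |b_n|^2 <= sum n |b_n|^2 <= 1`.
`mx_lt`: `mx <= x^4 (|b_1|^2 + sum_(n>=2) |b_n|^2) <= x^4 (|b_1|^2 + (1 - |b_1|^2) / 2) < x^4`.
Continuity and differentiability of `S` in the open unit disc: `IsSig.hasDerivAt_pw`.
-/

open Complex MeasureTheory Set Filter Topology
open scoped ComplexConjugate Real

namespace Pool.Agent.H97.SIM

open Pool.Agent.H15.Sig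

variable {F : ℂ → ℂ} {b : ℕ → ℂ}

private theorem area_summable (h : IsSig F b) : Summable (fun n : ℕ => (n : ℝ) * ‖b n‖ ^ 2) :=
  summable_of_sum_range_le (fun n => by positivity) h.area

private theorem area_tsum (h : IsSig F b) : ∑' n : ℕ, (n : ℝ) * ‖b n‖ ^ 2 ≤ 1 :=
  Real.tsum_le_of_sum_range_le (fun n => by positivity) h.area

private theorem term_le (h : IsSig F b) {x : ℝ} (hx0 : 0 < x) (hx : x < 1) (n : ℕ) :
    ‖b n‖ ^ 2 * x ^ (2 * n + 2) ≤ (n : ℝ) * ‖b n‖ ^ 2 * x ^ 4 := by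
  rcases Nat.eq_zero_or_pos n with rfl | hn
  · rw [h.b0]; simp
  · have h1 : x ^ (2 * n + 2) ≤ x ^ 4 := pow_le_pow_of_le_one hx0.le hx.le (by omega)
    have h2 : (1 : ℝ) ≤ n := by exact_mod_cast hn
    have h3 : 0 ≤ ‖b n‖ ^ 2 := by positivity
    calc ‖b n‖ ^ 2 * x ^ (2 * n + 2) ≤ ‖b n‖ ^ 2 * x ^ 4 := mul_le_mul_of_nonneg_left h1 h3
      _ ≤ (n : ℝ) * ‖b n‖ ^ 2 * x ^ 4 := by
        apply mul_le_mul_of_nonneg_right _ (by positivity)
        nlinarith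

theorem mx_summable (h : IsSig F b) {x : ℝ} (hx0 : 0 < x) (hx : x < 1) :
    Summable (fun n : ℕ => ‖b n‖ ^ 2 * x ^ (2 * n + 2)) :=
  Summable.of_nonneg_of_le (fun n => by positivity) (term_le h hx0 hx)
    ((area_summable h).mul_right _)

theorem Kx_summable (h : IsSig F b) {x : ℝ} (hx0 : 0 < x) (hx : x < 1) :
    Summable (fun n : ℕ => ((n - 1 : ℕ) : ℝ) * ‖b n‖ ^ 2 * x ^ (2 * n + 2)) := by
  refine Summable.of_nonneg_of_le (fun n => by positivity) (fun n => ?_) (area_summable h)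
  have h1 : x ^ (2 * n + 2) ≤ 1 := pow_le_one₀ hx0.le hx.le
  have h2 : (((n - 1 : ℕ) : ℝ)) ≤ n := by exact_mod_cast Nat.sub_le n 1
  have h3 : 0 ≤ ‖b n‖ ^ 2 := by positivity
  calc ((n - 1 : ℕ) : ℝ) * ‖b n‖ ^ 2 * x ^ (2 * n + 2) ≤ ((n - 1 : ℕ) : ℝ) * ‖b n‖ ^ 2 * 1 :=
        mul_le_mul_of_nonneg_left h1 (by positivity)
    _ ≤ (n : ℝ) * ‖b n‖ ^ 2 := by
        rw [mul_one]; exact mul_le_mul_of_nonneg_right h2 h3

private theorem rep_S (h : IsSig F b) : Rep (sps b) (S b) := h.rep_sps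

private theorem S_xec (x t : ℝ) : S b (x * ec t) = sx b x (-t) := by
  rw [ec_eq]; rfl

theorem av_sx_sq (h : IsSig F b) {x : ℝ} (hx0 : 0 < x) (hx : x < 1) :
    av (fun t => ‖sx b x t‖ ^ 2) = 1 + mx b x := by
  have h1 := (rep_S h).parseval_self hx0.le hx
  have h2 := (hasSum_nat_add_iff' 1).2 h1
  simp only [Finset.sum_range_one, coeff_sps_zero, coeff_sps_succ, norm_one] at h2
  have h3 : HasSum (fun n : ℕ => ‖b n‖ ^ 2 * x ^ (2 * n + 2))
      ((2 * π)⁻¹ * ((∫ t in (-π)..π, ‖S b (x * ec t)‖ ^ 2) - 2 * π)) := by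
    have h4 := h2.mul_left (2 * π)⁻¹
    simp only [one_pow, mul_one, mul_zero, pow_zero] at h4
    refine h4.congr_fun ?_ |> fun h => h
    intro n
    have hπ : (π : ℝ) ≠ 0 := Real.pi_ne_zero
    rw [show 2 * (n + 1) = 2 * n + 2 by ring]
    field_simp
  have h5 : mx b x = (2 * π)⁻¹ * ((∫ t in (-π)..π, ‖S b (x * ec t)‖ ^ 2) - 2 * π) := h3.tsum_eq
  have h6 : av (fun t => ‖sx b x t‖ ^ 2) = (2 * π)⁻¹ * ∫ t in (-π)..π, ‖S b (x * ec t)‖ ^ 2 := by
    rw [← av_neg]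
    unfold av
    simp only [S_xec]
  rw [h6, h5]
  have hπ : (π : ℝ) ≠ 0 := Real.pi_ne_zero
  field_simp
  ring

theorem av_sx_sd (h : IsSig F b) {x : ℝ} (hx0 : 0 < x) (hx : x < 1) :
    av (fun t => (conj (sx b x t) * sd b x t).re) = Kx b x + 2 * mx b x := by
  have hS := rep_S h
  set f2 : PowerSeries ℂ := PowerSeries.mk fun k => (k : ℂ) * PowerSeries.coeff k (sps b) with hf2
  have hr : Rep f2 (fun u => u * deriv (S b) u) := by
    intro u hu
    obtain ⟨D, hD, hs⟩ := hS.hasDerivAt hu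
    have e0 : u * deriv (S b) u = D * u := by rw [hD.deriv, mul_comm]
    simp only [e0]
    refine hs.congr_fun ?_ |> fun h => h
    intro k
    rw [hf2, PowerSeries.coeff_mk]
  have hp := hasSum_re (hS.parseval hr hx0.le hx)
  have e1 : ∀ k : ℕ, (2 * π * (conj (PowerSeries.coeff k (sps b)) * PowerSeries.coeff k f2) *
      (x : ℂ) ^ (2 * k)).re = 2 * π * ((k : ℝ) * ‖PowerSeries.coeff k (sps b)‖ ^ 2) *
        x ^ (2 * k) := by
    intro k
    rw [hf2, PowerSeries.coeff_mk]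
    have : 2 * (π:ℂ) * (conj (PowerSeries.coeff k (sps b)) *
        ((k : ℂ) * PowerSeries.coeff k (sps b))) * (x : ℂ) ^ (2 * k) =
        2 * (π:ℂ) * (k : ℂ) * (conj (PowerSeries.coeff k (sps b)) * PowerSeries.coeff k (sps b)) *
        (x : ℂ) ^ (2 * k) := by ring
    rw [this, Complex.conj_mul']
    have h2 : 2 * (π:ℂ) * (k : ℂ) * (‖PowerSeries.coeff k (sps b)‖ : ℂ) ^ 2 * (x : ℂ) ^ (2 * k) =
        ((2 * π * ((k : ℝ) * ‖PowerSeries.coeff k (sps b)‖ ^ 2) * x ^ (2 * k) : ℝ) : ℂ) := by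
      push_cast; ring
    rw [h2, ofReal_re]
  simp only [e1] at hp
  have h2 := (hasSum_nat_add_iff' 1).2 hp
  simp only [Finset.sum_range_one, coeff_sps_succ, Nat.cast_zero, zero_mul, mul_zero,
    sub_zero] at h2
  have e3 : (∫ t in (-π)..π, conj (S b (x * ec t)) * ((x * ec t) * deriv (S b) (x * ec t))).re =
      ∫ t in (-π)..π, (conj (sx b x (-t)) * sd b x (-t)).re := by
    have hc : Continuous fun t : ℝ => conj (S b (x * ec t)) * ((x * ec t) * deriv (S b) (x * ec t)) :=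
      (continuous_conj.comp (hS.continuous_circle hx0.le hx)).mul
        (hr.continuous_circle hx0.le hx)
    have h4 := intervalIntegral.intervalIntegral_re (μ := volume) (𝕜 := ℂ)
      (hc.intervalIntegrable (-π) π)
    simp only [RCLike.re_to_complex] at h4
    rw [← h4]
    apply intervalIntegral.integral_congr
    intro t _
    simp only [sx, sd, ec_eq]
  rw [e3] at h2
  have h5 : HasSum (fun n : ℕ => ((n - 1 : ℕ) : ℝ) * ‖b n‖ ^ 2 * x ^ (2 * n + 2) +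
      2 * (‖b n‖ ^ 2 * x ^ (2 * n + 2)))
      ((2 * π)⁻¹ * ∫ t in (-π)..π, (conj (sx b x (-t)) * sd b x (-t)).re) := by
    refine (h2.mul_left (2 * π)⁻¹).congr_fun ?_ |> fun h => h
    intro n
    have hπ : (π : ℝ) ≠ 0 := Real.pi_ne_zero
    rcases Nat.eq_zero_or_pos n with rfl | hn
    · rw [h.b0]; simp
    · obtain ⟨m, rfl⟩ : ∃ m, n = m + 1 := ⟨n - 1, by omega⟩
      rw [Nat.add_sub_cancel, show 2 * (m + 1 + 1) = 2 * (m + 1) + 2 by ring]
      push_cast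
      field_simp
      ring
  have h6 := h5.unique ((Kx_summable h hx0 hx).hasSum.add ((mx_summable h hx0 hx).hasSum.mul_left 2))
  rw [← av_neg]
  exact h6

theorem Kx_nonneg (b : ℕ → ℂ) {x : ℝ} (hx0 : 0 < x) : 0 ≤ Kx b x :=
  tsum_nonneg fun n => by positivity

theorem mx_le (h : IsSig F b) {x : ℝ} (hx0 : 0 < x) (hx : x < 1) : mx b x ≤ x ^ 4 := by
  have h1 : mx b x ≤ ∑' n : ℕ, (n : ℝ) * ‖b n‖ ^ 2 * x ^ 4 :=
    (mx_summable h hx0 hx).tsum_le_tsum (term_le h hx0 hx) ((area_summable h).mul_right _)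
  rw [tsum_mul_right] at h1
  have h2 := area_tsum h
  have h3 : 0 < x ^ 4 := by positivity
  nlinarith

theorem mx_lt (h : IsSig F b) (hb : ‖b 1‖ < 1) {x : ℝ} (hx0 : 0 < x) (hx : x < 1) :
    mx b x < x ^ 4 := by
  have hs1 : HasSum (fun n : ℕ => if n = 1 then ‖b 1‖ ^ 2 else 0) (‖b 1‖ ^ 2) :=
    hasSum_ite_eq 1 (‖b 1‖ ^ 2)
  have hs2 := (((area_summable h).hasSum.add hs1).mul_left (x ^ 4 / 2))
  have h1 : mx b x ≤ x ^ 4 / 2 * ((∑' n : ℕ, (n : ℝ) * ‖b n‖ ^ 2) + ‖b 1‖ ^ 2) := by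
    refine hasSum_le (fun n => ?_) (mx_summable h hx0 hx).hasSum hs2
    rcases Nat.lt_or_ge n 2 with hn | hn
    · interval_cases n
      · rw [h.b0]; simp
      · norm_num
        nlinarith
    · rw [if_neg (by omega)]
      have h2 : x ^ (2 * n + 2) ≤ x ^ 4 := pow_le_pow_of_le_one hx0.le hx.le (by omega)
      have h3 : (2 : ℝ) ≤ n := by exact_mod_cast hn
      have h4 : 0 ≤ ‖b n‖ ^ 2 := by positivity
      have h5 : 0 < x ^ 4 := by positivity
      calc ‖b n‖ ^ 2 * x ^ (2 * n + 2) ≤ ‖b n‖ ^ 2 * x ^ 4 := mul_le_mul_of_nonneg_left h2 h4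
        _ ≤ x ^ 4 / 2 * ((n : ℝ) * ‖b n‖ ^ 2 + 0) := by nlinarith [mul_nonneg h4 h5.le]
  have h2 := area_tsum h
  have h3 : 0 < x ^ 4 := by positivity
  have h4 : ‖b 1‖ ^ 2 < 1 := by nlinarith [norm_nonneg (b 1)]
  nlinarith

end Pool.Agent.H97.SIM
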