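import Pool.Agent.H97.SIM.Defs

/-!
# The function `l1 y = log (1 + y) / y`

PROOF. `f v = log (1 + v)` is analytic at every `v > -1` and `f 0 = 0`, `f' 0 = 1`.
`l1 = dslope f 0`: at `y <> 0` it is `(f y - f 0) / (y - 0) = log (1 + y) / y`
(`dslope_of_ne`, `slope_def_field`), at `0` it is `deriv f 0 = 1` (`dslope_same`).
ANALYTIC: at `y <> 0` it agrees near `y` with the analytic function `log (1 + v) / v`; at `0` use
`HasFPowerSeriesAt.has_fpower_series_dslope_fslope` (the dslope of an analytic function at the base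
point is analytic). CONTINUITY of `l1` and of `deriv l1` on `y > -1` follows from analyticity
(`AnalyticAt.continuousAt`, `AnalyticAt.deriv`). ODE: differentiate `y * l1 y = log (1 + y)`.
BOUNDS for `y >= 0`: `log (1 + y) <= y`; `log (1 + y) >= y - y^2 / 2` (derivative, or
`Real.le_log_one_add_of_nonneg : 2 y / (y + 2) <= log (1 + y)` and `2 y/(y+2) >= y - y^2/2`).
-/

open Complex MeasureTheory Set
open scoped ComplexConjugate Real

namespace Pool.Agent.H97.SIM

private lemma lg_zero : (fun v : ℝ => Real.log (1 + v)) 0 = 0 := by simp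

private lemma lg_hasDeriv {y : ℝ} (hy : -1 < y) :
    HasDerivAt (fun v : ℝ => Real.log (1 + v)) (1 / (1 + y)) y := by
  have h1 : HasDerivAt (fun v : ℝ => 1 + v) 1 y := (hasDerivAt_id y).const_add 1
  exact h1.log (by linarith)

private lemma lg_analytic {y : ℝ} (hy : -1 < y) :
    AnalyticAt ℝ (fun v : ℝ => Real.log (1 + v)) y := by
  have h1 : AnalyticAt ℝ (fun v : ℝ => 1 + v) y := analyticAt_const.add analyticAt_id
  exact h1.log (by linarith)

theorem l1_zero : l1 0 = 1 := by
  rw [l1, dslope_same, (lg_hasDeriv (by norm_num : (-1 : ℝ) < 0)).deriv]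
  norm_num

theorem l1_of_ne {y : ℝ} (hy : y ≠ 0) : l1 y = Real.log (1 + y) / y := by
  rw [l1, dslope_of_ne _ hy, slope_def_field]
  simp

theorem l1_mul (y : ℝ) : y * l1 y = Real.log (1 + y) := by
  by_cases hy : y = 0
  · subst hy; simp
  · rw [l1_of_ne hy]
    field_simp

theorem l1_analytic {y : ℝ} (hy : -1 < y) : AnalyticAt ℝ l1 y := by
  by_cases h0 : y = 0
  · subst h0
    obtain ⟨p, hp⟩ := lg_analytic (by norm_num : (-1 : ℝ) < 0)
    exact ⟨_, hp.has_fpower_series_dslope_fslope⟩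
  · have h1 : AnalyticAt ℝ (fun v : ℝ => Real.log (1 + v) / v) y :=
      (lg_analytic hy).div analyticAt_id h0
    refine h1.congr ?_
    filter_upwards [isOpen_ne.mem_nhds h0] with v hv
    exact (l1_of_ne hv).symm

theorem l1_contOn : ContinuousOn l1 (Ioi (-1)) := fun _ hy =>
  (l1_analytic hy).continuousAt.continuousWithinAt

theorem l1_deriv_contOn : ContinuousOn (deriv l1) (Ioi (-1)) := fun _ hy =>
  (l1_analytic hy).deriv.continuousAt.continuousWithinAt

theorem l1_hasDerivAt {y : ℝ} (hy : -1 < y) : HasDerivAt l1 (deriv l1 y) y :=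
  (l1_analytic hy).differentiableAt.hasDerivAt

theorem l1_ode {y : ℝ} (hy : -1 < y) : l1 y + y * deriv l1 y = 1 / (1 + y) := by
  have h1 : HasDerivAt (fun v : ℝ => v * l1 v) (1 * l1 y + y * deriv l1 y) y :=
    (hasDerivAt_id y).mul (l1_hasDerivAt hy)
  have h2 : (fun v : ℝ => v * l1 v) = fun v : ℝ => Real.log (1 + v) := funext l1_mul
  rw [h2] at h1
  have h3 := h1.unique (lg_hasDeriv hy)
  rw [← h3]; ring

theorem l1_pos {y : ℝ} (hy : 0 ≤ y) : 0 < l1 y := by
  rcases hy.eq_or_lt with h | h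
  · rw [← h, l1_zero]; norm_num
  · rw [l1_of_ne h.ne']
    exact div_pos (Real.log_pos (by linarith)) h

theorem l1_le_one {y : ℝ} (hy : 0 ≤ y) : l1 y ≤ 1 := by
  rcases hy.eq_or_lt with h | h
  · rw [← h, l1_zero]
  · rw [l1_of_ne h.ne', div_le_one h]
    have := Real.log_le_sub_one_of_pos (by linarith : 0 < 1 + y)
    linarith

theorem one_sub_l1_le {y : ℝ} (hy : 0 ≤ y) : 1 - l1 y ≤ y / 2 := by
  rcases hy.eq_or_lt with h | h
  · rw [← h, l1_zero]; norm_num
  · rw [l1_of_ne h.ne']
    have h1 := Real.le_log_one_add_of_nonneg hy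
    have h2 : 2 * y / (y + 2) ≥ y - y ^ 2 / 2 := by
      rw [ge_iff_le, le_div_iff₀ (by linarith)]
      nlinarith [sq_nonneg y, pow_pos h 3]
    have h3 : Real.log (1 + y) / y ≥ 1 - y / 2 := by
      rw [ge_iff_le, le_div_iff₀ h]
      nlinarith
    linarith

end Pool.Agent.H97.SIM
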