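import Pool.Agent.H97.SIM.PairA
import Pool.Agent.H97.SIM.Ell

/-!
# Pairs: mean of the logarithm and Parseval

PROOF. `logmean`: `log (|f|^2 + s) = 2 log |h|` on the circle and the mean of `log |h|` over the
circle is `log |h 0|` for the zero-free analytic function `h`
(`AnalyticOnNhd.circleAverage_log_norm_of_ne_zero`, `av_eq_circleAverage`).
`poly_parseval`: expand `|p|^2 = sum_j sum_k p_j conj p_k e^(i (j - k) t)` and integrate, or use
`Pool.Agent.H15.Sig.Rep.parseval_self` at radius `x < 1` and let `x -> 1`, or write the mean of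
`|p|^2` as sum of coefficients with `Pool.Agent.H15.Sig.int_ec` (`ec t = e (-t)`).
`Pair.parseval`: integrate `circ`. The sums run over `range N` for any `N > natDegree`.
-/

open Complex MeasureTheory Set Polynomial
open scoped ComplexConjugate Real

namespace Pool.Agent.H97.SIM

variable {s : ℝ} {f h : ℂ[X]}

theorem continuous_pe (p : ℂ[X]) : Continuous (pe p) :=
  p.continuous.comp continuous_e

theorem continuous_pd (p : ℂ[X]) : Continuous (pd p) :=
  continuous_e.mul (p.derivative.continuous.comp continuous_e)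

theorem pe_hasDerivAt (p : ℂ[X]) (t : ℝ) : HasDerivAt (pe p) (I * pd p t) t := by
  have h1 := (p.hasDerivAt (e t)).comp t (e_hasDerivAt t)
  have h2 : p.derivative.eval (e t) * (I * e t) = I * pd p t := by unfold pd; ring
  rw [h2] at h1
  exact h1

theorem Pair.logmean (P : Pair s f h) : Lg s (pe f) = Real.log (‖h.coeff 0‖ ^ 2) := by
  have h1 : Lg s (pe f) = av (fun t => 2 * Real.log ‖h.eval (e t)‖) := by
    unfold Lg
    refine av_congr fun t => ?_
    have h0 := P.circ t
    unfold pe
    rw [← h0, Real.log_pow]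
    norm_num
  have h3 : av (fun t => Real.log ‖h.eval (e t)‖) = Real.log ‖h.eval 0‖ := by
    rw [av_eq_circleAverage (fun z => Real.log ‖h.eval z‖)]
    refine AnalyticOnNhd.circleAverage_log_norm_of_ne_zero (g := fun z => h.eval z) ?_ ?_
    · intro z _
      exact (h.differentiable.analyticAt z)
    · intro z hz
      apply P.nz
      simpa using hz
  rw [h1, av_mul_const, h3, coeff_zero_eq_eval_zero, Real.log_pow]
  norm_num

private theorem pe_neg (p : ℂ[X]) (t : ℝ) : pe p (-t) = p.eval (Pool.Agent.H15.Sig.ec t) := by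
  unfold pe
  rw [ec_eq]

theorem poly_parseval (p : ℂ[X]) {N : ℕ} (hN : p.natDegree < N) :
    av (fun t => ‖pe p t‖ ^ 2) = ∑ j ∈ Finset.range N, ‖p.coeff j‖ ^ 2 := by
  rw [← av_neg]
  have e1 : ∀ t : ℝ, ((‖pe p (-t)‖ ^ 2 : ℝ) : ℂ) = ∑ j ∈ Finset.range N, ∑ k ∈ Finset.range N,
      (conj (p.coeff j) * p.coeff k) *
        (conj (Pool.Agent.H15.Sig.ec t ^ j) * Pool.Agent.H15.Sig.ec t ^ k) := by
    intro t
    rw [pe_neg]
    push_cast
    rw [← Complex.conj_mul', p.eval_eq_sum_range' hN, map_sum, Finset.sum_mul_sum]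
    refine Finset.sum_congr rfl fun j _ => Finset.sum_congr rfl fun k _ => ?_
    rw [map_mul]
    ring
  have hci : ∀ j k : ℕ, IntervalIntegrable (fun t : ℝ => (conj (p.coeff j) * p.coeff k) *
        (conj (Pool.Agent.H15.Sig.ec t ^ j) * Pool.Agent.H15.Sig.ec t ^ k)) volume (-π) π := by
    intro j k
    apply Continuous.intervalIntegrable
    exact continuous_const.mul ((continuous_conj.comp
      (Pool.Agent.H15.Sig.continuous_ec.pow j)).mul (Pool.Agent.H15.Sig.continuous_ec.pow k))
  have e2 : ((∫ t in (-π)..π, ‖pe p (-t)‖ ^ 2 : ℝ) : ℂ) =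
      ((2 * π * ∑ j ∈ Finset.range N, ‖p.coeff j‖ ^ 2 : ℝ) : ℂ) := by
    rw [← intervalIntegral.integral_ofReal, intervalIntegral.integral_congr (fun t _ => e1 t),
      intervalIntegral.integral_finsetSum (fun j _ => ?_)]
    · push_cast
      rw [Finset.mul_sum]
      refine Finset.sum_congr rfl fun j hj => ?_
      rw [intervalIntegral.integral_finsetSum (fun k _ => hci j k),
        Finset.sum_eq_single j]
      · rw [intervalIntegral.integral_const_mul, Pool.Agent.H15.Sig.int_ec, if_pos rfl,
          Complex.conj_mul']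
        push_cast
        ring
      · intro k _ hk
        rw [intervalIntegral.integral_const_mul, Pool.Agent.H15.Sig.int_ec, if_neg (Ne.symm hk),
          mul_zero]
      · intro h0
        exact absurd hj h0
    · have := IntervalIntegrable.sum (Finset.range N) (fun k _ => hci j k)
      refine this.congr ?_
      intro t _
      simp only [Finset.sum_apply]
  have e3 : ∫ t in (-π)..π, ‖pe p (-t)‖ ^ 2 = 2 * π * ∑ j ∈ Finset.range N, ‖p.coeff j‖ ^ 2 := by
    exact_mod_cast e2
  unfold av
  rw [e3, ← mul_assoc, inv_mul_cancel₀ (by positivity), one_mul]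

theorem Pair.parseval (P : Pair s f h) {N : ℕ} (hN : f.natDegree < N) :
    ∑ j ∈ Finset.range N, ‖h.coeff j‖ ^ 2 = ∑ j ∈ Finset.range N, ‖f.coeff j‖ ^ 2 + s := by
  rw [← poly_parseval h (lt_of_le_of_lt P.deg hN), ← poly_parseval f hN]
  have h1 : av (fun t => ‖pe h t‖ ^ 2) = av (fun t => ‖pe f t‖ ^ 2 + s) :=
    av_congr fun t => P.circ t
  have h2 := av_add (f := fun t => ‖pe f t‖ ^ 2) (g := fun _ => s)
    ((continuous_pe f).norm.pow 2) continuous_const
  rw [h1, h2, av_const]

/-- `av log (1 + |f|^2 / s) = log (|h 0|^2 / s)` -/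
theorem Pair.tau (P : Pair s f h) :
    av (fun t => Real.log (1 + ‖pe f t‖ ^ 2 / s)) = Real.log (‖h.coeff 0‖ ^ 2 / s) := by
  have hs := P.pos
  have h0 : ‖h.coeff 0‖ ^ 2 ≠ 0 := by
    have := P.nz 0 (by simp)
    rw [← coeff_zero_eq_eval_zero] at this
    positivity
  have h1 : av (fun t => Real.log (1 + ‖pe f t‖ ^ 2 / s)) =
      av (fun t => Real.log (‖pe f t‖ ^ 2 + s) - Real.log s) := by
    refine av_congr fun t => ?_
    rw [← Real.log_div (by positivity) hs.ne']
    congr 1
    field_simp
    ring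
  have hc : Continuous fun t => Real.log (‖pe f t‖ ^ 2 + s) :=
    (((continuous_pe f).norm.pow 2).add continuous_const).log
      (fun t => (add_pos_of_nonneg_of_pos (sq_nonneg _) hs).ne')
  rw [h1, av_sub hc continuous_const, av_const, Real.log_div h0 hs.ne', ← P.logmean]
  rfl

end Pool.Agent.H97.SIM
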