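import Pool.Agent.H97.SIM.Av

/-!
# Polynomials on the unit circle

PROOF. `poly_ext_circle`: the circle is infinite and `p - q` vanishes on it
(`Polynomial.eq_of_infinite_eval_eq`). `eval_reflect_conj`: `Polynomial.eval₂_reflect_mul_pow` with
the invertible element `z`, or write `p = sum over range (N+1)` of its coefficients:
`(reflect N p*).eval z = sum conj (p_j) z^(N - j) = z^N sum conj (p_j) z^(-j)`, `z^(-1) = conj z`.
-/

open Complex MeasureTheory Set Polynomial
open scoped ComplexConjugate Real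

namespace Pool.Agent.H97.SIM

private theorem infinite_circle : Set.Infinite {z : ℂ | ‖z‖ = 1} := by
  have h1 : Set.Infinite (Set.Icc (-1 : ℝ) 1) := Set.Icc_infinite (by norm_num)
  have h2 : Set.InjOn (fun x : ℝ => (x : ℂ) + (Real.sqrt (1 - x ^ 2) : ℂ) * I) (Set.Icc (-1 : ℝ) 1) := by
    intro x _ y _ h
    have := congrArg Complex.re h
    simpa using this
  refine Set.infinite_of_injOn_mapsTo h2 ?_ h1
  intro x hx
  have h3 : 0 ≤ 1 - x ^ 2 := by nlinarith [hx.1, hx.2]
  have h4 : ‖(x : ℂ) + (Real.sqrt (1 - x ^ 2) : ℂ) * I‖ ^ 2 = 1 := by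
    rw [← Complex.normSq_eq_norm_sq, Complex.normSq_add_mul_I, Real.sq_sqrt h3]
    ring
  have h5 : 0 ≤ ‖(x : ℂ) + (Real.sqrt (1 - x ^ 2) : ℂ) * I‖ := norm_nonneg _
  change ‖(x : ℂ) + (Real.sqrt (1 - x ^ 2) : ℂ) * I‖ = 1
  nlinarith

/-- polynomials that agree on the unit circle are equal -/
theorem poly_ext_circle {p q : ℂ[X]} (h : ∀ z : ℂ, ‖z‖ = 1 → p.eval z = q.eval z) : p = q := by
  refine Polynomial.eq_of_infinite_eval_eq p q (infinite_circle.mono ?_)
  intro z hz
  exact h z hz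

/-- on the circle the reflected conjugate polynomial is `z^N * conj (p z)` -/
theorem eval_reflect_conj {p : ℂ[X]} {N : ℕ} (hN : p.natDegree ≤ N) {z : ℂ} (hz : ‖z‖ = 1) :
    ((p.map (starRingEnd ℂ)).reflect N).eval z = z ^ N * conj (p.eval z) := by
  have h0 : z * conj z = 1 := by
    rw [Complex.mul_conj, Complex.normSq_eq_norm_sq, hz]
    norm_num
  have h0' : conj z * z = 1 := by rw [mul_comm]; exact h0
  let _inst : Invertible (conj z) := ⟨z, h0, h0'⟩
  have hdeg : (p.map (starRingEnd ℂ)).natDegree ≤ N :=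
    (Polynomial.natDegree_map_le).trans hN
  have key := Polynomial.eval₂_reflect_mul_pow (RingHom.id ℂ) (conj z) N (p.map (starRingEnd ℂ)) hdeg
  have hinv : ⅟(conj z) = z := rfl
  rw [hinv] at key
  have h1 : Polynomial.eval₂ (RingHom.id ℂ) (conj z) (p.map (starRingEnd ℂ)) = conj (p.eval z) := by
    rw [← Polynomial.eval, Polynomial.eval_map, Polynomial.eval₂_hom]
  have h2 : Polynomial.eval₂ (RingHom.id ℂ) z ((p.map (starRingEnd ℂ)).reflect N)
      = ((p.map (starRingEnd ℂ)).reflect N).eval z := rfl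
  rw [h1, h2] at key
  rw [← key]
  have h3 : z ^ N * (conj z) ^ N = 1 := by rw [← mul_pow, h0, one_pow]
  calc ((p.map (starRingEnd ℂ)).reflect N).eval z
      = ((p.map (starRingEnd ℂ)).reflect N).eval z * (z ^ N * (conj z) ^ N) := by rw [h3, mul_one]
    _ = z ^ N * (((p.map (starRingEnd ℂ)).reflect N).eval z * (conj z) ^ N) := by ring

end Pool.Agent.H97.SIM
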