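import Pool.Agent.H97.SIM.FR

/-!
# Pairs: elementary facts

PROOF. `le`: `f / h` is analytic on a neighbourhood of the closed disc (`h` has no zeros there) and
`|f / h| <= 1` on the circle by `circ`; maximum principle
(`Complex.norm_le_of_forall_mem_frontier_norm_le` on the unit ball).
`lt0`: let `M` be the maximum of `|h|^2` on the circle; there `|f|^2 = |h|^2 - s <=
(1 - s / M) |h|^2`, so `|f / h|^2 <= 1 - s / M < 1` on the circle, hence at `0`.
`deg`: let `D = h.natDegree` and suppose `D > f.natDegree` (so `D >= 1`). By `circ` and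
`eval_reflect_conj` the polynomials `h * (conj h).reflect D` and `f * (conj f).reflect D + C s X^D`
agree on the circle, hence everywhere. Compare coefficients of `X^(2 D)`: on the left
`h_D * conj (h_0)` with `h_D <> 0`, `h_0 = h 0 <> 0`; on the right `f_D * conj (f_0) + 0 = 0`.
(If `D = 0` there is nothing to prove.)
`phase`: clear. `rot`: `|c h - σ f|^2 - |c f - σ h|^2 = (c^2 - σ^2) (|h|^2 - |f|^2) = s`
with `c = cosh T`, `σ = sinh T`; zero-free: `|σ f z| <= |σ| |h z| < c |h z|` by `le`.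
-/

open Complex MeasureTheory Set Polynomial
open scoped ComplexConjugate Real

namespace Pool.Agent.H97.SIM

variable {s : ℝ} {f h : ℂ[X]}

theorem Pair.circ' (P : Pair s f h) {z : ℂ} (hz : ‖z‖ = 1) :
    ‖h.eval z‖ ^ 2 = ‖f.eval z‖ ^ 2 + s := by
  have h1 : e (Complex.arg z) = z := by
    have := Complex.norm_mul_exp_arg_mul_I z
    rw [hz] at this
    simpa [e] using this
  have := P.circ (Complex.arg z)
  rwa [h1] at this

/-- the quotient of a pair on the disc, with a constant -/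
private lemma quot_le (P : Pair s f h) {M : ℝ}
    (hb : ∀ z : ℂ, ‖z‖ = 1 → ‖f.eval z‖ ≤ M * ‖h.eval z‖) {z : ℂ} (hz : ‖z‖ ≤ 1) :
    ‖f.eval z‖ ≤ M * ‖h.eval z‖ := by
  have hne : ∀ w : ℂ, ‖w‖ ≤ 1 → h.eval w ≠ 0 := P.nz
  have hcl : closure (Metric.ball (0:ℂ) 1) = Metric.closedBall 0 1 :=
    closure_ball (0:ℂ) one_ne_zero
  have hd : DiffContOnCl ℂ (fun w => f.eval w / h.eval w) (Metric.ball (0:ℂ) 1) := by
    refine DifferentiableOn.diffContOnCl ?_
    intro w hw
    rw [hcl, mem_closedBall_zero_iff] at hw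
    exact (f.differentiable.differentiableAt.div
      h.differentiable.differentiableAt (hne w hw)).differentiableWithinAt
  have hf : ∀ w ∈ frontier (Metric.ball (0:ℂ) 1), ‖f.eval w / h.eval w‖ ≤ M := by
    intro w hw
    rw [frontier_ball (0:ℂ) one_ne_zero, mem_sphere_zero_iff_norm] at hw
    rw [norm_div, div_le_iff₀ (norm_pos_iff.2 (hne w hw.le))]
    exact hb w hw
  have h1 := Complex.norm_le_of_forall_mem_frontier_norm_le Metric.isBounded_ball hd hf
    (z := z) (by rw [hcl, mem_closedBall_zero_iff]; exact hz)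
  rwa [norm_div, div_le_iff₀ (norm_pos_iff.2 (hne z hz))] at h1

theorem Pair.le (P : Pair s f h) {z : ℂ} (hz : ‖z‖ ≤ 1) : ‖f.eval z‖ ≤ ‖h.eval z‖ := by
  have h1 := quot_le P (M := 1) (fun w hw => by
    have h2 := P.circ' hw
    rw [one_mul]
    have h3 : ‖f.eval w‖ ^ 2 ≤ ‖h.eval w‖ ^ 2 := by linarith [P.pos]
    exact le_of_sq_le_sq h3 (norm_nonneg _)) hz
  rwa [one_mul] at h1

theorem Pair.lt0 (P : Pair s f h) : ‖f.coeff 0‖ < ‖h.coeff 0‖ := by
  have hs := P.pos
  obtain ⟨w0, hw0, hmax⟩ := (isCompact_sphere (0:ℂ) 1).exists_isMaxOn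
    (NormedSpace.sphere_nonempty.2 zero_le_one)
    (h.continuous.norm.continuousOn : ContinuousOn (fun z => ‖h.eval z‖) _)
  rw [mem_sphere_zero_iff_norm] at hw0
  set M := ‖h.eval w0‖ with hMdef
  have hM0 : 0 < M := norm_pos_iff.2 (P.nz w0 hw0.le)
  have hMs : s ≤ M ^ 2 := by
    have := P.circ' hw0
    nlinarith [sq_nonneg ‖f.eval w0‖]
  have hb : ∀ z : ℂ, ‖z‖ = 1 → ‖f.eval z‖ ≤ Real.sqrt (1 - s / M ^ 2) * ‖h.eval z‖ := by
    intro z hz
    have h1 : ‖h.eval z‖ ≤ M := hmax (by rwa [mem_sphere_zero_iff_norm])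
    have h2 := P.circ' hz
    have hM2 : 0 < M ^ 2 := by positivity
    have h3 : 0 ≤ 1 - s / M ^ 2 := by
      rw [sub_nonneg, div_le_one hM2]
      exact hMs
    refine le_of_sq_le_sq ?_ (by positivity)
    rw [mul_pow, Real.sq_sqrt h3]
    have h4 : ‖h.eval z‖ ^ 2 ≤ M ^ 2 := by
      exact pow_le_pow_left₀ (norm_nonneg _) h1 2
    have h5 : s / M ^ 2 * ‖h.eval z‖ ^ 2 ≤ s := by
      rw [div_mul_eq_mul_div, div_le_iff₀ hM2]
      exact mul_le_mul_of_nonneg_left h4 hs.le
    nlinarith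
  have h1 := quot_le P hb (z := 0) (by simp)
  rw [← coeff_zero_eq_eval_zero, ← coeff_zero_eq_eval_zero] at h1
  have h2 : Real.sqrt (1 - s / M ^ 2) < 1 := by
    rw [Real.sqrt_lt' one_pos, one_pow]
    have : 0 < s / M ^ 2 := by positivity
    linarith
  have h3 : 0 < ‖h.coeff 0‖ := by
    rw [coeff_zero_eq_eval_zero]
    exact norm_pos_iff.2 (P.nz 0 (by simp))
  calc ‖f.coeff 0‖ ≤ Real.sqrt (1 - s / M ^ 2) * ‖h.coeff 0‖ := h1
    _ < 1 * ‖h.coeff 0‖ := by
        exact mul_lt_mul_of_pos_right h2 h3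
    _ = ‖h.coeff 0‖ := one_mul _

theorem Pair.deg (P : Pair s f h) : h.natDegree ≤ f.natDegree := by
  by_contra hlt
  rw [not_le] at hlt
  set D := h.natDegree with hD
  have hkey : h * (h.map (starRingEnd ℂ)).reflect D =
      f * (f.map (starRingEnd ℂ)).reflect D + C (s : ℂ) * X ^ D := by
    apply poly_ext_circle
    intro z hz
    rw [eval_add, eval_mul, eval_mul, eval_mul, eval_C, eval_pow, eval_X,
      eval_reflect_conj hD.symm.le hz, eval_reflect_conj hlt.le hz]
    have h1 : h.eval z * conj (h.eval z) = f.eval z * conj (f.eval z) + s := by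
      rw [Complex.mul_conj, Complex.normSq_eq_norm_sq, Complex.mul_conj,
        Complex.normSq_eq_norm_sq, P.circ' hz]
      push_cast
      ring
    linear_combination z ^ D * h1
  have hc : (h * (h.map (starRingEnd ℂ)).reflect D).coeff (D + D) =
      (f * (f.map (starRingEnd ℂ)).reflect D + C (s : ℂ) * X ^ D).coeff (D + D) := by
    rw [hkey]
  have hrdeg : ∀ p : ℂ[X], p.natDegree ≤ D →
      ((p.map (starRingEnd ℂ)).reflect D).natDegree ≤ D := by
    intro p hp
    refine natDegree_reflect_le.trans ?_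
    exact max_le le_rfl (natDegree_map_le.trans hp)
  have h1 : (h * (h.map (starRingEnd ℂ)).reflect D).coeff (D + D) =
      h.coeff D * ((h.map (starRingEnd ℂ)).reflect D).coeff D :=
    coeff_mul_add_eq_of_natDegree_le hD.symm.le (hrdeg h hD.symm.le)
  have h2 : (f * (f.map (starRingEnd ℂ)).reflect D).coeff (D + D) =
      f.coeff D * ((f.map (starRingEnd ℂ)).reflect D).coeff D :=
    coeff_mul_add_eq_of_natDegree_le hlt.le (hrdeg f hlt.le)
  have h3 : f.coeff D = 0 := coeff_eq_zero_of_natDegree_lt hlt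
  have h4 : (C (s : ℂ) * X ^ D).coeff (D + D) = 0 := by
    rw [coeff_C_mul, coeff_X_pow, if_neg (by omega), mul_zero]
  have h5 : ((h.map (starRingEnd ℂ)).reflect D).coeff D = conj (h.coeff 0) := by
    rw [coeff_reflect, revAt_le le_rfl, Nat.sub_self, coeff_map]
  rw [coeff_add, h1, h2, h3, h4, zero_mul, add_zero, h5] at hc
  have h6 : h.coeff D ≠ 0 := by
    rw [hD, coeff_natDegree, leadingCoeff_ne_zero]
    intro h0
    have := P.nz 0 (by simp)
    rw [h0, eval_zero] at this
    exact this rfl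
  have h7 : conj (h.coeff 0) ≠ 0 := by
    rw [Ne, _root_.map_eq_zero, coeff_zero_eq_eval_zero]
    exact P.nz 0 (by simp)
  exact (mul_ne_zero h6 h7) hc

theorem Pair.phase (P : Pair s f h) {w : ℂ} (hw : ‖w‖ = 1) : Pair s f (C w * h) := by
  refine ⟨P.pos, fun t => ?_, fun z hz => ?_⟩
  · rw [eval_mul, eval_C, norm_mul, hw, one_mul]
    exact P.circ t
  · rw [eval_mul, eval_C]
    refine mul_ne_zero ?_ (P.nz z hz)
    intro h0
    rw [h0, norm_zero] at hw
    exact zero_ne_one hw

theorem Pair.rot (P : Pair s f h) (T : ℝ) :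
    Pair s (C (Real.cosh T : ℂ) * f - C (Real.sinh T : ℂ) * h)
      (C (Real.cosh T : ℂ) * h - C (Real.sinh T : ℂ) * f) := by
  refine ⟨P.pos, fun t => ?_, fun z hz => ?_⟩
  · have h1 := P.circ t
    have h2 := Real.cosh_sq T
    rw [eval_sub, eval_sub, eval_mul, eval_mul, eval_mul, eval_mul, eval_C, eval_C]
    rw [← Complex.normSq_eq_norm_sq, ← Complex.normSq_eq_norm_sq] at h1 ⊢
    rw [Complex.normSq_apply] at h1
    rw [Complex.normSq_apply] at h1
    rw [Complex.normSq_apply, Complex.normSq_apply]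
    simp only [sub_re, sub_im, mul_re, mul_im, ofReal_re, ofReal_im, zero_mul, sub_zero, add_zero]
    linear_combination (Real.cosh T ^ 2 - Real.sinh T ^ 2) * h1 + s * h2
  · intro h0
    rw [eval_sub, eval_mul, eval_mul, eval_C, eval_C, sub_eq_zero] at h0
    have h1 := congrArg norm h0
    rw [norm_mul, norm_mul, Complex.norm_real, Complex.norm_real, Real.norm_eq_abs,
      Real.norm_eq_abs, abs_of_pos (Real.cosh_pos T)] at h1
    have h2 := P.le hz
    have h3 : |Real.sinh T| < Real.cosh T := by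
      rw [Real.abs_sinh]
      calc Real.sinh |T| < Real.cosh |T| := Real.sinh_lt_cosh _
        _ = Real.cosh T := Real.cosh_abs T
    have h4 : 0 < ‖h.eval z‖ := norm_pos_iff.2 (P.nz z hz)
    have h5 : |Real.sinh T| * ‖f.eval z‖ ≤ |Real.sinh T| * ‖h.eval z‖ :=
      mul_le_mul_of_nonneg_left h2 (abs_nonneg _)
    have h6 : |Real.sinh T| * ‖h.eval z‖ < Real.cosh T * ‖h.eval z‖ :=
      mul_lt_mul_of_pos_right h3 h4
    linarith

end Pool.Agent.H97.SIM
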