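import Pool.Agent.H97.SIM.FRa

/-!
# Fejer-Riesz factorisation (strictly positive case)

CLAIM `fr d`: let `Q` be a polynomial with `natDegree Q <= 2 d` such that for `|z| = 1` one has
`Q z = z^d * r` with a real `r > 0`. Then there is a polynomial `h` without zeros in the closed
unit disc with `Q z = z^d |h z|^2` for `|z| = 1`.

PROOF by induction on `d`. SELF-RECIPROCITY: put `Q* = (Q with conjugate coefficients).reflect
(2 d)`. For `|z| = 1`: `Q* z = z^(2d) conj (Q z) = z^(2d) conj (z^d) r = z^d r = Q z`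
(`Polynomial.eval₂_reflect_mul_pow` or write the sums; `conj z = 1/z`). The circle is infinite, so
`Q* = Q`: `conj (Q.coeff j) = Q.coeff (2 d - j)` for `j <= 2 d`.
`d = 0`: `Q = C r0` with `r0 > 0`, take `h = C (sqrt r0)`.
`d + 1`: if `Q.coeff 0 = 0` then `Q.coeff (2 d + 2) = 0` and `Q = X * Q1` with
`natDegree Q1 <= 2 d` (in fact `Q1 = Q.divX`, degree at most `2 d + 1 - 1`), and on the circle
`Q1 z = z^d r`; induction. If `Q.coeff 0 <> 0` then the coefficient of index `2 d + 2` is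
`<> 0`, so `Q` has positive degree and a root `a`, `a <> 0`; `|a| <> 1` since `Q z <> 0` on the
circle; and `1 / conj a` is a root (`conj (Q (1 / conj a)) * a^(2d+2) = Q* a = Q a = 0`).
As `a <> 1 / conj a` we may assume `|a| > 1` and `Q = (X - a) (1 - conj a X) Q1` with
`natDegree Q1 <= 2 d`. On the circle `(z - a) (1 - conj a z) = z (z - a) conj (z - a) = z |z-a|^2`,
so `Q1 z = z^d r / |z - a|^2`. By induction `Q1 z = z^d |h1 z|^2` and `h = (X - a) h1` works
(`|a| > 1`: no zero in the closed disc).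
APPLICATION: `d = f.natDegree`, `Q = f * (conj f).reflect d + C s * X^d`; on the circle
`Q z = z^d (|f z|^2 + s)`.
-/

open Complex MeasureTheory Set Polynomial
open scoped ComplexConjugate Real

namespace Pool.Agent.H97.SIM

private theorem fr_self {d : ℕ} {Q : ℂ[X]} (hQ : Q.natDegree ≤ 2 * d)
    (h : ∀ z : ℂ, ‖z‖ = 1 → ∃ r : ℝ, 0 < r ∧ Q.eval z = z ^ d * r) :
    (Q.map (starRingEnd ℂ)).reflect (2 * d) = Q := by
  apply poly_ext_circle
  intro z hz
  obtain ⟨r, hr, hQz⟩ := h z hz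
  rw [eval_reflect_conj hQ hz, hQz, map_mul, map_pow, Complex.conj_ofReal, two_mul, pow_add]
  have hzz : z * conj z = 1 := by
    rw [Complex.mul_conj, Complex.normSq_eq_norm_sq, hz]
    simp
  calc z ^ d * z ^ d * (conj z ^ d * r) = (z * conj z) ^ d * (z ^ d * r) := by
        rw [mul_pow]
        ring
    _ = z ^ d * r := by rw [hzz, one_pow, one_mul]

private theorem fr_root {N : ℕ} {Q : ℂ[X]} (hQ : Q.natDegree ≤ N)
    (hs : (Q.map (starRingEnd ℂ)).reflect N = Q) {a : ℂ} (ha : a ≠ 0) (hr : Q.eval a = 0) :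
    Q.eval (conj a)⁻¹ = 0 := by
  have hca : conj a ≠ 0 := (_root_.map_ne_zero _).2 ha
  let _inst : Invertible (conj a) := invertibleOfNonzero hca
  have h1 := Polynomial.eval₂_reflect_mul_pow (RingHom.id ℂ) (conj a) N
    (Q.map (starRingEnd ℂ)) (natDegree_map_le.trans hQ)
  rw [hs] at h1
  have h2 : eval₂ (RingHom.id ℂ) (conj a) (Q.map (starRingEnd ℂ)) = 0 := by
    rw [eval₂_id, eval_map]
    have h3 := eval₂_at_apply (p := Q) (starRingEnd ℂ) a
    rw [h3, hr, map_zero]
  rw [h2, eval₂_id, invOf_eq_inv] at h1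
  exact (mul_eq_zero.1 h1).resolve_right (pow_ne_zero _ hca)

private theorem fr_factor {Q : ℂ[X]} {a b : ℂ} (hab : a ≠ b) (ha : Q.eval a = 0)
    (hb : Q.eval b = 0) (hQ0 : Q ≠ 0) {n : ℕ} (hQ : Q.natDegree ≤ n + 2) :
    ∃ Q2 : ℂ[X], Q = (X - C a) * ((X - C b) * Q2) ∧ Q2.natDegree ≤ n := by
  obtain ⟨P, hP⟩ := dvd_iff_isRoot.2 (show IsRoot Q a from ha)
  have hb' : P.eval b = 0 := by
    rw [hP, eval_mul, eval_sub, eval_X, eval_C] at hb
    exact (mul_eq_zero.1 hb).resolve_left (sub_ne_zero.2 hab.symm)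
  obtain ⟨Q2, hQ2⟩ := dvd_iff_isRoot.2 (show IsRoot P b from hb')
  refine ⟨Q2, by rw [hP, hQ2], ?_⟩
  have hQ20 : Q2 ≠ 0 := by
    intro h0
    apply hQ0
    rw [hP, hQ2, h0, mul_zero, mul_zero]
  have h1 : Q.natDegree = 1 + (1 + Q2.natDegree) := by
    rw [hP, hQ2, natDegree_mul (X_sub_C_ne_zero a) (mul_ne_zero (X_sub_C_ne_zero b) hQ20),
      natDegree_mul (X_sub_C_ne_zero b) hQ20, natDegree_X_sub_C, natDegree_X_sub_C]
  omega

private theorem fr_outer {d : ℕ} {Q : ℂ[X]} (hQ : Q.natDegree ≤ 2 * (d + 1))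
    (hs : (Q.map (starRingEnd ℂ)).reflect (2 * (d + 1)) = Q) (hQ0 : Q ≠ 0)
    (hc : Q.coeff 0 ≠ 0) (hne : ∀ z : ℂ, ‖z‖ = 1 → Q.eval z ≠ 0) :
    ∃ a : ℂ, 1 < ‖a‖ ∧ Q.eval a = 0 := by
  have h1 : Q.coeff (2 * (d + 1)) ≠ 0 := by
    rw [← hs, coeff_reflect, revAt_le le_rfl, Nat.sub_self, coeff_map]
    exact (_root_.map_ne_zero _).2 hc
  have h2 : 2 * (d + 1) ≤ Q.natDegree := le_natDegree_of_ne_zero h1
  have h3 : 0 < Q.degree := natDegree_pos_iff_degree_pos.1 (by omega)
  obtain ⟨a, ha⟩ := Complex.exists_root h3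
  have ha' : Q.eval a = 0 := ha
  have ha0 : a ≠ 0 := by
    intro h0
    rw [h0, ← coeff_zero_eq_eval_zero] at ha'
    exact hc ha'
  rcases lt_trichotomy ‖a‖ 1 with hlt | heq | hgt
  · refine ⟨(conj a)⁻¹, ?_, fr_root hQ hs ha0 ha'⟩
    rw [norm_inv, RCLike.norm_conj]
    exact (one_lt_inv₀ (norm_pos_iff.2 ha0)).2 hlt
  · exact absurd ha' (hne a heq)
  · exact ⟨a, hgt, ha'⟩

theorem fr (d : ℕ) : ∀ Q : ℂ[X], Q.natDegree ≤ 2 * d →
    (∀ z : ℂ, ‖z‖ = 1 → ∃ r : ℝ, 0 < r ∧ Q.eval z = z ^ d * r) →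
    ∃ h : ℂ[X], (∀ z : ℂ, ‖z‖ ≤ 1 → h.eval z ≠ 0) ∧
      ∀ z : ℂ, ‖z‖ = 1 → Q.eval z = z ^ d * ((‖h.eval z‖ ^ 2 : ℝ) : ℂ) := by
  induction d with
  | zero =>
    intro Q hQ h
    obtain ⟨r, hr, h1⟩ := h 1 (by simp)
    have h2 : Q = C (Q.coeff 0) := eq_C_of_natDegree_le_zero (by simpa using hQ)
    have hQc : Q = C (r : ℂ) := by
      rw [h2, eval_C, pow_zero, one_mul] at h1
      rw [h2, h1]
    refine ⟨C ((Real.sqrt r : ℝ) : ℂ), fun z _ => ?_, fun z _ => ?_⟩
    · rw [eval_C]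
      exact_mod_cast (Real.sqrt_pos.2 hr).ne'
    · rw [hQc, eval_C, eval_C, Complex.norm_real, Real.norm_of_nonneg (Real.sqrt_nonneg _),
        Real.sq_sqrt hr.le, pow_zero, one_mul]
  | succ d ih =>
    intro Q hQ h
    have hself := fr_self hQ h
    have hne : ∀ z : ℂ, ‖z‖ = 1 → Q.eval z ≠ 0 := by
      intro z hz
      obtain ⟨r, hr, h1⟩ := h z hz
      rw [h1]
      have hz0 : z ≠ 0 := by
        intro h0
        rw [h0, norm_zero] at hz
        exact zero_ne_one hz
      exact mul_ne_zero (pow_ne_zero _ hz0) (by exact_mod_cast hr.ne')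
    have hQ0 : Q ≠ 0 := by
      intro h0
      exact hne 1 (by simp) (by rw [h0, eval_zero])
    by_cases hc : Q.coeff 0 = 0
    · have hdeg : Q.natDegree ≤ 2 * d + 1 := by
        have h1 : Q.coeff (2 * (d + 1)) = 0 := by
          rw [← hself, coeff_reflect, revAt_le le_rfl, Nat.sub_self, coeff_map, hc, map_zero]
        by_contra hcon
        have h2 : Q.natDegree = 2 * (d + 1) := by omega
        have h3 : Q.leadingCoeff = 0 := by
          unfold leadingCoeff
          rw [h2]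
          exact h1
        exact hQ0 (leadingCoeff_eq_zero.1 h3)
      have hX : X * Q.divX = Q := by
        have h1 := X_mul_divX_add Q
        rw [hc, C_0, add_zero] at h1
        exact h1
      obtain ⟨h1, hh1, hh2⟩ := ih Q.divX (by
        rw [natDegree_divX_eq_natDegree_tsub_one]
        omega) (by
        intro z hz
        obtain ⟨r, hr, h2⟩ := h z hz
        refine ⟨r, hr, ?_⟩
        have hz0 : z ≠ 0 := by
          intro h0
          rw [h0, norm_zero] at hz
          exact zero_ne_one hz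
        rw [← hX, eval_mul, eval_X, pow_succ'] at h2
        exact mul_left_cancel₀ hz0 (by rw [h2]; ring))
      refine ⟨h1, hh1, fun z hz => ?_⟩
      rw [← hX, eval_mul, eval_X, hh2 z hz, pow_succ']
      ring
    · obtain ⟨a, ha1, har⟩ := fr_outer hQ hself hQ0 hc hne
      have ha0 : a ≠ 0 := by
        intro h0
        rw [h0, norm_zero] at ha1
        linarith
      have hca : conj a ≠ 0 := (_root_.map_ne_zero _).2 ha0
      have hb := fr_root hQ hself ha0 har
      have hab : a ≠ (conj a)⁻¹ := by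
        intro h0
        have h1 : ‖a‖ = ‖a‖⁻¹ := by
          conv_lhs => rw [h0]
          rw [norm_inv, RCLike.norm_conj]
        have h2 : ‖a‖⁻¹ < 1 := inv_lt_one_of_one_lt₀ ha1
        linarith
      obtain ⟨Q2, hQ2, hd2⟩ := fr_factor (n := 2 * d) hab har hb hQ0 (by omega)
      have hcirc : ∀ z : ℂ, ‖z‖ = 1 →
          Q.eval z = z * ((‖z - a‖ ^ 2 : ℝ) : ℂ) * (C (-(conj a)⁻¹) * Q2).eval z := by
        intro z hz
        have hzz : z * conj z = 1 := by
          rw [Complex.mul_conj, Complex.normSq_eq_norm_sq, hz]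
          simp
        have h3 : ((‖z - a‖ ^ 2 : ℝ) : ℂ) = (z - a) * (conj z - conj a) := by
          rw [← map_sub, Complex.mul_conj, Complex.normSq_eq_norm_sq]
        rw [h3]
        conv_lhs => rw [hQ2]
        rw [eval_mul, eval_mul, eval_mul, eval_sub, eval_sub, eval_X, eval_C, eval_C, eval_C]
        have h4 : z * ((z - a) * (conj z - conj a)) * (-(conj a)⁻¹) =
            (z - a) * (z - (conj a)⁻¹) := by
          have h5 : z * ((z - a) * (conj z - conj a)) = (z - a) * (z * conj z - z * conj a) := by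
            ring
          rw [h5, hzz]
          field_simp
          ring
        rw [← mul_assoc, ← mul_assoc, h4]
      obtain ⟨h1, hh1, hh2⟩ := ih (C (-(conj a)⁻¹) * Q2)
        ((natDegree_C_mul_le _ _).trans hd2) (by
        intro z hz
        obtain ⟨r, hr, h2⟩ := h z hz
        have hz0 : z ≠ 0 := by
          intro h0
          rw [h0, norm_zero] at hz
          exact zero_ne_one hz
        have hza : z - a ≠ 0 := by
          intro h0
          rw [sub_eq_zero.1 h0] at hz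
          linarith
        have hpos : 0 < ‖z - a‖ ^ 2 := by positivity
        refine ⟨r / ‖z - a‖ ^ 2, by positivity, ?_⟩
        have h3 := hcirc z hz
        rw [h2] at h3
        have hposC : ((‖z - a‖ ^ 2 : ℝ) : ℂ) ≠ 0 := by exact_mod_cast hpos.ne'
        have h4 : z * ((‖z - a‖ ^ 2 : ℝ) : ℂ) ≠ 0 := mul_ne_zero hz0 hposC
        refine mul_left_cancel₀ h4 ?_
        rw [← h3, Complex.ofReal_div]
        field_simp
        ring)
      refine ⟨(X - C a) * h1, fun z hz => ?_, fun z hz => ?_⟩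
      · rw [eval_mul, eval_sub, eval_X, eval_C]
        refine mul_ne_zero ?_ (hh1 z hz)
        intro h0
        rw [sub_eq_zero.1 h0] at hz
        linarith
      · rw [hcirc z hz, hh2 z hz, eval_mul, eval_sub, eval_X, eval_C, norm_mul, mul_pow]
        push_cast
        ring

theorem exists_pair (f : ℂ[X]) {s : ℝ} (hs : 0 < s) : ∃ h : ℂ[X], Pair s f h := by
  set d := f.natDegree with hd
  have hrn : ((f.map (starRingEnd ℂ)).reflect d).natDegree ≤ d := by
    refine natDegree_reflect_le.trans ?_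
    exact max_le le_rfl (natDegree_map_le.trans le_rfl)
  have hev : ∀ z : ℂ, ‖z‖ = 1 →
      (f * (f.map (starRingEnd ℂ)).reflect d + C (s : ℂ) * X ^ d).eval z =
        z ^ d * ((‖f.eval z‖ ^ 2 + s : ℝ) : ℂ) := by
    intro z hz
    rw [eval_add, eval_mul, eval_mul, eval_C, eval_pow, eval_X, eval_reflect_conj le_rfl hz]
    have h1 : ((‖f.eval z‖ ^ 2 : ℝ) : ℂ) = f.eval z * conj (f.eval z) := by
      rw [Complex.mul_conj, Complex.normSq_eq_norm_sq]
    rw [Complex.ofReal_add, h1]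
    ring
  obtain ⟨h, hh1, hh2⟩ := fr d (f * (f.map (starRingEnd ℂ)).reflect d + C (s : ℂ) * X ^ d) (by
    refine (natDegree_add_le _ _).trans (max_le ?_ ?_)
    · refine natDegree_mul_le.trans ?_
      omega
    · refine (natDegree_C_mul_X_pow_le _ _).trans ?_
      omega) (fun z hz => ⟨‖f.eval z‖ ^ 2 + s, by positivity, hev z hz⟩)
  refine ⟨h, hs, fun t => ?_, hh1⟩
  have h1 := hh2 (e t) (norm_e t)
  rw [hev (e t) (norm_e t)] at h1
  have h0 : (e t) ^ d ≠ 0 := by
    refine pow_ne_zero _ ?_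
    intro h0
    have := norm_e t
    rw [h0, norm_zero] at this
    exact zero_ne_one this
  have h2 := mul_left_cancel₀ h0 h1
  exact_mod_cast h2.symm

end Pool.Agent.H97.SIM
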