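import Pool.Agent.H97.SIM.Phi
import Pool.Agent.H97.SIM.Av

/-!
# Derivative of `av phi (|g_x|^2 / sig K x)` in `x`

PROOF. Differentiate under the integral sign (everything is continuous in `(x, t)` on a compact
neighbourhood of `{x} x [-pi, pi]`): with `y = |g|^2 / sg`, `sg = sig K x`,
`d_x g = k / x`, `x sg' / sg = 4 K x^4 / (K x^4 - 1) = 4 / (1 - q)`, `q = 1 / (K x^4)`:
`x d_x phi y = (1 - l1 y) (2 Re (conj g k) / sg - y * 4 / (1 - q))`, and
`l1 y / sg * Re (conj g k)` is the integrand of `Ig`, `(1 - l1 y) y = y - log (1 + y)`,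
`log (1 + y) = log (|g|^2 + sg) - log sg`.
(`phi` is differentiable at every `y >= 0` only through `phi_hasDerivAt`, which is a two-sided
derivative, so the chain rule applies.)
-/

open Complex MeasureTheory Set Filter Topology
open scoped ComplexConjugate Real

namespace Pool.Agent.H97.SIM

/-- the value of the derivative -/
noncomputable def evD (K x : ℝ) (g k : ℝ → ℂ) : ℝ :=
  (1 / x) * ((2 / sig K x) * av (fun t => (conj (g t) * k t).re) - 2 * Ig (sig K x) g k -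
    (4 / (1 - 1 / (K * x ^ 4))) * (av (fun t => ‖g t‖ ^ 2) / sig K x - Lg (sig K x) g +
      Real.log (sig K x)))

theorem sig_pos {K x : ℝ} (hK : 1 < K) (hx : 1 < K * x ^ 4) : 0 < sig K x := by
  have h1 : 0 < 1 - 1 / K := by
    rw [sub_pos, div_lt_one (by linarith)]
    exact hK
  have h2 : 0 < K * x ^ 4 - 1 := by linarith
  exact mul_pos h1 h2

/-- the derivative of the integrand -/
private noncomputable def evF (K : ℝ) (g k : ℝ → ℝ → ℂ) (y t : ℝ) : ℝ :=
  (1 - l1 (‖g y t‖ ^ 2 / sig K y)) *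
    (((2 * (k y t / y * conj (g y t)).re) * sig K y -
      ‖g y t‖ ^ 2 * ((1 - 1 / K) * (K * (4 * y ^ 3)))) / (sig K y) ^ 2)

private theorem evF_hasDerivAt {g k : ℝ → ℝ → ℂ} {K y t : ℝ} (hs : 0 < sig K y)
    (hd : HasDerivAt (fun z => g z t) (k y t / y) y) :
    HasDerivAt (fun z => phi (‖g z t‖ ^ 2 / sig K z)) (evF K g k y t) y := by
  have h1 : HasDerivAt (fun z => ‖g z t‖ ^ 2) (2 * (k y t / y * conj (g y t)).re) y := by
    have h2 := hd.norm_sq
    rw [Complex.inner] at h2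
    exact h2
  have h3 : HasDerivAt (fun z => sig K z) ((1 - 1 / K) * (K * (4 * y ^ 3))) y := by
    have h4 : HasDerivAt (fun z : ℝ => z ^ 4) (4 * y ^ 3) y := by
      have h5 := hasDerivAt_pow 4 y
      simpa using h5
    exact ((h4.const_mul K).sub_const 1).const_mul (1 - 1 / K)
  have h6 := h1.div h3 hs.ne'
  have h7 : HasDerivAt phi (1 - l1 (‖g y t‖ ^ 2 / sig K y)) (‖g y t‖ ^ 2 / sig K y) :=
    phi_hasDerivAt (by positivity)
  exact h7.comp y h6

private theorem evF_contOn {g k : ℝ → ℝ → ℂ} {K x0 x1 : ℝ} (hK : 1 < K) (hx0 : 0 < x0)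
    (hKx : 1 < K * x0 ^ 4)
    (cg : ContinuousOn (fun p : ℝ × ℝ => g p.1 p.2) (Ioo x0 x1 ×ˢ univ))
    (ck : ContinuousOn (fun p : ℝ × ℝ => k p.1 p.2) (Ioo x0 x1 ×ˢ univ)) :
    ContinuousOn (fun p : ℝ × ℝ => evF K g k p.1 p.2) (Ioo x0 x1 ×ˢ univ) ∧
    ContinuousOn (fun p : ℝ × ℝ => phi (‖g p.1 p.2‖ ^ 2 / sig K p.1)) (Ioo x0 x1 ×ˢ univ) := by
  have hsig : ∀ y ∈ Ioo x0 x1, 0 < sig K y := by
    intro y hy
    apply sig_pos hK
    have h1 : x0 ^ 4 ≤ y ^ 4 := pow_le_pow_left₀ hx0.le hy.1.le 4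
    have h2 : K * x0 ^ 4 ≤ K * y ^ 4 := mul_le_mul_of_nonneg_left h1 (by linarith)
    linarith
  have csig : ContinuousOn (fun p : ℝ × ℝ => sig K p.1) (Ioo x0 x1 ×ˢ univ) := by
    unfold sig
    fun_prop
  have c1 : ContinuousOn (fun p : ℝ × ℝ => (p.1 : ℂ)) (Ioo x0 x1 ×ˢ univ) := by
    fun_prop
  have cN : ContinuousOn (fun p : ℝ × ℝ => ‖g p.1 p.2‖ ^ 2) (Ioo x0 x1 ×ˢ univ) := cg.norm.pow 2
  have cY : ContinuousOn (fun p : ℝ × ℝ => ‖g p.1 p.2‖ ^ 2 / sig K p.1) (Ioo x0 x1 ×ˢ univ) :=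
    cN.div csig (fun p hp => (hsig p.1 hp.1).ne')
  have hY0 : ∀ p ∈ Ioo x0 x1 ×ˢ (univ : Set ℝ), 0 ≤ ‖g p.1 p.2‖ ^ 2 / sig K p.1 := by
    intro p hp
    exact div_nonneg (by positivity) (hsig p.1 hp.1).le
  have cl : ContinuousOn (fun p : ℝ × ℝ => l1 (‖g p.1 p.2‖ ^ 2 / sig K p.1))
      (Ioo x0 x1 ×ˢ univ) :=
    l1_contOn.comp cY (fun p hp => by
      have := hY0 p hp
      show -1 < ‖g p.1 p.2‖ ^ 2 / sig K p.1
      linarith)
  have cP : ContinuousOn (fun p : ℝ × ℝ => phi (‖g p.1 p.2‖ ^ 2 / sig K p.1))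
      (Ioo x0 x1 ×ˢ univ) :=
    phi_contOn.comp cY (fun p hp => hY0 p hp)
  refine ⟨?_, cP⟩
  have ckg : ContinuousOn (fun p : ℝ × ℝ => (k p.1 p.2 / (p.1 : ℂ) * conj (g p.1 p.2)).re)
      (Ioo x0 x1 ×ˢ univ) := by
    have c2 : ContinuousOn (fun p : ℝ × ℝ => k p.1 p.2 / (p.1 : ℂ)) (Ioo x0 x1 ×ˢ univ) :=
      ck.div c1 (fun p hp => by
        have h1 : 0 < p.1 := hx0.trans hp.1.1
        exact_mod_cast h1.ne')
    have c3 : ContinuousOn (fun p : ℝ × ℝ => conj (g p.1 p.2)) (Ioo x0 x1 ×ˢ univ) :=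
      Complex.continuous_conj.comp_continuousOn cg
    exact Complex.continuous_re.comp_continuousOn (c2.mul c3)
  have cnum : ContinuousOn (fun p : ℝ × ℝ =>
      (2 * (k p.1 p.2 / (p.1 : ℂ) * conj (g p.1 p.2)).re) * sig K p.1 -
      ‖g p.1 p.2‖ ^ 2 * ((1 - 1 / K) * (K * (4 * p.1 ^ 3)))) (Ioo x0 x1 ×ˢ univ) := by
    refine ((ckg.const_smul (2:ℝ)).mul csig).sub (cN.mul ?_)
    fun_prop
  exact (continuousOn_const.sub cl).mul (cnum.div (csig.pow 2) (fun p hp =>
    pow_ne_zero 2 (hsig p.1 hp.1).ne'))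

private theorem evF_eq {g k : ℝ → ℝ → ℂ} {K x t : ℝ} (hK : 1 < K) (hx0 : 0 < x)
    (hKx : 1 < K * x ^ 4) :
    evF K g k x t = (1 / x) * ((2 / sig K x) * (conj (g x t) * k x t).re -
      2 * (l1 (‖g x t‖ ^ 2 / sig K x) / sig K x * (conj (g x t) * k x t).re) -
      (4 / (1 - 1 / (K * x ^ 4))) * (‖g x t‖ ^ 2 / sig K x - Real.log (‖g x t‖ ^ 2 + sig K x) +
      Real.log (sig K x))) := by
  have hs : 0 < sig K x := sig_pos hK hKx
  have hlog : Real.log (‖g x t‖ ^ 2 + sig K x) =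
      Real.log (sig K x) + (‖g x t‖ ^ 2 / sig K x) * l1 (‖g x t‖ ^ 2 / sig K x) := by
    rw [l1_mul, ← Real.log_mul hs.ne' (by positivity)]
    congr 1
    field_simp
    ring
  have hre : (k x t / x * conj (g x t)).re = (conj (g x t) * k x t).re / x := by
    have h1 : k x t / x * conj (g x t) = (conj (g x t) * k x t) / (x : ℂ) := by ring
    rw [h1, Complex.div_ofReal_re]
  rw [hlog]
  unfold evF
  rw [hre]
  set R : ℝ := (conj (g x t) * k x t).re
  set N : ℝ := ‖g x t‖ ^ 2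
  set l : ℝ := l1 (N / sig K x)
  have hK0 : 0 < K := by linarith
  have hq : K * x ^ 4 - 1 ≠ 0 := by
    have : 0 < K * x ^ 4 - 1 := by linarith
    exact this.ne'
  have hsv : sig K x = (1 - 1 / K) * (K * x ^ 4 - 1) := rfl
  have h1K : (1 - 1 / K) ≠ 0 := by
    intro h
    rw [hsv, h, zero_mul] at hs
    exact lt_irrefl _ hs
  have hqq : 4 / (1 - 1 / (K * x ^ 4)) = 4 * (K * x ^ 4) / (K * x ^ 4 - 1) := by
    have h2 : 1 - 1 / (K * x ^ 4) = (K * x ^ 4 - 1) / (K * x ^ 4) := by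
      field_simp
    rw [h2]
    field_simp
  have hds : (1 - 1 / K) * (K * (4 * x ^ 3)) = sig K x * (4 * (K * x ^ 4) / (K * x ^ 4 - 1)) / x := by
    rw [hsv]
    field_simp
  rw [hqq, hds]
  set C : ℝ := 4 * (K * x ^ 4) / (K * x ^ 4 - 1)
  clear_value C R N l
  clear hqq hds hsv hlog hre
  have hs' := hs.ne'
  have hx' := hx0.ne'
  field_simp
  ring

theorem evo_deriv {g k : ℝ → ℝ → ℂ} {K x0 x1 : ℝ} (hK : 1 < K) (hx0 : 0 < x0)
    (hKx : 1 < K * x0 ^ 4)
    (hd : ∀ x ∈ Ioo x0 x1, ∀ t, HasDerivAt (fun y => g y t) (k x t / x) x)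
    (cg : ContinuousOn (fun p : ℝ × ℝ => g p.1 p.2) (Ioo x0 x1 ×ˢ univ))
    (ck : ContinuousOn (fun p : ℝ × ℝ => k p.1 p.2) (Ioo x0 x1 ×ˢ univ)) {x : ℝ}
    (hx : x ∈ Ioo x0 x1) :
    HasDerivAt (fun y => av fun t => phi (‖g y t‖ ^ 2 / sig K y)) (evD K x (g x) (k x)) x := by
  have hsig : ∀ y ∈ Ioo x0 x1, 0 < sig K y ∧ 1 < K * y ^ 4 := by
    intro y hy
    have h1 : x0 ^ 4 ≤ y ^ 4 := pow_le_pow_left₀ hx0.le hy.1.le 4
    have h2 : K * x0 ^ 4 ≤ K * y ^ 4 := mul_le_mul_of_nonneg_left h1 (by linarith)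
    exact ⟨sig_pos hK (by linarith), by linarith⟩
  obtain ⟨cF, cP⟩ := evF_contOn hK hx0 hKx cg ck
  have hxpos : 0 < x := hx0.trans hx.1
  obtain ⟨δ, hδ, hball⟩ : ∃ δ > 0, Icc (x - δ) (x + δ) ⊆ Ioo x0 x1 := by
    refine ⟨min ((x - x0) / 2) ((x1 - x) / 2), ?_, ?_⟩
    · exact lt_min (by linarith [hx.1]) (by linarith [hx.2])
    · intro y hy
      have h1 := min_le_left ((x - x0) / 2) ((x1 - x) / 2)
      have h2 := min_le_right ((x - x0) / 2) ((x1 - x) / 2)
      exact ⟨by linarith [hy.1, hx.1], by linarith [hy.2, hx.2]⟩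
  have hcomp : IsCompact (Icc (x - δ) (x + δ) ×ˢ Icc (-π) π) := isCompact_Icc.prod isCompact_Icc
  obtain ⟨C, hC⟩ := hcomp.exists_bound_of_continuousOn
    (cF.mono (fun p hp => ⟨hball hp.1, mem_univ _⟩) :
      ContinuousOn (fun p : ℝ × ℝ => evF K g k p.1 p.2) (Icc (x - δ) (x + δ) ×ˢ Icc (-π) π))
  have hnh : Icc (x - δ) (x + δ) ∈ 𝓝 x := Icc_mem_nhds (by linarith) (by linarith)
  have hcontP : ∀ y ∈ Ioo x0 x1, Continuous (fun t => phi (‖g y t‖ ^ 2 / sig K y)) := by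
    intro y hy
    exact cP.comp_continuous (f := fun t : ℝ => ((y, t) : ℝ × ℝ)) (by fun_prop)
      (fun t => ⟨hy, mem_univ _⟩)
  have hcontF : ∀ y ∈ Ioo x0 x1, Continuous (fun t => evF K g k y t) := by
    intro y hy
    exact cF.comp_continuous (f := fun t : ℝ => ((y, t) : ℝ × ℝ)) (by fun_prop)
      (fun t => ⟨hy, mem_univ _⟩)
  have hmain := intervalIntegral.hasDerivAt_integral_of_dominated_loc_of_deriv_le
    (μ := volume) (a := -π) (b := π)
    (F := fun y t => phi (‖g y t‖ ^ 2 / sig K y)) (F' := fun y t => evF K g k y t)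
    (x₀ := x) (s := Icc (x - δ) (x + δ)) (bound := fun _ => C) hnh
    (Filter.eventually_of_mem hnh (fun y hy =>
      (hcontP y (hball hy)).aestronglyMeasurable))
    ((hcontP x hx).intervalIntegrable _ _)
    ((hcontF x hx).aestronglyMeasurable)
    (Filter.Eventually.of_forall (fun t ht y hy => by
      have hle : -π ≤ π := by linarith [Real.pi_pos]
      rw [uIoc_of_le hle] at ht
      exact hC (y, t) ⟨hy, ht.1.le, ht.2⟩))
    (continuous_const.intervalIntegrable _ _)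
    (Filter.Eventually.of_forall (fun t _ y hy =>
      evF_hasDerivAt (hsig y (hball hy)).1 (hd y (hball hy) t)))
  have h1 : HasDerivAt (fun y => av fun t => phi (‖g y t‖ ^ 2 / sig K y))
      (av (fun t => evF K g k x t)) x := by
    unfold av
    exact hmain.2.const_mul _
  have hval : av (fun t => evF K g k x t) = evD K x (g x) (k x) := by
    have hKx' := (hsig x hx).2
    have hs := (hsig x hx).1
    have cgx : Continuous (g x) := cg.comp_continuous (f := fun t : ℝ => ((x, t) : ℝ × ℝ))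
      (by fun_prop) (fun t => ⟨hx, mem_univ _⟩)
    have ckx : Continuous (k x) := ck.comp_continuous (f := fun t : ℝ => ((x, t) : ℝ × ℝ))
      (by fun_prop) (fun t => ⟨hx, mem_univ _⟩)
    have cR : Continuous (fun t => (conj (g x t) * k x t).re) :=
      Complex.continuous_re.comp ((Complex.continuous_conj.comp cgx).mul ckx)
    have cNx : Continuous (fun t => ‖g x t‖ ^ 2) := cgx.norm.pow 2
    have cYx : Continuous (fun t => ‖g x t‖ ^ 2 / sig K x) := cNx.div_const _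
    have clx : Continuous (fun t => l1 (‖g x t‖ ^ 2 / sig K x)) :=
      l1_contOn.comp_continuous cYx (fun t => by
        have : 0 ≤ ‖g x t‖ ^ 2 / sig K x := div_nonneg (by positivity) hs.le
        show -1 < ‖g x t‖ ^ 2 / sig K x
        linarith)
    have cLg : Continuous (fun t => Real.log (‖g x t‖ ^ 2 + sig K x)) :=
      (cNx.add continuous_const).log (fun t => (add_pos_of_nonneg_of_pos (by positivity) hs).ne')
    have hfun : (fun t => evF K g k x t) = fun t =>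
        (1 / x) * (((2 / sig K x) * (conj (g x t) * k x t).re -
          2 * (l1 (‖g x t‖ ^ 2 / sig K x) / sig K x * (conj (g x t) * k x t).re)) -
          (4 / (1 - 1 / (K * x ^ 4))) * ((‖g x t‖ ^ 2 / sig K x -
            Real.log (‖g x t‖ ^ 2 + sig K x)) + Real.log (sig K x))) := by
      funext t
      rw [evF_eq hK hxpos hKx']
    have cT2 : Continuous (fun t =>
        l1 (‖g x t‖ ^ 2 / sig K x) / sig K x * (conj (g x t) * k x t).re) :=
      (clx.div_const _).mul cR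
    have hdiv : av (fun t => ‖g x t‖ ^ 2 / sig K x) = av (fun t => ‖g x t‖ ^ 2) / sig K x := by
      have h2 : (fun t => ‖g x t‖ ^ 2 / sig K x) = fun t => (sig K x)⁻¹ * ‖g x t‖ ^ 2 := by
        funext t
        rw [div_eq_inv_mul]
      rw [h2, av_mul_const, div_eq_inv_mul]
    have c1 : Continuous (fun t => (2 / sig K x) * (conj (g x t) * k x t).re) :=
      continuous_const.mul cR
    have c2 : Continuous (fun t =>
        2 * (l1 (‖g x t‖ ^ 2 / sig K x) / sig K x * (conj (g x t) * k x t).re)) :=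
      continuous_const.mul cT2
    have c3 : Continuous (fun t => ‖g x t‖ ^ 2 / sig K x -
        Real.log (‖g x t‖ ^ 2 + sig K x)) := cYx.sub cLg
    have c4 : Continuous (fun t => (‖g x t‖ ^ 2 / sig K x -
        Real.log (‖g x t‖ ^ 2 + sig K x)) + Real.log (sig K x)) := c3.add continuous_const
    have c5 : Continuous (fun t => (4 / (1 - 1 / (K * x ^ 4))) * ((‖g x t‖ ^ 2 / sig K x -
        Real.log (‖g x t‖ ^ 2 + sig K x)) + Real.log (sig K x))) := continuous_const.mul c4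
    have c6 : Continuous (fun t => (2 / sig K x) * (conj (g x t) * k x t).re -
        2 * (l1 (‖g x t‖ ^ 2 / sig K x) / sig K x * (conj (g x t) * k x t).re)) := c1.sub c2
    rw [hfun, av_mul_const, av_sub c6 c5, av_sub c1 c2,
      av_mul_const, av_mul_const, av_mul_const, av_add c3 continuous_const,
      av_sub cYx cLg, av_const, hdiv]
    rfl
  rw [← hval]
  exact h1

end Pool.Agent.H97.SIM
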