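import Pool.Agent.H97.SIM.MomA
import Pool.Agent.H97.SIM.JEq
import Pool.Agent.H15.Sig.Final

/-!
# Integral means through `S`

PROOF. `mean_S`: `integralMean_eq`; with `x = 1/r` and `F (r e^(it)) = S(u) / u`,
`u = x e^(-it)` (`IsSig.norm_circle`), `|F (r e^(it))|^lam = r^lam |S (x e (-t))|^lam`; substitute
`t -> -t` (`av_neg`). `mean_J`: the same for `z + 1/z` (`z + 1/z = z (1 + u^2)`).
-/

open Complex MeasureTheory Set Filter Topology
open scoped ComplexConjugate Real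

namespace Pool.Agent.H97.SIM

open Pool.Agent.H15.Sig

variable {F : ℂ → ℂ} {b : ℕ → ℂ}

private theorem mean_aux {G : ℂ → ℂ} {g : ℝ → ℂ} {lam r : ℝ} (hr : 1 < r)
    (h : ∀ t : ℝ, ‖G (r * exp (t * I))‖ = r * ‖g (-t)‖) :
    integralMean lam r G = (r ^ lam * av (fun t => ‖g t‖ ^ lam)) ^ (1 / lam) := by
  have hr0 : 0 < r := by linarith
  rw [integralMean_eq, ← av_neg (fun t => ‖g t‖ ^ lam), ← av_mul_const]
  congr 1
  unfold av
  congr 1
  apply intervalIntegral.integral_congr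
  intro t _
  simp only
  rw [h, Real.mul_rpow hr0.le (norm_nonneg _)]

theorem mean_S (h : IsSig F b) {lam r : ℝ} (hl : 0 < lam) (hr : 1 < r) :
    integralMean lam r F = (r ^ lam * av (fun t => ‖sx b r⁻¹ t‖ ^ lam)) ^ (1 / lam) := by
  have hr0 : 0 < r := by linarith
  apply mean_aux hr
  intro t
  have h1 := h.norm_circle (x := r⁻¹) (inv_pos.2 hr0) (inv_lt_one_of_one_lt₀ hr) t
  rw [inv_inv, ec_eq] at h1
  exact h1

theorem mean_J {lam r : ℝ} (hl : 0 < lam) (hr : 1 < r) :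
    integralMean lam r (fun z => z + z⁻¹) =
      (r ^ lam * av (fun t => ‖gJ r⁻¹ t‖ ^ lam)) ^ (1 / lam) := by
  have hr0 : 0 < r := by linarith
  apply mean_aux hr
  intro t
  have hz : (r : ℂ) * exp (t * I) ≠ 0 :=
    mul_ne_zero (ofReal_ne_zero.2 hr0.ne') (exp_ne_zero _)
  have hn : ‖(r : ℂ) * exp (t * I)‖ = r := by
    rw [norm_mul, norm_exp_ofReal_mul_I, mul_one, norm_real, Real.norm_eq_abs, abs_of_pos hr0]
  have hu : ((r⁻¹ : ℝ) : ℂ) * e (-t) = ((r : ℂ) * exp (t * I))⁻¹ := by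
    unfold e
    rw [mul_inv, ← exp_neg, ofReal_inv]
    congr 2
    push_cast
    ring
  have h1 : (r : ℂ) * exp (t * I) + ((r : ℂ) * exp (t * I))⁻¹ =
      ((r : ℂ) * exp (t * I)) * gJ r⁻¹ (-t) := by
    unfold gJ
    rw [hu]
    generalize (r : ℂ) * exp (t * I) = z at hz
    field_simp
  rw [h1, norm_mul, hn]

end Pool.Agent.H97.SIM
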