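import Pool.Agent.H97.SIM.Pow
import Pool.Agent.H97.SIM.Four
import Pool.Agent.H97.SIM.FinA

/-!
# The final theorem

PROOF. `mean_S`: `integralMean_eq`; with `x = 1/r` and `F (r e^(it)) = S(u) / u`,
`u = x e^(-it)` (`IsSig.norm_circle`), `|F (r e^(it))|^lam = r^lam |S (x e (-t))|^lam`; substitute
`t -> -t` (`av_neg`). `mean_J`: the same for `z + 1/z` (`z + 1/z = z (1 + u^2)`).
`fin_le`: `lam = 2`: `av_sx_sq`, `mx_le`, `J_sq`; `2 < lam < 4`: `pow_ineq` with `p = lam / 2`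
(`(y^2)^p = y^lam` for `y >= 0`); `lam = 4`: `four_le`. Then `t -> t^(1/lam)` is monotone.
`fin_lt` (if `|b_1| < 1`): `mx_lt`, `pow_ineq_strict`, `four_strict`.
`fin`: greatest element by `classSigma_J`. Equality: if `|b_1| < 1` the mean is strictly smaller;
otherwise `IsSig.eq_of_norm_one` (file `H15/Sig/Final.lean`) gives `F z = z + c / z`;
conversely `integralMean_rotJ`.
-/

open Complex MeasureTheory Set Filter Topology
open scoped ComplexConjugate Real

namespace Pool.Agent.H97.SIM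

open Pool.Agent.H15.Sig

variable {F : ℂ → ℂ} {b : ℕ → ℂ}

private lemma rpow_sq {y : ℝ} (hy : 0 ≤ y) (lam : ℝ) : (y ^ 2) ^ (lam / 2) = y ^ lam := by
  rw [← Real.rpow_natCast, ← Real.rpow_mul hy]
  congr 1
  push_cast
  ring

/-- the comparison of the moments of `S` and of `1 + u^2` -/
private lemma mom_le (h : IsSig F b) {lam X : ℝ} (h2 : 2 ≤ lam) (h4 : lam ≤ 4) (hX0 : 0 < X)
    (hX : X < 1) : av (fun t => ‖sx b X t‖ ^ lam) ≤ av (fun t => ‖gJ X t‖ ^ lam) := by
  rcases eq_or_lt_of_le h2 with h | h2'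
  · subst h
    have e1 : av (fun t => ‖sx b X t‖ ^ (2:ℝ)) = av (fun t => ‖sx b X t‖ ^ 2) :=
      av_congr fun t => by rw [← Real.rpow_natCast]; norm_num
    have e2 : av (fun t => ‖gJ X t‖ ^ (2:ℝ)) = av (fun t => ‖gJ X t‖ ^ 2) :=
      av_congr fun t => by rw [← Real.rpow_natCast]; norm_num
    rw [e1, e2, av_sx_sq (by assumption) hX0 hX, J_sq]
    have := mx_le (by assumption : IsSig F b) hX0 hX
    linarith
  · rcases eq_or_lt_of_le h4 with h' | h4'
    · subst h'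
      have e1 : av (fun t => ‖sx b X t‖ ^ (4:ℝ)) = av (fun t => ‖sx b X t‖ ^ 4) :=
        av_congr fun t => by rw [← Real.rpow_natCast]; norm_num
      have e2 : av (fun t => ‖gJ X t‖ ^ (4:ℝ)) = av (fun t => ‖gJ X t‖ ^ 4) :=
        av_congr fun t => by rw [← Real.rpow_natCast]; norm_num
      rw [e1, e2]
      exact four_le h hX0 hX
    · have h5 := pow_ineq h (p := lam / 2) (by linarith) (by linarith) hX0 hX
      simp only [rpow_sq (norm_nonneg _)] at h5
      exact h5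

private lemma mom_lt (h : IsSig F b) (hb : ‖b 1‖ < 1) {lam X : ℝ} (h2 : 2 ≤ lam) (h4 : lam ≤ 4)
    (hX0 : 0 < X) (hX : X < 1) :
    av (fun t => ‖sx b X t‖ ^ lam) < av (fun t => ‖gJ X t‖ ^ lam) := by
  rcases eq_or_lt_of_le h2 with h' | h2'
  · subst h'
    have e1 : av (fun t => ‖sx b X t‖ ^ (2:ℝ)) = av (fun t => ‖sx b X t‖ ^ 2) :=
      av_congr fun t => by rw [← Real.rpow_natCast]; norm_num
    have e2 : av (fun t => ‖gJ X t‖ ^ (2:ℝ)) = av (fun t => ‖gJ X t‖ ^ 2) :=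
      av_congr fun t => by rw [← Real.rpow_natCast]; norm_num
    rw [e1, e2, av_sx_sq h hX0 hX, J_sq]
    have := mx_lt h hb hX0 hX
    linarith
  · rcases eq_or_lt_of_le h4 with h' | h4'
    · subst h'
      have e1 : av (fun t => ‖sx b X t‖ ^ (4:ℝ)) = av (fun t => ‖sx b X t‖ ^ 4) :=
        av_congr fun t => by rw [← Real.rpow_natCast]; norm_num
      have e2 : av (fun t => ‖gJ X t‖ ^ (4:ℝ)) = av (fun t => ‖gJ X t‖ ^ 4) :=
        av_congr fun t => by rw [← Real.rpow_natCast]; norm_num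
      rw [e1, e2]
      exact four_strict h hb hX0 hX
    · have h5 := pow_ineq_strict h hb (p := lam / 2) (by linarith) (by linarith) hX0 hX
      simp only [rpow_sq (norm_nonneg _)] at h5
      exact h5

private lemma inv_bounds {r : ℝ} (hr : 1 < r) : 0 < r⁻¹ ∧ r⁻¹ < 1 :=
  ⟨inv_pos.2 (by linarith), inv_lt_one_of_one_lt₀ hr⟩

theorem fin_le (h : IsSig F b) {lam r : ℝ} (h2 : 2 ≤ lam) (h4 : lam ≤ 4) (hr : 1 < r) :
    integralMean lam r F ≤ integralMean lam r (fun z => z + z⁻¹) := by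
  have hl : 0 < lam := by linarith
  have hr0 : 0 < r := by linarith
  obtain ⟨h5, h6⟩ := inv_bounds hr
  rw [mean_S h hl hr, mean_J hl hr]
  apply Real.rpow_le_rpow _ _ (by positivity)
  · exact mul_nonneg (by positivity) (av_nonneg fun t => by positivity)
  · exact mul_le_mul_of_nonneg_left (mom_le h h2 h4 h5 h6) (by positivity)

theorem fin_lt (h : IsSig F b) (hb : ‖b 1‖ < 1) {lam r : ℝ} (h2 : 2 ≤ lam) (h4 : lam ≤ 4)
    (hr : 1 < r) : integralMean lam r F < integralMean lam r (fun z => z + z⁻¹) := by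
  have hl : 0 < lam := by linarith
  have hr0 : 0 < r := by linarith
  obtain ⟨h5, h6⟩ := inv_bounds hr
  rw [mean_S h hl hr, mean_J hl hr]
  apply Real.rpow_lt_rpow _ _ (by positivity)
  · exact mul_nonneg (by positivity) (av_nonneg fun t => by positivity)
  · exact mul_lt_mul_of_pos_left (mom_lt h hb h2 h4 h5 h6) (by positivity)

theorem fin {lam r : ℝ} (h2 : 2 ≤ lam) (h4 : lam ≤ 4) (hr : 1 < r) :
    IsGreatest {x : ℝ | ∃ F : ℂ → ℂ, ClassSigma F ∧ x = integralMean lam r F}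
      (integralMean lam r (fun z => z + z⁻¹)) ∧
    ∀ F : ℂ → ℂ, ClassSigma F →
      (integralMean lam r F = integralMean lam r (fun z => z + z⁻¹) ↔
        ∃ c : ℂ, ‖c‖ = 1 ∧ ∀ z : ℂ, 1 < ‖z‖ → F z = z + c / z) := by
  refine ⟨⟨⟨_, classSigma_J, rfl⟩, ?_⟩, ?_⟩
  · rintro x ⟨F, hF, rfl⟩
    obtain ⟨b, hb⟩ := hF.isSig
    exact fin_le hb h2 h4 hr
  · intro F hF
    obtain ⟨b, hb⟩ := hF.isSig
    constructor
    · intro he
      by_cases h1 : ‖b 1‖ < 1
      · exact absurd he (fin_lt hb h1 h2 h4 hr).ne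
      · exact ⟨b 1, hb.eq_of_norm_one h1⟩
    · rintro ⟨c, hc, hFc⟩
      exact integralMean_rotJ hc hFc hr

end Pool.Agent.H97.SIM
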