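import Pool.Agent.H97.SIM.Av
import Pool.Agent.H15.Sig.EvenJ

/-!
# Strict inequality for the sixth moment
-/

open Complex MeasureTheory Set Filter Topology
open scoped ComplexConjugate Real

namespace Pool.Agent.H97.SIM

open Pool.Agent.H15.Sig

variable {F : ℂ → ℂ} {b : ℕ → ℂ}

theorem moment_six_strict (h : IsSig F b) (hb1 : ‖b 1‖ < 1) {x : ℝ} (hx0 : 0 < x) (hx : x < 1) :
    (∫ t in (-π)..π, ‖(1 + (x * ec t) * pw b (x * ec t)) ^ 3‖ ^ 2) <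
      2 * π * (1 + 9 * x ^ 4 + 9 * x ^ 8 + x ^ 12) := by
  have h1 := h.moment_le (N := 3) (s := 6) (by norm_num) (by norm_num) hx0 hx (c := x ^ 12 / 3)
    (by positivity) (by norm_num)
  refine h1.trans_lt ?_
  apply mul_lt_mul_of_pos_left _ (by positivity)
  simp only [Finset.sum_range_succ, Finset.sum_range_zero, sps_cu_0, sps_cu_1 h.b0,
    sps_cu_2 h.b0, sps_cu_3 h.b0, sps_cu_4 h.b0, sps_cu_5 h.b0]
  have hb := h.bounds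
  have e1 : ‖3 * b 1‖ ^ 2 = 9 * ‖b 1‖ ^ 2 := by rw [norm_mul, mul_pow]; norm_num
  have e2 : ‖3 * b 2‖ ^ 2 = 9 * ‖b 2‖ ^ 2 := by rw [norm_mul, mul_pow]; norm_num
  have e3 : ‖3 * (b 3 + b 1 ^ 2)‖ ^ 2 ≤ 9 / 4 * (1 + ‖b 1‖ ^ 2) ^ 2 := by
    rw [norm_mul, mul_pow]
    have : ‖b 3 + b 1 ^ 2‖ ≤ (1 + ‖b 1‖ ^ 2) / 2 := by
      have e : b 3 + b 1 ^ 2 = (1/2 : ℂ) * (2 * b 3 + b 1 ^ 2) + (1/2 : ℂ) * b 1 ^ 2 := by ring
      rw [e]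
      refine (norm_add_le _ _).trans ?_
      rw [norm_mul, norm_mul, norm_pow]
      have := h.bound_sq
      norm_num
      linarith
    have h0 := norm_nonneg (b 3 + b 1 ^ 2)
    have := pow_le_pow_left₀ h0 this 2
    norm_num
    nlinarith
  have e4 : ‖3 * b 4 + 6 * b 1 * b 2‖ ^ 2 ≤
      (9 / 4 + 18 * ‖b 1‖ ^ 2) * (1 - ‖b 1‖ ^ 2) := by
    have h0 : ‖3 * b 4 + 6 * b 1 * b 2‖ ≤ 3 * ‖b 4‖ + 6 * ‖b 1‖ * ‖b 2‖ := by
      refine (norm_add_le _ _).trans ?_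
      rw [norm_mul, norm_mul, norm_mul]; norm_num
    have h1 := pow_le_pow_left₀ (norm_nonneg _) h0 2
    refine h1.trans ?_
    have h2 : (3 * ‖b 4‖ + 6 * ‖b 1‖ * ‖b 2‖) ^ 2 ≤
        (9 / 4 + 18 * ‖b 1‖ ^ 2) * (4 * ‖b 4‖ ^ 2 + 2 * ‖b 2‖ ^ 2) := by
      nlinarith [sq_nonneg (‖b 2‖ * (3 / 2) * 2 - 12 * ‖b 1‖ * ‖b 4‖)]
    refine h2.trans ?_
    apply mul_le_mul_of_nonneg_left _ (by positivity)
    nlinarith [sq_nonneg ‖b 3‖]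
  rw [e1, e2]
  have hXlt : ‖b 1‖ ^ 2 < 1 := by nlinarith [norm_nonneg (b 1)]
  set X := ‖b 1‖ ^ 2 with hX
  have hX0 : 0 ≤ X := by positivity
  have hX1 : X ≤ 1 := by nlinarith [sq_nonneg ‖b 2‖, sq_nonneg ‖b 3‖, sq_nonneg ‖b 4‖]
  have hB : ‖b 2‖ ^ 2 ≤ (1 - X) / 2 := by nlinarith [sq_nonneg ‖b 3‖, sq_nonneg ‖b 4‖]
  set A := ‖3 * (b 3 + b 1 ^ 2)‖ ^ 2
  set C := ‖3 * b 4 + 6 * b 1 * b 2‖ ^ 2
  set B := ‖b 2‖ ^ 2
  norm_num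
  have p12 : x ^ 12 ≤ x ^ 10 := pow_le_pow_of_le_one hx0.le hx.le (by norm_num)
  have p10 : x ^ 10 ≤ x ^ 8 := pow_le_pow_of_le_one hx0.le hx.le (by norm_num)
  have p0 : 0 < x ^ 12 := by positivity
  have q1 : (x ^ 8 - x ^ 12 / 3) * A ≤ (x ^ 8 - x ^ 12 / 3) * (9 / 4 * (1 + X) ^ 2) :=
    mul_le_mul_of_nonneg_left e3 (by linarith)
  have q2 : (x ^ 10 - x ^ 12 / 3 * 2) * C ≤
      (x ^ 10 - x ^ 12 / 3 * 2) * ((9 / 4 + 18 * X) * (1 - X)) :=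
    mul_le_mul_of_nonneg_left e4 (by linarith)
  have q3 : x ^ 6 * (9 * B) ≤ x ^ 6 * (9 * ((1 - X) / 2)) :=
    mul_le_mul_of_nonneg_left (by linarith) (by positivity)
  -- the polynomial inequality
  set y := 1 - X with hy
  have hXy : X = 1 - y := by rw [hy]; ring
  have hy0 : 0 < y := by linarith
  have hy1 : y ≤ 1 := by linarith
  have main : 0 < y * x ^ 4 * (9 - 9 / 2 * x ^ 2 + (9 - 9 / 4 * y) * x ^ 4
      - (81 / 4 - 18 * y) * x ^ 6 + (27 / 2 - 45 / 4 * y) * x ^ 8) := by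
    apply mul_pos (by positivity)
    set z := x ^ 2 with hz
    have hz0 : 0 < z := by positivity
    have hz1 : z < 1 := by rw [hz]; nlinarith
    have e4' : x ^ 4 = z ^ 2 := by rw [hz]; ring
    have e6' : x ^ 6 = z ^ 3 := by rw [hz]; ring
    have e8' : x ^ 8 = z ^ 4 := by rw [hz]; ring
    rw [e4', e6', e8']
    have c0 : 0 < 9 - 9 / 2 * z + 9 * z ^ 2 - 81 / 4 * z ^ 3 + 27 / 2 * z ^ 4 := by
      nlinarith [sq_nonneg (z ^ 2 - 3/4 * z), sq_nonneg (z - 1), mul_pos hz0 hz0,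
        mul_nonneg hz0.le (sub_nonneg.2 hz1.le), sq_nonneg (z * (z - 1)),
        mul_nonneg (sub_nonneg.2 hz1.le) (sq_nonneg z)]
    have c1 : 0 < 9 - 9 / 2 * z + (9 - 9 / 4) * z ^ 2 - (81 / 4 - 18) * z ^ 3 +
        (27 / 2 - 45 / 4) * z ^ 4 := by
      nlinarith [sq_nonneg (z ^ 2 - 3/4 * z), sq_nonneg (z - 1), mul_pos hz0 hz0,
        mul_nonneg hz0.le (sub_nonneg.2 hz1.le), sq_nonneg (z * (z - 1)),
        mul_nonneg (sub_nonneg.2 hz1.le) (sq_nonneg z)]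
    nlinarith
  rw [hXy] at q1 q2 ⊢
  nlinarith

theorem av_sx_six (b : ℕ → ℂ) (X : ℝ) : av (fun t => ‖sx b X t‖ ^ 6) =
    (2 * π)⁻¹ * ∫ t in (-π)..π, ‖(1 + (X * ec t) * pw b (X * ec t)) ^ 3‖ ^ 2 := by
  rw [← av_neg (fun t => ‖sx b X t‖ ^ 6), av]
  congr 1
  apply intervalIntegral.integral_congr
  intro t _
  simp only [sx, S, ec_eq, norm_pow]
  ring

theorem av_gJ_six {X : ℝ} (hX0 : 0 < X) (hX : X < 1) : av (fun t => ‖gJ X t‖ ^ 6) =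
    1 + 9 * X ^ 4 + 9 * X ^ 8 + X ^ 12 := by
  have h1 := moment_J 3 hX0 hX
  rw [← av_neg (fun t => ‖gJ X t‖ ^ 6), av]
  have h2 : ∫ t in (-π)..π, ‖gJ X (-t)‖ ^ 6 =
      ∫ t in (-π)..π, ‖(1 + (X * ec t) * pw jb (X * ec t)) ^ 3‖ ^ 2 := by
    apply intervalIntegral.integral_congr
    intro t _
    have hu : ‖(X : ℂ) * ec t‖ < 1 := by rw [norm_mul_ec hX0.le]; exact hX
    show ‖gJ X (-t)‖ ^ 6 = ‖(1 + (X * ec t) * pw jb (X * ec t)) ^ 3‖ ^ 2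
    rw [pw_jb hu, norm_pow, ← pow_mul]
    have e1 : gJ X (-t) = 1 + (X * ec t) * (X * ec t) := by
      rw [gJ, ← ec_eq, sq]
    rw [e1]
  rw [h2, h1]
  have hpi : (2 * π) ≠ 0 := by positivity
  rw [← mul_assoc, inv_mul_cancel₀ hpi, one_mul]
  simp [Finset.sum_range_succ, Nat.choose]
  norm_num

theorem six_strict (h : IsSig F b) (hb : ‖b 1‖ < 1) {X : ℝ} (hX0 : 0 < X) (hX : X < 1) :
    av (fun t => ‖sx b X t‖ ^ 6) < av (fun t => ‖gJ X t‖ ^ 6) := by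
  rw [av_sx_six, av_gJ_six hX0 hX]
  have h1 := moment_six_strict h hb hX0 hX
  have hpi : 0 < 2 * π := by positivity
  calc (2 * π)⁻¹ * ∫ t in (-π)..π, ‖(1 + (X * ec t) * pw b (X * ec t)) ^ 3‖ ^ 2
      < (2 * π)⁻¹ * (2 * π * (1 + 9 * X ^ 4 + 9 * X ^ 8 + X ^ 12)) :=
        mul_lt_mul_of_pos_left h1 (by positivity)
    _ = _ := by rw [← mul_assoc, inv_mul_cancel₀ hpi.ne', one_mul]

theorem six_le (h : IsSig F b) {X : ℝ} (hX0 : 0 < X) (hX : X < 1) :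
    av (fun t => ‖sx b X t‖ ^ 6) ≤ av (fun t => ‖gJ X t‖ ^ 6) := by
  rw [av_sx_six, av_gJ_six hX0 hX]
  have h1 := h.moment_six hX0 hX
  have hpi : 0 < 2 * π := by positivity
  calc (2 * π)⁻¹ * ∫ t in (-π)..π, ‖(1 + (X * ec t) * pw b (X * ec t)) ^ 3‖ ^ 2
      ≤ (2 * π)⁻¹ * (2 * π * (1 + 9 * X ^ 4 + 9 * X ^ 8 + X ^ 12)) :=
        mul_le_mul_of_nonneg_left h1 (by positivity)
    _ = _ := by rw [← mul_assoc, inv_mul_cancel₀ hpi.ne', one_mul]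

end Pool.Agent.H97.SIM
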