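import Pool.Agent.H97.SIM.WInner
import Pool.Agent.H97.SIM.WOuter
import Pool.Agent.H97.SIM.Mom

/-!
# The weighted area principle

PROOF of `wb_nonneg`: copy `Pool.Agent.H15.Sig.area_principle` (end of `H15/Sig/Area2.lean`): the
image of the annulus is contained in the inside of the large curve and the weight
`1 - th sg / (sg + y) >= 0` (`0 <= th <= 1`) is nonnegative, so
`(1/2) wb R - (1/2) wb ρ <= (1/2) wb R`.
`warea`: put `ρ = 1/x`, `sg' = sg / x^2`. For `z = ρ e^(it)`, `u = 1/z = x e^(-it)`: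
`F z = S u / u` (`IsSig.eq_inv`), `|F z|^2 = |S u|^2 / x^2`, and `z F'(z) = (S u - u S'(u)) / u`
(differentiate `F z = z S (1/z)`), so `conj (F z) z F'(z) = (|S|^2 - conj S u S') / x^2`.
Multiply by `x^2 > 0`, substitute `t -> -t`.
-/

open Complex MeasureTheory Set Filter Topology
open scoped ComplexConjugate Real

namespace Pool.Agent.H97.SIM

open Pool.Agent.H15.Sig

variable {F : ℂ → ℂ} {b : ℕ → ℂ}

private theorem wt_nonneg {sg th : ℝ} (hs : 0 < sg) (h0 : 0 ≤ th) (h1 : th ≤ 1) (y : ℝ)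
    (hy : 0 ≤ y) : 0 ≤ 1 - th * sg / (sg + y) := by
  have h2 : 0 < sg + y := by linarith
  rw [sub_nonneg, div_le_one h2]
  nlinarith [mul_le_mul_of_nonneg_right h1 hs.le]

theorem wb_nonneg (h : IsSig F b) {sg th : ℝ} (hs : 0 < sg) (h0 : 0 ≤ th) (h1 : th ≤ 1) {ρ : ℝ}
    (hρ : 1 < ρ) : 0 ≤ wb F sg th ρ := by
  obtain ⟨R0, hR0⟩ := h.good
  set R := max R0 (ρ + 1) with hRdef
  have g : Good F R := hR0 R (le_max_left _ _)
  have hρR : ρ < R := by have := le_max_right R0 (ρ + 1); linarith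
  have hRpos : 0 < R := by linarith
  have hnorm : ∀ t : ℝ, ‖(R : ℂ) * exp (t * I)‖ = R := by
    intro t
    rw [norm_mul, norm_exp_ofReal_mul_I, mul_one, norm_real, Real.norm_eq_abs, abs_of_pos hRpos]
  have hin := winner (th := th) h hs hρ hρR.le
  obtain ⟨hint, hout⟩ := wouter (th := th) h hs g
  set S1 := (fun x : ℝ × ℝ => toR (F (exp (x.1 + x.2 * I)))) ''
      (Ioo (Real.log ρ) (Real.log R) ×ˢ Ioc (-π) π) with hS1
  set S2 := (fun x : ℝ × ℝ => toR ((x.1 : ℂ) * F (R * exp (x.2 * I)))) ''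
      (Ioo 0 1 ×ˢ Ioc (-π) π) with hS2
  have hsub : S1 ⊆ S2 ∪ {toR 0} := by
    rintro w ⟨x, hx, rfl⟩
    simp only
    have hxn : ‖exp ((x.1 : ℂ) + x.2 * I)‖ = Real.exp x.1 := by
      rw [norm_exp]; simp
    have hx1 : 1 < ‖exp ((x.1 : ℂ) + x.2 * I)‖ := by
      rw [hxn]
      have : 0 < x.1 := by have := hx.1.1; have := Real.log_pos hρ; linarith
      exact Real.one_lt_exp_iff.2 this
    have hxR : ‖exp ((x.1 : ℂ) + x.2 * I)‖ < R := by
      rw [hxn]
      have := Real.exp_lt_exp.2 hx.1.2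
      rwa [Real.exp_log hRpos] at this
    by_cases hw : F (exp ((x.1 : ℂ) + x.2 * I)) = 0
    · right
      rw [hw]; rfl
    · left
      obtain ⟨s, hs, t, ht, he⟩ := g.dir h _ hw
      refine ⟨(s, t), ⟨⟨hs, ?_⟩, ht⟩, by simp only; rw [← he]⟩
      by_contra hs1
      have hs1' : 1 ≤ s := not_lt.1 hs1
      obtain ⟨ζ, hζ2, hζ⟩ := g.surj _ s (hnorm t) hs1'
      have r := g.ray _ ζ s (hnorm t) hζ2 hs1' hζ
      have hζz : F ζ = F (exp ((x.1 : ℂ) + x.2 * I)) := by rw [hζ, he]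
      have hζ1 : 1 < ‖ζ‖ := by linarith
      have := h.inj hζ1 hx1 hζz
      rw [← this] at hxR
      linarith [r.1]
  have hle : (∫ w in S1, (1 - th * sg / (sg + ‖toC w‖ ^ 2))) ≤
      ∫ w in S2, (1 - th * sg / (sg + ‖toC w‖ ^ 2)) := by
    apply setIntegral_mono_set hint
    · exact Eventually.of_forall fun w => wt_nonneg hs h0 h1 _ (by positivity)
    · have h0 : (S2 ∪ {toR 0} : Set (ℝ × ℝ)) =ᵐ[volume] S2 := by
        exact union_ae_eq_left_of_ae_eq_empty (by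
          rw [ae_eq_empty]; exact measure_singleton _)
      exact (LE.le.eventuallyLE hsub).trans h0.le
  rw [hin, hout] at hle
  linarith

private theorem F_inv (h : IsSig F b) {u : ℂ} (hu : ‖u‖ < 1) (h0 : u ≠ 0) :
    F u⁻¹ = S b u / u := by
  rw [h.eq_inv hu h0, S]
  field_simp

private theorem dF_inv (h : IsSig F b) {u : ℂ} (hu : ‖u‖ < 1) (h0 : u ≠ 0) :
    deriv F u⁻¹ * u⁻¹ = (S b u - u * deriv (S b) u) / u := by
  have hz : 1 < ‖u⁻¹‖ := by
    rw [norm_inv]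
    exact (one_lt_inv₀ (norm_pos_iff.2 h0)).2 hu
  have hSd : HasDerivAt (S b) (deriv (S b) u) u :=
    ((S_diffOn h).differentiableAt (Metric.isOpen_ball.mem_nhds (by simpa using hu))).hasDerivAt
  have h1 : HasDerivAt (fun z : ℂ => z * S b z⁻¹)
      (1 * S b (u⁻¹)⁻¹ + u⁻¹ * (deriv (S b) u * (-(u⁻¹ ^ 2)⁻¹))) u⁻¹ := by
    have h2 : HasDerivAt (fun z : ℂ => z⁻¹) (-(u⁻¹ ^ 2)⁻¹) u⁻¹ :=
      hasDerivAt_inv (inv_ne_zero h0)
    have h3 : HasDerivAt (S b) (deriv (S b) u) (u⁻¹)⁻¹ := by rwa [inv_inv]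
    exact (hasDerivAt_id u⁻¹).mul (h3.comp u⁻¹ h2)
  have h4 : (fun z : ℂ => z * S b z⁻¹) =ᶠ[𝓝 u⁻¹] F := by
    have : {z : ℂ | 1 < ‖z‖} ∈ 𝓝 u⁻¹ := (isOpen_lt continuous_const continuous_norm).mem_nhds hz
    filter_upwards [this] with z hz
    have hz1 : (1 : ℝ) < ‖z‖ := hz
    have hz0 : z ≠ 0 := by
      rintro rfl
      rw [norm_zero] at hz1
      linarith
    have h5 := F_inv h (norm_inv_lt hz1) (inv_ne_zero hz0)
    rw [inv_inv] at h5
    rw [h5, div_inv_eq_mul, mul_comm]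
  have h6 := (h4.hasDerivAt_iff.1 h1).deriv
  rw [h6, inv_inv]
  field_simp
  ring

theorem warea (h : IsSig F b) {x sg th : ℝ} (hx0 : 0 < x) (hx : x < 1) (hs : 0 < sg)
    (h0 : 0 ≤ th) (h1 : th ≤ 1) :
    0 ≤ av (fun t => (1 - th * l1 (‖sx b x t‖ ^ 2 / sg)) *
      (‖sx b x t‖ ^ 2 - (conj (sx b x t) * sd b x t).re)) := by
  have hρ : 1 < x⁻¹ := (one_lt_inv₀ hx0).2 hx
  have hs' : 0 < sg / x ^ 2 := by positivity
  have hw := wb_nonneg h hs' h0 h1 hρ
  rw [← av_neg]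
  unfold av
  refine mul_nonneg (by positivity) ?_
  have h2 : wb F (sg / x ^ 2) th x⁻¹ = (x ^ 2)⁻¹ * ∫ t in (-π)..π,
      (1 - th * l1 (‖sx b x (-t)‖ ^ 2 / sg)) *
      (‖sx b x (-t)‖ ^ 2 - (conj (sx b x (-t)) * sd b x (-t)).re) := by
    rw [← intervalIntegral.integral_const_mul]
    unfold wb
    apply intervalIntegral.integral_congr
    intro t _
    simp only
    set u : ℂ := x * e (-t) with hu
    have hun : ‖u‖ = x := norm_xe hx0 (-t)
    have hu0 : u ≠ 0 := by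
      rw [← norm_pos_iff, hun]; exact hx0
    have hu1 : ‖u‖ < 1 := by rw [hun]; exact hx
    have hz : ((x⁻¹ : ℝ) : ℂ) * exp (t * I) = u⁻¹ := by
      rw [hu, mul_inv, e, ← Complex.exp_neg]
      push_cast
      congr 2
      ring
    rw [hz, dF_inv h hu1 hu0, F_inv h hu1 hu0]
    have e1 : sx b x (-t) = S b u := rfl
    have e2 : sd b x (-t) = u * deriv (S b) u := rfl
    rw [e1, e2]
    have e3 : ‖S b u / u‖ ^ 2 / (sg / x ^ 2) = ‖S b u‖ ^ 2 / sg := by
      rw [norm_div, hun]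
      field_simp
    have e4 : (conj (S b u / u) * ((S b u - u * deriv (S b) u) / u)).re =
        (x ^ 2)⁻¹ * (‖S b u‖ ^ 2 - (conj (S b u) * (u * deriv (S b) u)).re) := by
      have e5 : conj (S b u / u) * ((S b u - u * deriv (S b) u) / u) =
          (((x ^ 2)⁻¹ : ℝ) : ℂ) * (conj (S b u) * S b u - conj (S b u) * (u * deriv (S b) u)) := by
        have e6 : conj u * u = ((x ^ 2 : ℝ) : ℂ) := by
          rw [Complex.conj_mul', hun]; push_cast; rfl
        have e7 : (((x ^ 2)⁻¹ : ℝ) : ℂ) = (conj u * u)⁻¹ := by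
          rw [e6]; push_cast; rfl
        rw [e7, map_div₀]
        have hcu : conj u ≠ 0 := by simpa using hu0
        field_simp
      rw [e5, Complex.re_ofReal_mul, Complex.sub_re, Complex.conj_mul']
      norm_cast
    rw [e3, e4]
    ring
  rw [h2] at hw
  exact nonneg_of_mul_nonneg_right hw (by positivity)

end Pool.Agent.H97.SIM
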