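import Pool.Agent.H97.SIM.Av
import Pool.Agent.H15.Sig.Even2

/-!
# Regularity of `S` on circles

PROOF. `S b u = 1 + u * pw b u` is analytic in the open unit disc (`IsSig.diffOn_pw`); compose with
`t -> x e t` (`continuous_e`); the derivative of a function analytic on an open set is analytic
there (`DifferentiableOn.deriv`).
-/

open Complex MeasureTheory Set Filter Topology
open scoped ComplexConjugate Real

namespace Pool.Agent.H97.SIM

open Pool.Agent.H15.Sig

variable {F : ℂ → ℂ} {b : ℕ → ℂ}

theorem norm_xe {x : ℝ} (hx0 : 0 < x) (t : ℝ) : ‖(x : ℂ) * e t‖ = x := by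
  rw [norm_mul, norm_e, mul_one, Complex.norm_real, Real.norm_of_nonneg hx0.le]

theorem S_diffOn (h : IsSig F b) : DifferentiableOn ℂ (S b) (Metric.ball 0 1) := by
  unfold S
  exact (differentiableOn_const _).add (differentiableOn_id.mul h.diffOn_pw)

private theorem xe_mem {x : ℝ} (hx0 : 0 < x) (hx : x < 1) (t : ℝ) :
    (x : ℂ) * e t ∈ Metric.ball (0 : ℂ) 1 := by
  rw [mem_ball_zero_iff, norm_xe hx0]
  exact hx

private theorem xe_continuous (x : ℝ) : Continuous fun t : ℝ => (x : ℂ) * e t :=
  continuous_const.mul continuous_e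

theorem sx_continuous (h : IsSig F b) {x : ℝ} (hx0 : 0 < x) (hx : x < 1) :
    Continuous (sx b x) := by
  unfold sx
  exact (S_diffOn h).continuousOn.comp_continuous (xe_continuous x) (xe_mem hx0 hx)

theorem sd_continuous (h : IsSig F b) {x : ℝ} (hx0 : 0 < x) (hx : x < 1) :
    Continuous (sd b x) := by
  unfold sd
  exact (xe_continuous x).mul (((S_diffOn h).deriv Metric.isOpen_ball).continuousOn.comp_continuous
    (xe_continuous x) (xe_mem hx0 hx))

end Pool.Agent.H97.SIM
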