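import Pool.Agent.H97.SIM.Rot

/-!
# Invariance of `Ig`: conclusion (see the header of `Rot`)
-/

open Complex MeasureTheory Set Polynomial
open scoped ComplexConjugate Real

namespace Pool.Agent.H97.SIM

variable {s : ℝ} {f h : ℂ[X]}

private lemma rp_zero (f h : ℂ[X]) : rp f h 0 = f := by
  simp [rp]

/-- the mean over `t` of the `T`-derivative vanishes -/
theorem av_iK (P : Pair s f h) :
    av (fun t => iK s (pe f t) (pd f t) (pe h t) (pd h t)) = 0 := by
  have hne : ∀ t, pe h t ≠ 0 := fun t => P.nz (e t) (norm_e t).le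
  have hcK : Continuous fun t => iK s (pe f t) (pd f t) (pe h t) (pd h t) := by
    have h1 := (iK_continuous P.pos f h).comp (continuous_const.prodMk continuous_id :
      Continuous fun t : ℝ => ((0 : ℝ), t))
    have h2 : (fun p : ℝ × ℝ => iK s (pe (rp f h p.1) p.2) (pd (rp f h p.1) p.2)
      (pe (rp h f p.1) p.2) (pd (rp h f p.1) p.2)) ∘ (fun t : ℝ => ((0 : ℝ), t)) =
        fun t => iK s (pe f t) (pd f t) (pe h t) (pd h t) := by
      funext t
      simp only [Function.comp, rp_zero]
    rwa [h2] at h1
  have hcR : Continuous fun t => (pd f t / pe h t).re :=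
    Complex.continuous_re.comp ((continuous_pd f).div (continuous_pe h) hne)
  have hc : Continuous fun t => -(iK s (pe f t) (pd f t) (pe h t) (pd h t)) -
      2 * (pd f t / pe h t).re := hcK.neg.sub (continuous_const.mul hcR)
  -- the fundamental theorem
  have h1 : ∫ t in (-π)..π, (-(iK s (pe f t) (pd f t) (pe h t) (pd h t)) -
      2 * (pd f t / pe h t).re) = iN s (pe f) (pe h) π - iN s (pe f) (pe h) (-π) :=
    intervalIntegral.integral_eq_sub_of_hasDerivAt (fun t _ => iN_hasDerivAt_t P t)
      (hc.intervalIntegrable _ _)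
  have h2 : iN s (pe f) (pe h) π = iN s (pe f) (pe h) (-π) := by
    unfold iN pe
    rw [e_neg_pi]
  rw [h2, sub_self] at h1
  -- the analytic part
  have h3 : av (fun t => (pd f t / pe h t).re) = 0 := by
    have hU : IsOpen {z : ℂ | h.eval z ≠ 0} :=
      isOpen_ne_fun h.continuous continuous_const
    have hs : Metric.closedBall (0 : ℂ) 1 ⊆ {z : ℂ | h.eval z ≠ 0} := by
      intro z hz
      rw [mem_closedBall_zero_iff] at hz
      exact P.nz z hz
    have hd : DifferentiableOn ℂ (fun z => z * f.derivative.eval z / h.eval z)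
        {z : ℂ | h.eval z ≠ 0} := by
      intro z hz
      exact ((differentiableAt_id.mul f.derivative.differentiable.differentiableAt).div
        h.differentiable.differentiableAt hz).differentiableWithinAt
    have h4 := av_re hU hs hd
    simp only [zero_mul, zero_div, Complex.zero_re] at h4
    exact h4
  have h5 : av (fun t => -(iK s (pe f t) (pd f t) (pe h t) (pd h t)) -
      2 * (pd f t / pe h t).re) = 0 := by
    unfold av
    rw [h1, mul_zero]
  rw [av_sub (f := fun t => -(iK s (pe f t) (pd f t) (pe h t) (pd h t)))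
    (g := fun t => 2 * (pd f t / pe h t).re) hcK.neg (continuous_const.mul hcR), av_mul_const, h3,
    mul_zero, sub_zero] at h5
  have h6 := av_mul_const (-1) (fun t => iK s (pe f t) (pd f t) (pe h t) (pd h t))
  have h7 : (fun t => -1 * iK s (pe f t) (pd f t) (pe h t) (pd h t)) =
      fun t => -(iK s (pe f t) (pd f t) (pe h t) (pd h t)) := by
    funext t
    ring
  rw [h7, h5] at h6
  linarith

private lemma swap_zero (K : ℝ → ℝ → ℝ) (hK : Continuous fun p : ℝ × ℝ => K p.1 p.2) (T : ℝ)
    (h0 : ∀ T', ∫ t in (-π)..π, K T' t = 0) :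
    ∫ t in (-π)..π, ∫ T' in (0 : ℝ)..T, K T' t = 0 := by
  have h4 : Continuous (Function.uncurry fun t T' => K T' t) := by
    have h5 : (Function.uncurry fun t T' => K T' t) =
        (fun p : ℝ × ℝ => K p.1 p.2) ∘ Prod.swap := by
      funext p
      rfl
    rw [h5]
    exact hK.comp continuous_swap
  have h3 : ∫ t in (-π)..π, ∫ T' in (0 : ℝ)..T, K T' t =
      ∫ T' in (0 : ℝ)..T, ∫ t in (-π)..π, K T' t := by
    apply intervalIntegral_intervalIntegral_swap
    refine (h4.continuousOn.integrableOn_compact
      (isCompact_uIcc.prod isCompact_uIcc : IsCompact (uIcc (-π) π ×ˢ uIcc 0 T))).mono_set ?_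
    exact prod_mono uIoc_subset_uIcc uIoc_subset_uIcc
  rw [h3]
  simp only [h0, intervalIntegral.integral_zero]

theorem Pair.inv (P : Pair s f h) (T : ℝ) :
    Ig s (pe (rp f h T)) (pd (rp f h T)) = Ig s (pe f) (pd f) := by
  obtain ⟨K, hK⟩ : ∃ K : ℝ → ℝ → ℝ, ∀ T' t, K T' t = iK s (pe (rp f h T') t)
      (pd (rp f h T') t) (pe (rp h f T') t) (pd (rp h f T') t) := ⟨_, fun _ _ => rfl⟩
  have hcont : Continuous fun p : ℝ × ℝ => K p.1 p.2 := by
    simp only [hK]
    exact iK_continuous P.pos f h
  -- derivative in `T`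
  have h1 : ∀ t, ∫ T' in (0 : ℝ)..T, K T' t =
      iA s (pe (rp f h T)) (pd (rp f h T)) t - iA s (pe f) (pd f) t := by
    intro t
    have hc1 : Continuous fun T' => K T' t := by
      have := hcont.comp (continuous_id.prodMk continuous_const :
        Continuous fun T' : ℝ => (T', t))
      exact this
    have h2 := intervalIntegral.integral_eq_sub_of_hasDerivAt
      (f := fun T' => iA s (pe (rp f h T')) (pd (rp f h T')) t)
      (f' := fun T' => K T' t) (a := 0) (b := T)
      (fun T' _ => by
        rw [hK]
        exact iA_hasDerivAt_T P.pos f h T' t)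
      (hc1.intervalIntegrable _ _)
    simp only [rp_zero] at h2
    exact h2
  have h5 : ∀ T', ∫ t in (-π)..π, K T' t = 0 := by
    intro T'
    have h6 := av_iK (s := s) (f := rp f h T') (h := rp h f T') (P.rot T')
    unfold av at h6
    have h7 : (2 * π)⁻¹ ≠ 0 := by
      have := Real.pi_pos
      positivity
    simp only [hK]
    exact (mul_eq_zero.1 h6).resolve_left h7
  have h3 := swap_zero K hcont T h5
  simp only [h1] at h3
  have hcA : ∀ T', Continuous (iA s (pe (rp f h T')) (pd (rp f h T'))) := by
    intro T'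
    unfold iA
    have h8 : Continuous fun t => l1 (‖pe (rp f h T') t‖ ^ 2 / s) := by
      refine l1_contOn.comp_continuous (((continuous_pe _).norm.pow 2).div_const s) fun t => ?_
      have h9 : 0 ≤ ‖pe (rp f h T') t‖ ^ 2 / s := div_nonneg (by positivity) P.pos.le
      exact lt_of_lt_of_le (by norm_num) h9
    exact (h8.div_const s).mul (Complex.continuous_re.comp
      ((Complex.continuous_conj.comp (continuous_pe _)).mul (continuous_pd _)))
  have hcA0 := hcA 0
  rw [rp_zero] at hcA0
  rw [intervalIntegral.integral_sub ((hcA T).intervalIntegrable _ _)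
    (hcA0.intervalIntegrable _ _), sub_eq_zero] at h3
  unfold Ig av
  exact congrArg (fun x => (2 * π)⁻¹ * x) h3

end Pool.Agent.H97.SIM
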