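import Pool.Agent.H97.SIM.Ell

/-!
# The function `phi`

PROOF. `phi` is the primitive of the function `1 - l1`, continuous on `v > -1` (`l1_contOn`), so
`HasDerivAt phi (1 - l1 y) y` for `y >= 0` (`intervalIntegral.integral_hasDerivAt_right`; the
integrand is continuous on a neighbourhood of `[0, y]`). Bounds: `0 <= 1 - l1 v <= 1` and
`1 - l1 v <= v / 2` for `v >= 0`. `phi_eq`: substitute `v = y w`:
`phi y = integral_0^1 y (1 - l1 (y w)) dw` and `y (1 - l1 (y w)) = uu (w y) / w` for `w > 0`.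
STRICT: `1 - l1 v > 0` for `v > 0`.
-/

open Complex MeasureTheory Set
open scoped ComplexConjugate Real

namespace Pool.Agent.H97.SIM

private lemma one_sub_cont : ContinuousOn (fun v : ℝ => 1 - l1 v) (Ioi (-1)) :=
  continuousOn_const.sub l1_contOn

private lemma ii {a b : ℝ} (ha : 0 ≤ a) (hb : 0 ≤ b) :
    IntervalIntegrable (fun v : ℝ => 1 - l1 v) volume a b := by
  refine (one_sub_cont.mono ?_).intervalIntegrable
  intro v hv
  rw [mem_uIcc] at hv
  rw [mem_Ioi]
  rcases hv with h | h <;> linarith [h.1]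

theorem phi_zero : phi 0 = 0 := by
  simp [phi]

theorem phi_hasDerivAt {y : ℝ} (hy : 0 ≤ y) : HasDerivAt phi (1 - l1 y) y := by
  have hc : ContinuousOn (fun v : ℝ => 1 - l1 v) (Ioi (-1)) := one_sub_cont
  have hnhds : Ioi (-1 : ℝ) ∈ nhds y := isOpen_Ioi.mem_nhds (by rw [mem_Ioi]; linarith)
  refine intervalIntegral.integral_hasDerivAt_right (ii le_rfl hy) ?_ (hc.continuousAt hnhds)
  exact hc.stronglyMeasurableAtFilter isOpen_Ioi y (by rw [mem_Ioi]; linarith)

theorem phi_contOn : ContinuousOn phi (Ici 0) := fun _ hy =>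
  (phi_hasDerivAt hy).continuousAt.continuousWithinAt

theorem phi_mono {y z : ℝ} (hy : 0 ≤ y) (h : y ≤ z) : phi y ≤ phi z := by
  have h1 : phi z - phi y = ∫ v in y..z, (1 - l1 v) := by
    rw [phi, phi]
    exact intervalIntegral.integral_interval_sub_left (ii le_rfl (hy.trans h)) (ii le_rfl hy)
  have h2 : 0 ≤ ∫ v in y..z, (1 - l1 v) := by
    refine intervalIntegral.integral_nonneg h fun v hv => ?_
    linarith [l1_le_one (hy.trans hv.1)]
  linarith

theorem phi_nonneg {y : ℝ} (hy : 0 ≤ y) : 0 ≤ phi y := by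
  have := phi_mono le_rfl hy
  rwa [phi_zero] at this

private lemma one_sub_pos {v : ℝ} (hv : 0 < v) : 0 < 1 - l1 v := by
  rw [l1_of_ne hv.ne']
  have h1 : Real.log (1 + v) < v := by
    have := Real.log_lt_sub_one_of_pos (by linarith : 0 < 1 + v) (by linarith : 1 + v ≠ 1)
    linarith
  have h2 : Real.log (1 + v) / v < 1 := (div_lt_one hv).2 h1
  linarith

theorem phi_pos {y : ℝ} (hy : 0 < y) : 0 < phi y := by
  rw [phi]
  refine intervalIntegral.intervalIntegral_pos_of_pos_on (ii le_rfl hy.le) ?_ hy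
  intro v hv
  exact one_sub_pos hv.1

theorem phi_le {y : ℝ} (hy : 0 ≤ y) : phi y ≤ y := by
  rw [phi]
  calc ∫ v in (0:ℝ)..y, (1 - l1 v) ≤ ∫ _ in (0:ℝ)..y, (1 : ℝ) := by
        refine intervalIntegral.integral_mono_on hy (ii le_rfl hy) (by simp) fun v hv => ?_
        linarith [l1_pos hv.1]
    _ = y := by simp

theorem phi_le_sq {y : ℝ} (hy : 0 ≤ y) : phi y ≤ y ^ 2 / 4 := by
  rw [phi]
  calc ∫ v in (0:ℝ)..y, (1 - l1 v) ≤ ∫ v in (0:ℝ)..y, v / 2 := by
        refine intervalIntegral.integral_mono_on hy (ii le_rfl hy)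
          ((continuous_id.div_const 2).intervalIntegrable _ _) fun v hv => ?_
        exact one_sub_l1_le hv.1
    _ = y ^ 2 / 4 := by
        rw [intervalIntegral.integral_div, integral_id]; ring

/-- `phi y = ∫_0^1 y (1 - l1 (w y)) dw`; the integrand is `uu (w y) / w` for `w > 0` -/
theorem phi_eq {y : ℝ} (hy : 0 ≤ y) : phi y = ∫ w in (0:ℝ)..1, y * (1 - l1 (w * y)) := by
  have h1 := intervalIntegral.mul_integral_comp_mul_right (a := 0) (b := 1)
    (f := fun v : ℝ => 1 - l1 v) (c := y)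
  simp only [zero_mul, one_mul] at h1
  rw [intervalIntegral.integral_const_mul, h1, phi]

theorem uu_eq {y w : ℝ} (hw : w ≠ 0) : uu (w * y) = w * (y * (1 - l1 (w * y))) := by
  rw [uu, ← l1_mul]; ring

end Pool.Agent.H97.SIM
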