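import Pool.Agent.H97.SIM.Base
import Pool.Agent.H97.SIM.Phi

/-!
# The comparison at radius one for `phi`

PROOF. For continuous `g` and `s > 0`, by `phi_eq` and Fubini (continuous integrand on
`[0,1] x [-pi, pi]`, since `l1` is continuous on `y >= 0`):
`av phi (|g|^2 / s) = ∫_0^1 av (y (1 - l1 (w y))) dw`, `y = |g t|^2 / s`. For `w > 0`,
`y (1 - l1 (w y)) = uu (w y) / w = uu (|g|^2 / (s / w)) / w` (`uu_eq`), so `base_uu` with `s / w`
compares the inner means for every `w` in `(0, 1]`; integrate over `w`.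
-/

open Complex MeasureTheory Set Filter Topology
open scoped ComplexConjugate Real

namespace Pool.Agent.H97.SIM

open Pool.Agent.H15.Sig

variable {F : ℂ → ℂ} {b : ℕ → ℂ}

private lemma bp_contOn {y : ℝ → ℝ} (hy : Continuous y) (hy0 : ∀ t, 0 ≤ y t) :
    ContinuousOn (fun z : ℝ × ℝ => y z.2 * (1 - l1 (z.1 * y z.2))) (Ici 0 ×ˢ univ) := by
  have h1 : ContinuousOn (fun z : ℝ × ℝ => l1 (z.1 * y z.2)) (Ici 0 ×ˢ univ) := by
    refine l1_contOn.comp (f := fun z : ℝ × ℝ => z.1 * y z.2) (by fun_prop) ?_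
    rintro ⟨w, t⟩ ⟨hw, -⟩
    have : 0 ≤ w * y t := mul_nonneg hw (hy0 t)
    exact lt_of_lt_of_le (by norm_num) this
  have h2 : Continuous (fun z : ℝ × ℝ => y z.2) := by fun_prop
  exact h2.continuousOn.mul (continuousOn_const.sub h1)

private lemma bp_int {y : ℝ → ℝ} (hy : Continuous y) (hy0 : ∀ t, 0 ≤ y t) :
    Integrable (Function.uncurry fun w t : ℝ => y t * (1 - l1 (w * y t)))
      ((volume.restrict (Ioc (0:ℝ) 1)).prod (volume.restrict (Ioc (-π) π))) := by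
  rw [Measure.prod_restrict, ← IntegrableOn]
  have h1 : ContinuousOn (fun z : ℝ × ℝ => y z.2 * (1 - l1 (z.1 * y z.2)))
      (Icc (0:ℝ) 1 ×ˢ Icc (-π) π) := by
    refine (bp_contOn hy hy0).mono ?_
    rintro ⟨w, t⟩ ⟨hw, -⟩
    exact ⟨hw.1, trivial⟩
  have h2 : IntegrableOn (fun z : ℝ × ℝ => y z.2 * (1 - l1 (z.1 * y z.2)))
      (Icc (0:ℝ) 1 ×ˢ Icc (-π) π) (volume.prod volume) :=
    h1.integrableOn_compact (isCompact_Icc.prod isCompact_Icc)
  exact h2.mono_set (prod_mono Ioc_subset_Icc_self Ioc_subset_Icc_self)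

/-- Fubini -/
private lemma bp_av {y : ℝ → ℝ} (hy : Continuous y) (hy0 : ∀ t, 0 ≤ y t) :
    av (fun t => phi (y t)) = ∫ w in (0:ℝ)..1, av (fun t => y t * (1 - l1 (w * y t))) := by
  have hpi : (-π : ℝ) ≤ π := by linarith [Real.pi_pos]
  have hsw := integral_integral_swap (bp_int hy hy0)
  have h1 : ∀ t, phi (y t) = ∫ w in Ioc (0:ℝ) 1, y t * (1 - l1 (w * y t)) := by
    intro t
    rw [phi_eq (hy0 t), intervalIntegral.integral_of_le zero_le_one]
  have h2 : ∀ w, av (fun t => y t * (1 - l1 (w * y t)))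
      = (2 * π)⁻¹ * ∫ t in Ioc (-π) π, y t * (1 - l1 (w * y t)) := by
    intro w
    rw [av, intervalIntegral.integral_of_le hpi]
  rw [av_congr h1, av, intervalIntegral.integral_of_le hpi, ← hsw,
    intervalIntegral.integral_of_le zero_le_one, ← integral_const_mul]
  exact integral_congr_ae (Eventually.of_forall fun w => (h2 w).symm)

private lemma bp_ii {y : ℝ → ℝ} (hy : Continuous y) (hy0 : ∀ t, 0 ≤ y t) :
    IntervalIntegrable (fun w => av (fun t => y t * (1 - l1 (w * y t)))) volume 0 1 := by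
  have hpi : (-π : ℝ) ≤ π := by linarith [Real.pi_pos]
  rw [intervalIntegrable_iff_integrableOn_Ioc_of_le zero_le_one]
  have h := (bp_int hy hy0).integral_prod_left.const_mul (2 * π)⁻¹
  refine h.congr (Eventually.of_forall fun w => ?_)
  simp only [av, intervalIntegral.integral_of_le hpi, Function.uncurry]

/-- the same with `phi` in place of `uu`: by `phi_eq` and Fubini
`av phi (|g|^2 / s) = ∫_0^1 (1/w) av uu (|g|^2 / (s/w)) dw` -/
theorem base_phi (h : IsSig F b) {x s : ℝ} (hx0 : 0 < x) (hx : x < 1) (hs : 0 < s) :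
    av (fun t => phi (‖sx b x t‖ ^ 2 / s)) ≤ av (fun t => phi (‖gJ 1 t‖ ^ 2 / s)) := by
  have cS := sx_continuous h hx0 hx
  have c1 : Continuous (fun t => ‖sx b x t‖ ^ 2 / s) := by fun_prop
  have cJ := gJ_continuous 1
  have c2 : Continuous (fun t => ‖gJ 1 t‖ ^ 2 / s) := by fun_prop
  have p1 : ∀ t, 0 ≤ ‖sx b x t‖ ^ 2 / s := fun t => by positivity
  have p2 : ∀ t, 0 ≤ ‖gJ 1 t‖ ^ 2 / s := fun t => by positivity
  rw [bp_av c1 p1, bp_av c2 p2]
  refine intervalIntegral.integral_mono_on_of_le_Ioo zero_le_one (bp_ii c1 p1) (bp_ii c2 p2) ?_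
  intro w hw
  have hw0 : 0 < w := hw.1
  have key : ∀ g : ℝ → ℂ, av (fun t => ‖g t‖ ^ 2 / s * (1 - l1 (w * (‖g t‖ ^ 2 / s))))
      = w⁻¹ * av (fun t => uu (‖g t‖ ^ 2 / (s / w))) := by
    intro g
    rw [← av_mul_const]
    refine av_congr fun t => ?_
    have e1 : ‖g t‖ ^ 2 / (s / w) = w * (‖g t‖ ^ 2 / s) := by
      field_simp
    rw [e1, uu_eq hw0.ne', ← mul_assoc, inv_mul_cancel₀ hw0.ne', one_mul]
  rw [key, key]
  exact mul_le_mul_of_nonneg_left (base_uu h hx0 hx (div_pos hs hw0)) (inv_nonneg.2 hw0.le)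

end Pool.Agent.H97.SIM
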