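import Pool.Agent.H97.SIM.Ind

/-!
# The core inequality for polynomials

CLAIM: `f.coeff 0 = 1`, `L = av log (|f|^2 + s)`. Then `L > 0` and
`Ig f <= 2 log ((exp L - 1) / s) + (1/s) sum_(j<N) (j-2)_+ |f_j|^2` for `natDegree f < N`.

PROOF. Let `h` be from `exists_pair`; `exp L = |h_0|^2 > |f_0|^2 = 1` (`Pair.logmean`,
`Pair.lt0`). Two Schur steps `(f,h) -> (f1,h1) -> (f2,h2)`:
`Ig f = t1 + t2 + Ig f2`, `t1 = log (|h1_0|^2 / s)`, `|h1_0|^2 = |h_0|^2 - 1 = exp L - 1`,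
`t2 = log (|h2_0|^2 / s)`, `0 < |h2_0|^2 = |h1_0|^2 - |f1_0|^2 <= |h1_0|^2`, so `t2 <= t1`.
By `Pair.bound`: `s Ig f2 <= sum j |f2_j|^2 - sum (j-1)_+ |h2_j|^2`. With
`|f2_j|^2 = |h2_(j+1)|^2 + |f1_(j+1)|^2 - |h1_(j+1)|^2` this is
`sum_(j>=2) (j-1) (|f1_j|^2 - |h1_j|^2)`, and with
`|f1_j|^2 = |h1_(j+1)|^2 + |f_(j+1)|^2 - |h_(j+1)|^2` it is
`sum_(j>=3) (j-2) (|f_j|^2 - |h_j|^2) + sum_(j>=3) (j-2) |h1_j|^2 - sum_(j>=2) (j-1) |h1_j|^2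
 <= sum_(j>=3) (j-2) |f_j|^2`.
-/

open Complex MeasureTheory Set Polynomial
open scoped ComplexConjugate Real

namespace Pool.Agent.H97.SIM

private theorem shift (N : ℕ) (w c : ℕ → ℝ) (hw : w 0 = 0) (hc : c N = 0) :
    ∑ j ∈ Finset.range N, w j * c (j + 1) = ∑ j ∈ Finset.range N, w (j - 1) * c j := by
  have h1 := Finset.sum_range_succ' (fun j => w (j - 1) * c j) N
  have h2 := Finset.sum_range_succ (fun j => w (j - 1) * c j) N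
  simp only [Nat.add_sub_cancel, Nat.zero_sub] at h1
  rw [h1, hw, hc] at h2
  linarith

theorem core {s : ℝ} (hs : 0 < s) {f : ℂ[X]} (h1 : f.coeff 0 = 1) {N : ℕ}
    (hN : f.natDegree < N) :
    0 < Lg s (pe f) ∧ Ig s (pe f) (pd f) ≤ 2 * Real.log ((Real.exp (Lg s (pe f)) - 1) / s) +
      (1 / s) * ∑ j ∈ Finset.range N, ((j - 2 : ℕ) : ℝ) * ‖f.coeff j‖ ^ 2 := by
  obtain ⟨h, P⟩ := exists_pair f hs
  have hlt := P.lt0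
  rw [h1, norm_one] at hlt
  have hsq : 1 < ‖h.coeff 0‖ ^ 2 := by nlinarith
  have hL := P.logmean
  have hexp : Real.exp (Lg s (pe f)) = ‖h.coeff 0‖ ^ 2 := by
    rw [hL, Real.exp_log (by linarith)]
  refine ⟨by rw [hL]; exact Real.log_pos hsq, ?_⟩
  obtain ⟨f1, g1, P1, d1, c1, z1, I1⟩ := P.step
  obtain ⟨f2, g2, P2, d2, c2, z2, I2⟩ := P1.step
  have hb := P2.bound N (by omega)
  rw [P1.tau] at I1
  rw [P2.tau] at I2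
  have hz1 : ‖g1.coeff 0‖ ^ 2 = Real.exp (Lg s (pe f)) - 1 := by
    rw [z1, hexp, h1, norm_one, one_pow]
  have hg2 : 0 < ‖g2.coeff 0‖ ^ 2 := by
    have h3 := P2.nz 0 (by simp)
    rw [← Polynomial.coeff_zero_eq_eval_zero] at h3
    have h4 : 0 < ‖g2.coeff 0‖ := norm_pos_iff.2 h3
    positivity
  have hle : ‖g2.coeff 0‖ ^ 2 ≤ ‖g1.coeff 0‖ ^ 2 := by
    rw [z2]
    nlinarith [sq_nonneg ‖f1.coeff 0‖]
  have hlog : Real.log (‖g2.coeff 0‖ ^ 2 / s) ≤ Real.log (‖g1.coeff 0‖ ^ 2 / s) :=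
    Real.log_le_log (by positivity) (by gcongr)
  have hfN : ‖f.coeff N‖ ^ 2 = 0 := by
    rw [Polynomial.coeff_eq_zero_of_natDegree_lt hN, norm_zero, zero_pow two_ne_zero]
  have hhN : ‖h.coeff N‖ ^ 2 = 0 := by
    rw [Polynomial.coeff_eq_zero_of_natDegree_lt (P.deg.trans_lt hN), norm_zero,
      zero_pow two_ne_zero]
  have hf1N : ‖f1.coeff N‖ ^ 2 = 0 := by
    rw [Polynomial.coeff_eq_zero_of_natDegree_lt (by omega), norm_zero, zero_pow two_ne_zero]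
  have hg1N : ‖g1.coeff N‖ ^ 2 = 0 := by
    rw [Polynomial.coeff_eq_zero_of_natDegree_lt (P1.deg.trans_lt (by omega)), norm_zero,
      zero_pow two_ne_zero]
  have hg2N : ‖g2.coeff N‖ ^ 2 = 0 := by
    rw [Polynomial.coeff_eq_zero_of_natDegree_lt (P2.deg.trans_lt (by omega)), norm_zero,
      zero_pow two_ne_zero]
  have s1 := shift N (fun j => (j : ℝ)) (fun j => ‖g2.coeff j‖ ^ 2) (by simp) hg2N
  have s2 := shift N (fun j => (j : ℝ)) (fun j => ‖f1.coeff j‖ ^ 2 - ‖g1.coeff j‖ ^ 2) (by simp)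
    (by rw [hf1N, hg1N, sub_zero])
  have s3 := shift N (fun j => ((j - 1 : ℕ) : ℝ)) (fun j => ‖g1.coeff j‖ ^ 2) (by simp) hg1N
  have s4 := shift N (fun j => ((j - 1 : ℕ) : ℝ)) (fun j => ‖f.coeff j‖ ^ 2 - ‖h.coeff j‖ ^ 2)
    (by simp) (by rw [hfN, hhN, sub_zero])
  simp only [Nat.sub_sub] at s3 s4
  have e2 : ∑ j ∈ Finset.range N, (j : ℝ) * ‖f2.coeff j‖ ^ 2 =
      ∑ j ∈ Finset.range N, (j : ℝ) * ‖g2.coeff (j + 1)‖ ^ 2 +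
      ∑ j ∈ Finset.range N, (j : ℝ) * (‖f1.coeff (j + 1)‖ ^ 2 - ‖g1.coeff (j + 1)‖ ^ 2) := by
    rw [← Finset.sum_add_distrib]
    refine Finset.sum_congr rfl fun j _ => ?_
    have := c2 j
    have h5 : ‖f2.coeff j‖ ^ 2 = ‖g2.coeff (j + 1)‖ ^ 2 +
      (‖f1.coeff (j + 1)‖ ^ 2 - ‖g1.coeff (j + 1)‖ ^ 2) := by linarith
    rw [h5]
    ring
  have e1 : ∑ j ∈ Finset.range N, ((j - 1 : ℕ) : ℝ) * ‖f1.coeff j‖ ^ 2 =
      ∑ j ∈ Finset.range N, ((j - 1 : ℕ) : ℝ) * ‖g1.coeff (j + 1)‖ ^ 2 +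
      ∑ j ∈ Finset.range N, ((j - 1 : ℕ) : ℝ) *
        (‖f.coeff (j + 1)‖ ^ 2 - ‖h.coeff (j + 1)‖ ^ 2) := by
    rw [← Finset.sum_add_distrib]
    refine Finset.sum_congr rfl fun j _ => ?_
    have := c1 j
    have h5 : ‖f1.coeff j‖ ^ 2 = ‖g1.coeff (j + 1)‖ ^ 2 +
      (‖f.coeff (j + 1)‖ ^ 2 - ‖h.coeff (j + 1)‖ ^ 2) := by linarith
    rw [h5]
    ring
  have e3 : ∑ j ∈ Finset.range N, ((j - 1 : ℕ) : ℝ) * (‖f1.coeff j‖ ^ 2 - ‖g1.coeff j‖ ^ 2) =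
      ∑ j ∈ Finset.range N, ((j - 1 : ℕ) : ℝ) * ‖f1.coeff j‖ ^ 2 -
      ∑ j ∈ Finset.range N, ((j - 1 : ℕ) : ℝ) * ‖g1.coeff j‖ ^ 2 := by
    rw [← Finset.sum_sub_distrib]
    refine Finset.sum_congr rfl fun j _ => ?_
    ring
  have e4 : ∑ j ∈ Finset.range N, ((j - (1 + 1) : ℕ) : ℝ) *
        (‖f.coeff j‖ ^ 2 - ‖h.coeff j‖ ^ 2) ≤
      ∑ j ∈ Finset.range N, ((j - 2 : ℕ) : ℝ) * ‖f.coeff j‖ ^ 2 := by
    refine Finset.sum_le_sum fun j _ => ?_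
    have h6 : 0 ≤ ((j - 2 : ℕ) : ℝ) * ‖h.coeff j‖ ^ 2 := by positivity
    have h7 : j - (1 + 1) = j - 2 := rfl
    rw [h7]
    nlinarith
  have e5 : ∑ j ∈ Finset.range N, ((j - (1 + 1) : ℕ) : ℝ) * ‖g1.coeff j‖ ^ 2 ≤
      ∑ j ∈ Finset.range N, ((j - 1 : ℕ) : ℝ) * ‖g1.coeff j‖ ^ 2 := by
    refine Finset.sum_le_sum fun j _ => ?_
    refine mul_le_mul_of_nonneg_right ?_ (sq_nonneg _)
    exact_mod_cast (by omega : j - (1 + 1) ≤ j - 1)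
  have hfin : ∑ j ∈ Finset.range N, (j : ℝ) * ‖f2.coeff j‖ ^ 2 -
      ∑ j ∈ Finset.range N, ((j - 1 : ℕ) : ℝ) * ‖g2.coeff j‖ ^ 2 ≤
      ∑ j ∈ Finset.range N, ((j - 2 : ℕ) : ℝ) * ‖f.coeff j‖ ^ 2 := by
    linarith
  have hfin2 := mul_le_mul_of_nonneg_left hfin (one_div_pos.2 hs).le
  rw [I1, I2, ← hz1]
  linarith

end Pool.Agent.H97.SIM
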