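import Mathlib
import Pool.Agent.H15.Sig.Coeff

/-!
# Sharp integral means for the class Sigma, 2 <= lambda <= 4: definitions

Paper proof (helper97). Everything lives on the unit circle, `e t = exp (i t)`, `av` = mean over
the circle. For `f` with `f 0 = 1` analytic in the unit disc write
`L = av log (|f|^2 + s)`, `II = av [log (1 + |f|^2 / s) * Re (z f' / f)]`.
The Laurent series `F` of class Sigma enters through `S u = u F (1 / u) = 1 + sum b_n u^(n+1)`.

* `l1 y = log (1 + y) / y` (analytic on `y > -1`, `l1 0 = 1`),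
* `uu y = y - log (1 + y)`, `phi y = integral of (1 - l1 v) over 0 <= v <= y`, so
  `y phi' y = uu y`,
* `Lg s g = av log (|g|^2 + s)`,
* `Ig s g k = av [ (l1 (|g|^2 / s) / s) * Re (conj g * k) ]`; here `g t = f (e t)`,
  `k t = e t * f' (e t)`, so that `d/dt g t = i * k t` and `Ig` is the quantity `II` above,
* `Pair s f h`: polynomials with `|h|^2 = |f|^2 + s` on the circle and `h` without zeros in the
  closed unit disc.
-/

open Complex MeasureTheory
open scoped ComplexConjugate Real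

namespace Pool.Agent.H97.SIM

/-- the point `exp (i t)` of the unit circle -/
noncomputable def e (t : ℝ) : ℂ := Complex.exp (t * I)

/-- the mean over the circle -/
noncomputable def av (g : ℝ → ℝ) : ℝ := (2 * π)⁻¹ * ∫ t in (-π)..π, g t

/-- `log (1 + y) / y`, continuously extended by `1` at `0` -/
noncomputable def l1 (y : ℝ) : ℝ := dslope (fun v : ℝ => Real.log (1 + v)) 0 y

/-- `y - log (1 + y)` -/
noncomputable def uu (y : ℝ) : ℝ := y - Real.log (1 + y)

/-- the function with `y * phi' y = uu y`, `phi 0 = 0` -/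
noncomputable def phi (y : ℝ) : ℝ := ∫ v in (0:ℝ)..y, (1 - l1 v)

/-- `av log (|g|^2 + s)` -/
noncomputable def Lg (s : ℝ) (g : ℝ → ℂ) : ℝ := av fun t => Real.log (‖g t‖ ^ 2 + s)

/-- `av [ log (1 + |g|^2 / s) / |g|^2 * Re (conj g * k) ]` -/
noncomputable def Ig (s : ℝ) (g k : ℝ → ℂ) : ℝ :=
  av fun t => l1 (‖g t‖ ^ 2 / s) / s * (conj (g t) * k t).re

/-- a polynomial on the circle -/
noncomputable def pe (p : Polynomial ℂ) (t : ℝ) : ℂ := p.eval (e t)

/-- `z p'(z)` on the circle -/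
noncomputable def pd (p : Polynomial ℂ) (t : ℝ) : ℂ := e t * p.derivative.eval (e t)

/-- the binary entropy function -/
noncomputable def hq (q : ℝ) : ℝ := -(q * Real.log q) - (1 - q) * Real.log (1 - q)

/-- `|h|^2 = |f|^2 + s` on the circle, `h` without zeros in the closed disc -/
structure Pair (s : ℝ) (f h : Polynomial ℂ) : Prop where
  pos : 0 < s
  circ : ∀ t : ℝ, ‖h.eval (e t)‖ ^ 2 = ‖f.eval (e t)‖ ^ 2 + s
  nz : ∀ z : ℂ, ‖z‖ ≤ 1 → h.eval z ≠ 0

/-- `S u = u F (1 / u) = 1 + sum b_n u^(n+1)` -/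
noncomputable def S (b : ℕ → ℂ) (u : ℂ) : ℂ := 1 + u * Pool.Agent.H15.Sig.pw b u

/-- `S` on the circle of radius `x` -/
noncomputable def sx (b : ℕ → ℂ) (x t : ℝ) : ℂ := S b (x * e t)

/-- `u S'(u)` on the circle of radius `x` -/
noncomputable def sd (b : ℕ → ℂ) (x t : ℝ) : ℂ := (x * e t) * deriv (S b) (x * e t)

/-- `sum |b_n|^2 x^(2n+2)` -/
noncomputable def mx (b : ℕ → ℂ) (x : ℝ) : ℝ := ∑' n, ‖b n‖ ^ 2 * x ^ (2 * n + 2)

/-- `sum (n-1) |b_n|^2 x^(2n+2)` (natural subtraction) -/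
noncomputable def Kx (b : ℕ → ℂ) (x : ℝ) : ℝ :=
  ∑' n, ((n - 1 : ℕ) : ℝ) * ‖b n‖ ^ 2 * x ^ (2 * n + 2)

/-- the function `1 + u^2` on the circle of radius `x` -/
noncomputable def gJ (x t : ℝ) : ℂ := 1 + (x * e t) ^ 2

/-- `u` times the derivative of `1 + u^2` on the circle of radius `x` -/
noncomputable def kJ (x t : ℝ) : ℂ := 2 * (x * e t) ^ 2

/-- the parameter `s` along a characteristic -/
noncomputable def sig (k x : ℝ) : ℝ := (1 - 1 / k) * (k * x ^ 4 - 1)

end Pool.Agent.H97.SIM
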