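import Pool.Agent.H97.SIM.EvoD
import Pool.Agent.H97.SIM.JEq

/-!
# Characteristics start at radius one

PROOF. `exists_K`: given `0 < X < 1`, `s > 0` there is `K` with `K X^4 > 1`, `K > 1` and
`sig K X = s`: `K -> (1 - 1/K) (K X^4 - 1)` is continuous, `0` at `K = X^(-4)` and tends to
infinity; intermediate value theorem (or solve the quadratic equation
`X^4 K^2 - (1 + X^4 + s) K + 1 = 0` and take the larger root).
`end_lim`: `x -> av phi (|gJ 1|^2 / sig K x) - av phi (|gJ x|^2 / sig K x)` is continuous at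
`x = 1` (`phi` is continuous on `y >= 0`, `gJ` is jointly continuous, `sig K 1 > 0`; continuity of
parametric integrals over `[-pi, pi]`) and `0` at `x = 1`.
-/

open Complex MeasureTheory Set Filter Topology
open scoped ComplexConjugate Real

namespace Pool.Agent.H97.SIM

theorem exists_K {X s : ℝ} (hX0 : 0 < X) (hX : X < 1) (hs : 0 < s) :
    ∃ K : ℝ, 1 < K ∧ 1 < K * X ^ 4 ∧ sig K X = s := by
  set c : ℝ := X ^ 4 with hc
  have hc0 : 0 < c := by positivity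
  have hc1 : c < 1 := pow_lt_one₀ hX0.le hX (by norm_num)
  set D : ℝ := (1 + c + s) ^ 2 - 4 * c with hD
  have hD1 : (1 - c) ^ 2 < D := by
    rw [hD]
    nlinarith [mul_pos hs hs, mul_pos hs hc0]
  have hD0 : 0 ≤ D := (sq_nonneg _).trans hD1.le
  have hr : 1 - c < Real.sqrt D := Real.lt_sqrt_of_sq_lt hD1
  set K : ℝ := ((1 + c + s) + Real.sqrt D) / (2 * c) with hK
  have hKc : K * c = ((1 + c + s) + Real.sqrt D) / 2 := by
    rw [hK]
    field_simp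
  have h1 : 1 < K * c := by
    rw [hKc]
    linarith
  have hK0 : 0 < K := by
    by_contra h
    have : K * c ≤ 0 := mul_nonpos_of_nonpos_of_nonneg (not_lt.1 h) hc0.le
    linarith
  have hK1 : 1 < K := by nlinarith
  refine ⟨K, hK1, h1, ?_⟩
  have hsq : Real.sqrt D ^ 2 = D := Real.sq_sqrt hD0
  have hq : c * K ^ 2 - (1 + c + s) * K + 1 = 0 := by
    have h2 : c * (c * K ^ 2 - (1 + c + s) * K + 1) = 0 := by
      have h3 : c * (c * K ^ 2 - (1 + c + s) * K + 1) =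
          (K * c) ^ 2 - (1 + c + s) * (K * c) + c := by ring
      rw [h3, hKc]
      nlinarith
    exact (mul_eq_zero.1 h2).resolve_left hc0.ne'
  unfold sig
  rw [← hc]
  field_simp
  nlinarith

private lemma phi_lip {y z : ℝ} (hy : 0 ≤ y) (hz : 0 ≤ z) : phi y ≤ phi z + |y - z| := by
  have h := Convex.norm_image_sub_le_of_norm_hasDerivWithin_le (f := phi)
    (f' := fun v => 1 - l1 v) (C := 1) (s := Ici (0 : ℝ)) (x := z) (y := y)
    (fun v hv => (phi_hasDerivAt hv).hasDerivWithinAt)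
    (fun v hv => by
      have h1 := l1_pos (mem_Ici.1 hv)
      have h2 := l1_le_one (mem_Ici.1 hv)
      rw [Real.norm_eq_abs, abs_le]
      constructor <;> linarith) (convex_Ici 0) hz hy
  rw [one_mul, Real.norm_eq_abs, Real.norm_eq_abs] at h
  have := (abs_le.1 h).2
  linarith

private lemma gJ_le {x : ℝ} (hx0 : 0 ≤ x) (hx : x ≤ 1) (t : ℝ) : ‖gJ x t‖ ≤ 2 := by
  unfold gJ
  refine (norm_add_le _ _).trans ?_
  rw [norm_one, norm_pow, norm_mul, norm_e, mul_one, Complex.norm_real, Real.norm_of_nonneg hx0]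
  have : x ^ 2 ≤ 1 := pow_le_one₀ hx0 hx
  linarith

private lemma gJ_sub {x : ℝ} (hx0 : 0 ≤ x) (hx : x ≤ 1) (t : ℝ) :
    ‖gJ 1 t - gJ x t‖ ≤ 1 - x ^ 2 := by
  unfold gJ
  have h : (1 + (((1 : ℝ) : ℂ) * e t) ^ 2) - (1 + ((x : ℂ) * e t) ^ 2) =
      ((1 - x ^ 2 : ℝ) : ℂ) * e t ^ 2 := by
    push_cast
    ring
  rw [h, norm_mul, norm_pow, norm_e, one_pow, mul_one, Complex.norm_real, Real.norm_of_nonneg]
  have : x ^ 2 ≤ 1 := pow_le_one₀ hx0 hx
  linarith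

private lemma sq_sub {x : ℝ} (hx0 : 0 ≤ x) (hx : x ≤ 1) (t : ℝ) :
    |‖gJ 1 t‖ ^ 2 - ‖gJ x t‖ ^ 2| ≤ 4 * (1 - x ^ 2) := by
  have h1 : ‖gJ 1 t‖ ^ 2 - ‖gJ x t‖ ^ 2 =
      (‖gJ 1 t‖ - ‖gJ x t‖) * (‖gJ 1 t‖ + ‖gJ x t‖) := by ring
  have h2 := (abs_norm_sub_norm_le (gJ 1 t) (gJ x t)).trans (gJ_sub hx0 hx t)
  have h3 := gJ_le (zero_le_one) le_rfl t
  have h4 := gJ_le hx0 hx t
  have h5 := norm_nonneg (gJ 1 t)
  have h6 := norm_nonneg (gJ x t)
  rw [h1, abs_mul, abs_of_nonneg (add_nonneg h5 h6)]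
  have h7 := abs_nonneg (‖gJ 1 t‖ - ‖gJ x t‖)
  nlinarith

private lemma phi_cont {x c : ℝ} (hc : 0 < c) : Continuous fun t => phi (‖gJ x t‖ ^ 2 / c) := by
  refine phi_contOn.comp_continuous ?_ fun t => ?_
  · exact ((gJ_continuous x).norm.pow 2).div_const c
  · exact mem_Ici.2 (div_nonneg (sq_nonneg _) hc.le)

theorem end_lim {K ε : ℝ} (hK : 1 < K) (hε : 0 < ε) : ∃ x1 : ℝ, x1 < 1 ∧ 1 < K * x1 ^ 4 ∧ 0 < x1 ∧
    ∀ x, x1 < x → x < 1 → av (fun t => phi (‖gJ 1 t‖ ^ 2 / sig K x)) ≤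
      av (fun t => phi (‖gJ x t‖ ^ 2 / sig K x)) + ε := by
  have hK0 : 0 < K := by linarith
  have hc : Continuous fun x : ℝ => sig K x := by
    unfold sig
    fun_prop
  have hs1 : 0 < sig K 1 := by
    unfold sig
    have h1 : 1 / K < 1 := by
      rw [div_lt_one hK0]
      exact hK
    have h2 : 0 < K * 1 ^ 4 - 1 := by linarith
    exact mul_pos (by linarith) h2
  have e1 : ∀ᶠ x in 𝓝 (1 : ℝ), 0 < x := eventually_gt_nhds zero_lt_one
  have e2 : ∀ᶠ x in 𝓝 (1 : ℝ), 1 < K * x ^ 4 := by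
    have hc2 : Continuous fun x : ℝ => K * x ^ 4 := by fun_prop
    exact (hc2.tendsto 1).eventually (lt_mem_nhds (by simpa using hK))
  have e3 : ∀ᶠ x in 𝓝 (1 : ℝ), sig K 1 / 2 < sig K x :=
    (hc.tendsto 1).eventually (lt_mem_nhds (by linarith))
  have e4 : ∀ᶠ x in 𝓝 (1 : ℝ), 4 * (1 - x ^ 2) < ε * (sig K 1 / 2) := by
    have hc4 : Continuous fun x : ℝ => 4 * (1 - x ^ 2) := by fun_prop
    refine (hc4.tendsto 1).eventually (gt_mem_nhds ?_)
    have : 0 < ε * (sig K 1 / 2) := by positivity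
    simpa using this
  have e5 : ∀ᶠ x in 𝓝[<] (1 : ℝ), 0 < x ∧ 1 < K * x ^ 4 ∧ sig K 1 / 2 < sig K x ∧
      4 * (1 - x ^ 2) < ε * (sig K 1 / 2) := by
    have h := e1.and (e2.and (e3.and e4))
    exact h.filter_mono nhdsWithin_le_nhds
  obtain ⟨l, hl, hsub⟩ := (mem_nhdsLT_iff_exists_Ioo_subset).1 e5
  have hl1 : l < 1 := hl
  refine ⟨(l + 1) / 2, by linarith, ?_, ?_, ?_⟩
  · exact (hsub ⟨by linarith, by linarith⟩ : _ ∧ _).2.1
  · exact (hsub ⟨by linarith, by linarith⟩ : _ ∧ _).1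
  · intro x hx1 hx2
    obtain ⟨h0, -, h3, h4⟩ := (hsub ⟨by linarith, hx2⟩ : _ ∧ _)
    have hsx : 0 < sig K x := by linarith
    have hp : Continuous fun t => phi (‖gJ x t‖ ^ 2 / sig K x) := phi_cont hsx
    have h5 : av (fun t => phi (‖gJ x t‖ ^ 2 / sig K x)) + ε =
        av (fun t => phi (‖gJ x t‖ ^ 2 / sig K x) + ε) := by
      rw [av_add hp continuous_const, av_const]
    rw [h5]
    refine av_mono (phi_cont hsx) (hp.add continuous_const) fun t => ?_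
    have h6 := phi_lip (y := ‖gJ 1 t‖ ^ 2 / sig K x) (z := ‖gJ x t‖ ^ 2 / sig K x)
      (div_nonneg (sq_nonneg _) hsx.le) (div_nonneg (sq_nonneg _) hsx.le)
    have h7 : |‖gJ 1 t‖ ^ 2 / sig K x - ‖gJ x t‖ ^ 2 / sig K x| ≤ ε := by
      rw [← sub_div, abs_div, abs_of_pos hsx, div_le_iff₀ hsx]
      refine (sq_sub h0.le hx2.le t).trans ?_
      nlinarith
    linarith

end Pool.Agent.H97.SIM
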