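import Pool.Agent.H97.SIM.EvoI
import Pool.Agent.H97.SIM.Phi

/-!
# Monotonicity along characteristics

PROOF. `sx b` (with `k = sd b`) and `gJ` (with `k = kJ`) satisfy the hypotheses of `evo_deriv` on
`(x0, 1)` for every `x0` with `K x0^4 > 1` (`d_x S(x e) = e S'(x e) = sd / x`,
`d_x gJ = 2 x e^2 = kJ / x`; joint continuity in `(x, t)` from `S_diffOn`). For a given `x` with
`K x^4 > 1` choose `x0 < x` with `K x0^4 > 1` (or apply the derivative formula on `(x0, 1)` with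
`x0` slightly smaller). So `Df b K` has at every such point the derivative `evD_S - evD_J`, which is
`>= 0` by `evD_ineq` and `mx_le` (`> 0` by `mx_lt`); `monotoneOn_of_deriv_nonneg`,
`strictMonoOn_of_deriv_pos` on the interval `[x, y]`.
-/

open Complex MeasureTheory Set Filter Topology
open scoped ComplexConjugate Real

namespace Pool.Agent.H97.SIM

open Pool.Agent.H15.Sig

variable {F : ℂ → ℂ} {b : ℕ → ℂ}

/-- the difference along a characteristic -/
noncomputable def Df (b : ℕ → ℂ) (K x : ℝ) : ℝ :=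
  av (fun t => phi (‖sx b x t‖ ^ 2 / sig K x)) - av (fun t => phi (‖gJ x t‖ ^ 2 / sig K x))

private theorem mem_ball_xe {x : ℝ} (hx0 : 0 < x) (hx : x < 1) (t : ℝ) :
    (x : ℂ) * e t ∈ Metric.ball (0 : ℂ) 1 := by
  rw [mem_ball_zero_iff, norm_xe hx0]; exact hx

private theorem xe_hasDerivAt (x t : ℝ) :
    HasDerivAt (fun y : ℝ => (y : ℂ) * e t) (e t) x := by
  have h := (Complex.ofRealCLM.hasDerivAt (x := x)).mul_const (e t)
  simpa using h

private theorem xe_cont : Continuous (fun p : ℝ × ℝ => (p.1 : ℂ) * e p.2) :=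
  (Complex.continuous_ofReal.comp continuous_fst).mul (continuous_e.comp continuous_snd)

private theorem sx_hasDerivAt (h : IsSig F b) {x : ℝ} (hx0 : 0 < x) (hx : x < 1) (t : ℝ) :
    HasDerivAt (fun y => sx b y t) (sd b x t / x) x := by
  have h1 : HasDerivAt (S b) (deriv (S b) (x * e t)) (x * e t) :=
    ((S_diffOn h).differentiableAt (Metric.isOpen_ball.mem_nhds
      (mem_ball_xe hx0 hx t))).hasDerivAt
  have h2 := h1.comp x (xe_hasDerivAt x t)
  have hx' : (x : ℂ) ≠ 0 := by exact_mod_cast hx0.ne'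
  have e1 : sd b x t / x = deriv (S b) (x * e t) * e t := by
    rw [sd]; field_simp
  rw [e1]
  exact h2

private theorem gJ_hasDerivAt {x : ℝ} (hx0 : 0 < x) (t : ℝ) :
    HasDerivAt (fun y => gJ y t) (kJ x t / x) x := by
  have h2 := ((xe_hasDerivAt x t).pow 2).const_add 1
  have hx' : (x : ℂ) ≠ 0 := by exact_mod_cast hx0.ne'
  have e1 : kJ x t / x = (2 : ℕ) * ((x : ℂ) * e t) ^ (2 - 1) * e t := by
    rw [kJ]; field_simp; push_cast; ring
  rw [e1]
  exact h2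

private theorem Df_hasDerivAt (h : IsSig F b) {K x0 : ℝ} (hK : 1 < K) (hx0 : 0 < x0)
    (hKx : 1 < K * x0 ^ 4) {x : ℝ} (hx : x ∈ Ioo x0 1) :
    HasDerivAt (Df b K) (evD K x (sx b x) (sd b x) - evD K x (gJ x) (kJ x)) x := by
  have hm : MapsTo (fun p : ℝ × ℝ => (p.1 : ℂ) * e p.2) (Ioo x0 1 ×ˢ univ)
      (Metric.ball (0 : ℂ) 1) := by
    rintro ⟨a, t⟩ ⟨ha, -⟩
    exact mem_ball_xe (hx0.trans ha.1) ha.2 t
  have c1 : ContinuousOn (fun p : ℝ × ℝ => sx b p.1 p.2) (Ioo x0 1 ×ˢ univ) :=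
    (S_diffOn h).continuousOn.comp xe_cont.continuousOn hm
  have c2 : ContinuousOn (fun p : ℝ × ℝ => sd b p.1 p.2) (Ioo x0 1 ×ˢ univ) :=
    xe_cont.continuousOn.mul
      (((S_diffOn h).deriv Metric.isOpen_ball).continuousOn.comp xe_cont.continuousOn hm)
  have c3 : ContinuousOn (fun p : ℝ × ℝ => gJ p.1 p.2) (Ioo x0 1 ×ˢ univ) :=
    (continuous_const.add (xe_cont.pow 2)).continuousOn
  have c4 : ContinuousOn (fun p : ℝ × ℝ => kJ p.1 p.2) (Ioo x0 1 ×ˢ univ) :=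
    (continuous_const.mul (xe_cont.pow 2)).continuousOn
  have d1 := evo_deriv (g := fun y t => sx b y t) (k := fun y t => sd b y t) hK hx0 hKx
    (fun y hy t => sx_hasDerivAt h (hx0.trans hy.1) hy.2 t) c1 c2 hx
  have d2 := evo_deriv (g := fun y t => gJ y t) (k := fun y t => kJ y t) hK hx0 hKx
    (fun y hy t => gJ_hasDerivAt (hx0.trans hy.1) t) c3 c4 hx
  exact d1.sub d2

private theorem exists_x0 {K x : ℝ} (hx0 : 0 < x) (hKx : 1 < K * x ^ 4) :
    ∃ x0, 0 < x0 ∧ x0 < x ∧ 1 < K * x0 ^ 4 := by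
  have hc : ContinuousAt (fun y : ℝ => K * y ^ 4) x := by fun_prop
  have h1 : ∀ᶠ y in 𝓝 x, 1 < K * y ^ 4 := hc.eventually (lt_mem_nhds hKx)
  have h2 : ∀ᶠ y in 𝓝 x, 0 < y := lt_mem_nhds hx0
  have h3 : ∀ᶠ y in 𝓝[<] x, y < x := self_mem_nhdsWithin
  obtain ⟨y, hy1, hy2, hy3⟩ :=
    (h3.and (((h1.and h2).filter_mono nhdsWithin_le_nhds))).exists
  exact ⟨y, hy3, hy1, hy2⟩

private theorem coef_pos {K x0 z : ℝ} (hK : 1 < K) (hx0 : 0 < x0) (hKx : 1 < K * x0 ^ 4)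
    (hz : x0 < z) :
    1 < K * z ^ 4 ∧ 0 < (1 / z) * (4 * (1 / (K * z ^ 4)) / ((1 - 1 / (K * z ^ 4)) * sig K z)) := by
  have hz0 : 0 < z := hx0.trans hz
  have h1 : 1 < K * z ^ 4 := by
    have : x0 ^ 4 < z ^ 4 := pow_lt_pow_left₀ hz hx0.le (by norm_num)
    nlinarith
  refine ⟨h1, ?_⟩
  have h2 := sig_pos hK h1
  have h3 : 1 / (K * z ^ 4) < 1 := by
    rw [div_lt_one (by linarith)]; exact h1
  have h4 : 0 < 1 - 1 / (K * z ^ 4) := by linarith
  have h5 : 0 < 1 / (K * z ^ 4) := by positivity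
  positivity

theorem evo_mono (h : IsSig F b) {K : ℝ} (hK : 1 < K) {x y : ℝ} (hx0 : 0 < x)
    (hKx : 1 < K * x ^ 4) (hxy : x ≤ y) (hy : y < 1) : Df b K x ≤ Df b K y := by
  obtain ⟨x0, h00, h01, h02⟩ := exists_x0 hx0 hKx
  have hd : ∀ z ∈ Ioo x0 1, HasDerivAt (Df b K)
      (evD K z (sx b z) (sd b z) - evD K z (gJ z) (kJ z)) z := fun z hz =>
    Df_hasDerivAt h hK h00 h02 hz
  have hm : MonotoneOn (Df b K) (Ioo x0 1) := by
    refine monotoneOn_of_deriv_nonneg (convex_Ioo x0 1)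
      (fun z hz => (hd z hz).continuousAt.continuousWithinAt) ?_ ?_
    · rw [interior_Ioo]
      exact fun z hz => (hd z hz).differentiableAt.differentiableWithinAt
    · rw [interior_Ioo]
      intro z hz
      rw [(hd z hz).deriv]
      have hz0 : 0 < z := h00.trans hz.1
      obtain ⟨c1, c2⟩ := coef_pos hK h00 h02 hz.1
      have h1 := evD_ineq h hK hz0 hz.2 c1
      have h2 := mx_le h hz0 hz.2
      refine le_trans ?_ h1
      exact mul_nonneg c2.le (sub_nonneg.2 h2)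
  exact hm ⟨h01, lt_of_le_of_lt hxy hy⟩ ⟨lt_of_lt_of_le h01 hxy, hy⟩ hxy

theorem evo_strict (h : IsSig F b) (hb : ‖b 1‖ < 1) {K : ℝ} (hK : 1 < K) {x y : ℝ} (hx0 : 0 < x)
    (hKx : 1 < K * x ^ 4) (hxy : x < y) (hy : y < 1) : Df b K x < Df b K y := by
  obtain ⟨x0, h00, h01, h02⟩ := exists_x0 hx0 hKx
  have hd : ∀ z ∈ Ioo x0 1, HasDerivAt (Df b K)
      (evD K z (sx b z) (sd b z) - evD K z (gJ z) (kJ z)) z := fun z hz =>
    Df_hasDerivAt h hK h00 h02 hz
  have hm : StrictMonoOn (Df b K) (Ioo x0 1) := by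
    refine strictMonoOn_of_deriv_pos (convex_Ioo x0 1)
      (fun z hz => (hd z hz).continuousAt.continuousWithinAt) ?_
    rw [interior_Ioo]
    intro z hz
    rw [(hd z hz).deriv]
    have hz0 : 0 < z := h00.trans hz.1
    obtain ⟨c1, c2⟩ := coef_pos hK h00 h02 hz.1
    have h1 := evD_ineq h hK hz0 hz.2 c1
    have h2 := mx_lt h hb hz0 hz.2
    refine lt_of_lt_of_le ?_ h1
    exact mul_pos c2 (sub_pos.2 h2)
  exact hm ⟨h01, hxy.trans hy⟩ ⟨h01.trans hxy, hy⟩ hxy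

end Pool.Agent.H97.SIM
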