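import Pool.Agent.H97.SIM.EvoD
import Pool.Agent.H97.SIM.LimB
import Pool.Agent.H97.SIM.JEq

/-!
# The evolution inequality

PROOF of `evD_ineq`. Let `sg = sig K x`, `q = 1 / (K x^4)`, so `0 < q < 1` and
`(1 - q) (1 - x^4 q) / q = (1 - 1/K) (K x^4 - 1) = sg` (`x^4 q = 1/K`). Write `m = mx b x`,
`Kx = Kx b x`. For `S`: `av Re (conj S u S') = Kx + 2 m`, `av |S|^2 = 1 + m`; `lin_core` (times
`4 / (1 - q)`) gives `(4/(1-q)) L - 2 I >= (4/(1-q)) hq q + 4 log sg - 2 Kx / sg`. So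
`x evD_S >= 4 m / sg + (4/(1-q)) hq q + 4 log sg - (4/(1-q)) ((1 + m) / sg + log sg)`.
For `1 + u^2`: `av Re = 2 x^4`, `av |.|^2 = 1 + x^4`, `L = - log q`, `I = 2 log ((1-q)/(q sg))`:
`x evD_J = 4 x^4 / sg - 4 log ((1-q)/(q sg)) - (4/(1-q)) ((1 + x^4)/sg + log q + log sg)`.
`(4/(1-q)) hq q = - (4 q/(1-q)) log q - 4 log (1-q)`. The difference is
`x (evD_S - evD_J) >= (4/sg)(m - x^4) - (4/((1-q) sg)) (m - x^4) = (4 q/((1-q) sg)) (x^4 - m)`.
`evo_mono`: `sx b` and `gJ` satisfy the hypotheses of `evo_deriv` on `(K^(-1/4), 1)`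
(`d_x S(x e) = e S'(x e) = sd / x`), so `D x = av phi (|S|^2/sig) - av phi (|gJ|^2/sig)` has
derivative `evD_S - evD_J >= 0` there; monotone. Strict version with `mx_lt`.
-/

open Complex MeasureTheory Set Filter Topology
open scoped ComplexConjugate Real

namespace Pool.Agent.H97.SIM

open Pool.Agent.H15.Sig

variable {F : ℂ → ℂ} {b : ℕ → ℂ}

theorem evD_ineq (h : IsSig F b) {K x : ℝ} (hK : 1 < K) (hx0 : 0 < x) (hx : x < 1)
    (hKx : 1 < K * x ^ 4) :
    (1 / x) * (4 * (1 / (K * x ^ 4)) / ((1 - 1 / (K * x ^ 4)) * sig K x)) * (x ^ 4 - mx b x) ≤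
      evD K x (sx b x) (sd b x) - evD K x (gJ x) (kJ x) := by
  have hx4 : 0 < x ^ 4 := by positivity
  have hK0 : 0 < K := by linarith
  have hsg : 0 < sig K x := sig_pos hK hKx
  have hq0 : 0 < 1 / (K * x ^ 4) := by positivity
  have hq1 : 1 / (K * x ^ 4) < 1 := by
    rw [div_lt_one (by positivity)]
    exact hKx
  have hsq : sig K x = (1 - 1 / (K * x ^ 4)) * (1 - x ^ 4 * (1 / (K * x ^ 4))) /
      (1 / (K * x ^ 4)) := by
    unfold sig
    field_simp
  have hlin := lin_core h hx0 hx hsg hq0 hq1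
  have hL : Lg (sig K x) (gJ x) = -Real.log (1 / (K * x ^ 4)) := by
    have := J_L hx0 hx.le hq0 hq1
    rw [← hsq] at this
    exact this
  have hI := J_I (s := sig K x) hx0 hx.le hq0 hq1 hsq
  unfold evD
  rw [av_sx_sd h hx0 hx, av_sx_sq h hx0 hx, J_k, J_sq, hL, hI]
  generalize Lg (sig K x) (sx b x) = L at *
  generalize Ig (sig K x) (sx b x) (sd b x) = J at *
  generalize sig K x = sg at *
  generalize 1 / (K * x ^ 4) = q at *
  generalize Kx b x = k at *
  generalize mx b x = m at *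
  have h1q : 0 < 1 - q := by linarith
  rw [Real.log_div (by positivity) (by positivity), Real.log_mul (by positivity) (by positivity)]
  unfold hq at hlin
  have hlin2 := mul_le_mul_of_nonneg_left hlin (show 0 ≤ 4 / (1 - q) by positivity)
  have key : 4 * q / ((1 - q) * sg) * (x ^ 4 - m) ≤
      (2 / sg * (k + 2 * m) - 2 * J - 4 / (1 - q) * ((1 + m) / sg - L + Real.log sg)) -
      (2 / sg * (2 * x ^ 4) - 2 * (2 * (Real.log (1 - q) - (Real.log q + Real.log sg))) -
        4 / (1 - q) * ((1 + x ^ 4) / sg - -Real.log q + Real.log sg)) := by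
    rw [← sub_nonneg] at hlin2 ⊢
    refine le_of_le_of_eq hlin2 ?_
    field_simp
    ring
  have hxx : 0 < 1 / x := by positivity
  have h3 := mul_le_mul_of_nonneg_left key hxx.le
  calc _ = 1 / x * (4 * q / ((1 - q) * sg) * (x ^ 4 - m)) := by ring
    _ ≤ _ := h3
    _ = _ := by ring

end Pool.Agent.H97.SIM
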