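import Pool.Agent.H97.SIM.Fin
import Pool.Agent.H97.SIM.Six

/-!
# The final theorem for `2 <= lam <= 4` and `lam = 6`
-/

open Complex MeasureTheory Set Filter Topology
open scoped ComplexConjugate Real

namespace Pool.Agent.H97.SIM

open Pool.Agent.H15.Sig

variable {F : ℂ → ℂ} {b : ℕ → ℂ}

theorem av_six_eq (g : ℝ → ℂ) : av (fun t => ‖g t‖ ^ (6:ℝ)) = av (fun t => ‖g t‖ ^ 6) := by
  congr 1
  funext t
  exact_mod_cast Real.rpow_natCast ‖g t‖ 6

theorem all_le (h : IsSig F b) {lam r : ℝ} (hl : (2 ≤ lam ∧ lam ≤ 4) ∨ lam = 6) (hr : 1 < r) :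
    integralMean lam r F ≤ integralMean lam r (fun z => z + z⁻¹) := by
  rcases hl with ⟨h2, h4⟩ | h6
  · exact fin_le h h2 h4 hr
  · subst h6
    have hr0 : 0 < r := by linarith
    have hx0 : 0 < r⁻¹ := inv_pos.2 hr0
    have hx : r⁻¹ < 1 := inv_lt_one_of_one_lt₀ hr
    rw [mean_S h (by norm_num) hr, mean_J (by norm_num) hr, av_six_eq, av_six_eq]
    have h1 := six_le h hx0 hx
    have h0 : 0 ≤ av (fun t => ‖sx b r⁻¹ t‖ ^ 6) := av_nonneg fun t => by positivity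
    apply Real.rpow_le_rpow (by positivity) _ (by norm_num)
    exact mul_le_mul_of_nonneg_left h1 (by positivity)

theorem all_lt (h : IsSig F b) (hb : ‖b 1‖ < 1) {lam r : ℝ}
    (hl : (2 ≤ lam ∧ lam ≤ 4) ∨ lam = 6) (hr : 1 < r) :
    integralMean lam r F < integralMean lam r (fun z => z + z⁻¹) := by
  rcases hl with ⟨h2, h4⟩ | h6
  · exact fin_lt h hb h2 h4 hr
  · subst h6
    have hr0 : 0 < r := by linarith
    have hx0 : 0 < r⁻¹ := inv_pos.2 hr0
    have hx : r⁻¹ < 1 := inv_lt_one_of_one_lt₀ hr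
    rw [mean_S h (by norm_num) hr, mean_J (by norm_num) hr, av_six_eq, av_six_eq]
    have h1 := six_strict h hb hx0 hx
    have h0 : 0 ≤ av (fun t => ‖sx b r⁻¹ t‖ ^ 6) := av_nonneg fun t => by positivity
    apply Real.rpow_lt_rpow (by positivity) _ (by norm_num)
    exact mul_lt_mul_of_pos_left h1 (by positivity)

theorem all {lam r : ℝ} (hl : (2 ≤ lam ∧ lam ≤ 4) ∨ lam = 6) (hr : 1 < r) :
    IsGreatest {x : ℝ | ∃ F : ℂ → ℂ, ClassSigma F ∧ x = integralMean lam r F}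
      (integralMean lam r (fun z => z + z⁻¹)) ∧
    ∀ F : ℂ → ℂ, ClassSigma F →
      (integralMean lam r F = integralMean lam r (fun z => z + z⁻¹) ↔
        ∃ c : ℂ, ‖c‖ = 1 ∧ ∀ z : ℂ, 1 < ‖z‖ → F z = z + c / z) := by
  refine ⟨⟨⟨_, classSigma_J, rfl⟩, ?_⟩, ?_⟩
  · rintro x ⟨F, hF, rfl⟩
    obtain ⟨b, hb⟩ := hF.isSig
    exact all_le hb hl hr
  · intro F hF
    obtain ⟨b, hb⟩ := hF.isSig
    constructor
    · intro he
      by_cases h1 : ‖b 1‖ < 1
      · exact absurd he (all_lt hb h1 hl hr).ne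
      · exact ⟨b 1, hb.eq_of_norm_one h1⟩
    · rintro ⟨c, hc, hF'⟩
      exact integralMean_rotJ hc hF' hr

end Pool.Agent.H97.SIM
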