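import Pool.Agent.H97.SIM.Step

/-!
# The bound `Ig f <= (1/s) (sum j |f_j|^2 - sum (j-1) |h_j|^2)`

PROOF by strong induction on `N`, for all pairs with `natDegree f < N` (sums over `range N`;
`natDegree h <= natDegree f` by `Pair.deg`, so all coefficients of index `>= N` vanish; the sums
over a larger range are the same). If `natDegree f = 0`: `pd f = 0`, so `Ig f = 0`, and the right
side is `0` (only `j = 0` contributes, with factors `0`).
Otherwise take `(f1, h1)` from `Pair.step`; `natDegree f1 < N - 1`. Then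
`Ig f = log (|h1_0|^2 / s) + Ig f1` (`Pair.tau`), `log y <= y - 1`, and by `Pair.parseval`
`|h1_0|^2 - s = sum_j |f1_j|^2 - sum_(j>=1) |h1_j|^2`. With the induction hypothesis for `f1`:
`s Ig f <= sum_j (j+1) |f1_j|^2 - sum_(j>=1) j |h1_j|^2`. Insert
`|f1_j|^2 = |h1_(j+1)|^2 + |f_(j+1)|^2 - |h_(j+1)|^2`:
`= sum_(j>=1) j (|f_j|^2 - |h_j|^2) <= sum j |f_j|^2 - sum (j-1) |h_j|^2`.
(`((j - 1 : ℕ) : ℝ)` is natural subtraction.)
-/

open Complex MeasureTheory Set Polynomial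
open scoped ComplexConjugate Real

namespace Pool.Agent.H97.SIM

variable {s : ℝ} {f h : ℂ[X]}

theorem Ig_const (hs : 0 < s) (hf : f.natDegree = 0) : Ig s (pe f) (pd f) = 0 := by
  have h1 : f.derivative = 0 := by
    rw [eq_C_of_natDegree_eq_zero hf, derivative_C]
  have h2 : ∀ t, l1 (‖pe f t‖ ^ 2 / s) / s * (conj (pe f t) * pd f t).re = 0 := by
    intro t
    have h3 : pd f t = 0 := by
      unfold pd
      rw [h1, eval_zero, mul_zero]
    rw [h3, mul_zero, Complex.zero_re, mul_zero]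
  unfold Ig
  rw [av_congr h2, av_const]

private theorem bound_step {M : ℕ} {a b c d : ℕ → ℝ} {sv x I1 I0 : ℝ} (hb : ∀ j, 0 ≤ b j)
    (hx : x = d 0) (hd : d (M + 1) = 0)
    (hP : ∑ j ∈ Finset.range (M + 1), d j = ∑ j ∈ Finset.range (M + 1), c j + sv)
    (hcd : ∀ j, c j - d (j + 1) = a (j + 1) - b (j + 1))
    (hI0 : I0 ≤ x - sv + I1)
    (hI1 : I1 ≤ ∑ j ∈ Finset.range (M + 1), (j : ℝ) * c j -
      ∑ j ∈ Finset.range (M + 1), ((j - 1 : ℕ) : ℝ) * d j) :
    I0 ≤ ∑ j ∈ Finset.range (M + 1 + 1), (j : ℝ) * a j -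
      ∑ j ∈ Finset.range (M + 1 + 1), ((j - 1 : ℕ) : ℝ) * b j := by
  have e1 : ∑ j ∈ Finset.range (M + 1 + 1), (j : ℝ) * a j =
      ∑ j ∈ Finset.range (M + 1), ((j : ℝ) + 1) * a (j + 1) := by
    rw [Finset.sum_range_succ']
    simp
  have e2 : ∑ j ∈ Finset.range (M + 1 + 1), ((j - 1 : ℕ) : ℝ) * b j =
      ∑ j ∈ Finset.range (M + 1), (j : ℝ) * b (j + 1) := by
    rw [Finset.sum_range_succ']
    simp
  have e3 : ∑ j ∈ Finset.range (M + 1), ((j - 1 : ℕ) : ℝ) * d j =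
      ∑ j ∈ Finset.range M, (j : ℝ) * d (j + 1) := by
    rw [Finset.sum_range_succ']
    simp
  have e4 : ∑ j ∈ Finset.range (M + 1), (j : ℝ) * d (j + 1) =
      ∑ j ∈ Finset.range M, (j : ℝ) * d (j + 1) := by
    rw [Finset.sum_range_succ, hd]
    simp
  have e5 : ∑ j ∈ Finset.range (M + 1), d j =
      ∑ j ∈ Finset.range (M + 1), d (j + 1) + d 0 := by
    rw [Finset.sum_range_succ', Finset.sum_range_succ (fun j => d (j + 1)), hd, add_zero]
  have e6 : ∑ j ∈ Finset.range (M + 1), ((j : ℝ) + 1) * (c j - d (j + 1)) =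
      ∑ j ∈ Finset.range (M + 1), ((j : ℝ) + 1) * (a (j + 1) - b (j + 1)) :=
    Finset.sum_congr rfl fun j _ => by rw [hcd]
  have e7 : ∑ j ∈ Finset.range (M + 1), ((j : ℝ) + 1) * (c j - d (j + 1)) =
      ∑ j ∈ Finset.range (M + 1), (j : ℝ) * c j + ∑ j ∈ Finset.range (M + 1), c j -
        ∑ j ∈ Finset.range (M + 1), (j : ℝ) * d (j + 1) -
        ∑ j ∈ Finset.range (M + 1), d (j + 1) := by
    rw [← Finset.sum_add_distrib, ← Finset.sum_sub_distrib, ← Finset.sum_sub_distrib]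
    exact Finset.sum_congr rfl fun j _ => by ring
  have e8 : ∑ j ∈ Finset.range (M + 1), ((j : ℝ) + 1) * (a (j + 1) - b (j + 1)) =
      ∑ j ∈ Finset.range (M + 1), ((j : ℝ) + 1) * a (j + 1) -
        ∑ j ∈ Finset.range (M + 1), (j : ℝ) * b (j + 1) -
        ∑ j ∈ Finset.range (M + 1), b (j + 1) := by
    rw [← Finset.sum_sub_distrib, ← Finset.sum_sub_distrib]
    exact Finset.sum_congr rfl fun j _ => by ring
  have e9 : 0 ≤ ∑ j ∈ Finset.range (M + 1), b (j + 1) := Finset.sum_nonneg fun j _ => hb _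
  rw [e1, e2]
  rw [e3] at hI1
  rw [e5] at hP
  linarith

theorem Pair.bound (N : ℕ) : ∀ {f h : ℂ[X]}, Pair s f h → f.natDegree < N →
    Ig s (pe f) (pd f) ≤ (1 / s) * (∑ j ∈ Finset.range N, (j : ℝ) * ‖f.coeff j‖ ^ 2 -
      ∑ j ∈ Finset.range N, ((j - 1 : ℕ) : ℝ) * ‖h.coeff j‖ ^ 2) := by
  induction N with
  | zero =>
    intro f h P hN
    exact absurd hN (Nat.not_lt_zero _)
  | succ N ih =>
    intro f h P hN
    have hs := P.pos
    rcases Nat.eq_zero_or_pos N with hN0 | hN0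
    · subst hN0
      rw [Ig_const hs (by omega)]
      simp
    · obtain ⟨M, rfl⟩ := Nat.exists_eq_add_of_le' hN0
      obtain ⟨f1, h1, P1, hdeg, hcd, -, hI⟩ := P.step
      have hN1 : f1.natDegree < M + 1 := by omega
      have hI1 := ih P1 hN1
      rw [one_div_mul_eq_div, le_div_iff₀' hs] at hI1 ⊢
      have hlt := P1.lt0
      have hpos : 0 < ‖h1.coeff 0‖ ^ 2 / s :=
        div_pos (pow_pos ((norm_nonneg _).trans_lt hlt) 2) hs
      have hlog := Real.log_le_sub_one_of_pos hpos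
      rw [P1.tau] at hI
      have hI0 : s * Ig s (pe f) (pd f) ≤ ‖h1.coeff 0‖ ^ 2 - s + s * Ig s (pe f1) (pd f1) := by
        rw [hI, mul_add]
        have h3 := mul_le_mul_of_nonneg_left hlog hs.le
        have h4 : s * (‖h1.coeff 0‖ ^ 2 / s - 1) = ‖h1.coeff 0‖ ^ 2 - s := by
          rw [mul_sub, mul_div_cancel₀ _ hs.ne', mul_one]
        linarith
      have hd : ‖h1.coeff (M + 1)‖ ^ 2 = 0 := by
        rw [coeff_eq_zero_of_natDegree_lt (lt_of_le_of_lt P1.deg hN1), norm_zero]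
        norm_num
      exact bound_step (a := fun j => ‖f.coeff j‖ ^ 2) (b := fun j => ‖h.coeff j‖ ^ 2)
        (c := fun j => ‖f1.coeff j‖ ^ 2) (d := fun j => ‖h1.coeff j‖ ^ 2)
        (fun j => sq_nonneg _) rfl hd (P1.parseval hN1) hcd hI0 hI1

end Pool.Agent.H97.SIM
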