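import Pool.Agent.H97.SIM.Lin
import Pool.Agent.H97.SIM.Mom

/-!
# The linearised core inequality for the class Sigma

PROOF. Let `p_N = 1 + sum_(n<N) b_n x^(n+1) X^(n+1)`. On the circle `pe p_N -> sx b x` and
`pd p_N -> sd b x` uniformly (`sum (n+1) |b_n| x^(n+1) < oo`, `Rep.norm_summable_nat`), so
`Lg s (pe p_N) -> Lg s (sx b x)`, `Ig s (pe p_N) (pd p_N) -> Ig s (sx b x) (sd b x)` (dominated
convergence: everything is bounded, `log (|.|^2 + s)` and `l1 (|.|^2 / s)` are continuous), and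
`sum_(j < N+1) (j-2)_+ |coeff j p_N|^2 = sum_(n<N) (n-1)_+ |b_n|^2 x^(2n+2) -> Kx b x`.
Apply `lin_poly` with `N + 1` and pass to the limit (`le_of_tendsto`).
-/

open Complex MeasureTheory Set Filter Topology Polynomial
open scoped ComplexConjugate Real

namespace Pool.Agent.H97.SIM

open Pool.Agent.H15.Sig

variable {F : ℂ → ℂ} {b : ℕ → ℂ}

/-- the truncated polynomial -/
noncomputable def pN (b : ℕ → ℂ) (x : ℝ) (N : ℕ) : ℂ[X] :=
  1 + ∑ n ∈ Finset.range N, C (b n * (x : ℂ) ^ (n + 1)) * X ^ (n + 1)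

theorem pN_natDegree (b : ℕ → ℂ) (x : ℝ) (N : ℕ) : (pN b x N).natDegree < N + 1 := by
  unfold pN
  refine Nat.lt_succ_of_le ((natDegree_add_le _ _).trans (max_le ?_ ?_))
  · rw [natDegree_one]
    exact Nat.zero_le _
  · refine natDegree_sum_le_of_forall_le _ _ ?_
    intro n hn
    refine (natDegree_C_mul_X_pow_le _ _).trans ?_
    exact Finset.mem_range.1 hn

theorem pN_coeff_zero (b : ℕ → ℂ) (x : ℝ) (N : ℕ) : (pN b x N).coeff 0 = 1 := by
  unfold pN
  rw [coeff_add, coeff_one_zero, finsetSum_coeff, Finset.sum_eq_zero, add_zero]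
  intro n _
  rw [coeff_C_mul_X_pow, if_neg (by omega)]

theorem pN_coeff_succ (b : ℕ → ℂ) (x : ℝ) (N n : ℕ) (hn : n < N) :
    (pN b x N).coeff (n + 1) = b n * (x : ℂ) ^ (n + 1) := by
  unfold pN
  rw [coeff_add, coeff_one, if_neg (by omega), zero_add, finsetSum_coeff,
    Finset.sum_eq_single n]
  · rw [coeff_C_mul_X_pow, if_pos rfl]
  · intro m _ hm
    rw [coeff_C_mul_X_pow, if_neg (by omega)]
  · intro h
    exact absurd (Finset.mem_range.2 hn) h

private theorem lim_norm_u {x : ℝ} (hx0 : 0 < x) (t : ℝ) : ‖(x : ℂ) * e t‖ = x := by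
  rw [norm_mul, norm_e, mul_one, Complex.norm_real, Real.norm_eq_abs, abs_of_pos hx0]

private theorem lim_summable (h : IsSig F b) {x : ℝ} (hx0 : 0 < x) (hx : x < 1) :
    Summable fun n : ℕ => ((n : ℝ) + 1) * ‖b n‖ * x ^ (n + 1) := by
  have h1 := (h.rep_sps).norm_summable_nat hx0.le hx
  rw [← summable_nat_add_iff 1] at h1
  refine h1.congr fun n => ?_
  have h2 : PowerSeries.coeff (n + 1) (sps b) = b n := by
    unfold sps
    rw [map_add, PowerSeries.coeff_succ_X_mul, PowerSeries.coeff_mk, PowerSeries.coeff_one,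
      if_neg (by omega), zero_add]
  rw [h2]
  push_cast
  ring

private theorem lim_pe (b : ℕ → ℂ) (x : ℝ) (N : ℕ) (t : ℝ) : pe (pN b x N) t =
    1 + ∑ n ∈ Finset.range N, b n * ((x : ℂ) * e t) ^ (n + 1) := by
  unfold pe pN
  rw [eval_add, eval_one, eval_finsetSum]
  congr 1
  refine Finset.sum_congr rfl fun n _ => ?_
  rw [eval_mul, eval_C, eval_pow, eval_X, mul_pow]
  ring

private theorem lim_pd (b : ℕ → ℂ) (x : ℝ) (N : ℕ) (t : ℝ) : pd (pN b x N) t =
    ∑ n ∈ Finset.range N, ((n : ℂ) + 1) * b n * ((x : ℂ) * e t) ^ (n + 1) := by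
  unfold pd pN
  rw [derivative_add, derivative_one, zero_add, derivative_sum, eval_finsetSum, Finset.mul_sum]
  refine Finset.sum_congr rfl fun n _ => ?_
  rw [derivative_C_mul_X_pow, eval_mul, eval_C, eval_pow, eval_X, mul_pow, Nat.add_sub_cancel,
    pow_succ (e t) n]
  push_cast
  ring

theorem pe_pN_tendsto (h : IsSig F b) {x : ℝ} (hx0 : 0 < x) (hx : x < 1) :
    TendstoUniformly (fun N t => pe (pN b x N) t) (sx b x) atTop := by
  have hs : Summable fun n : ℕ => ‖b n‖ * x ^ (n + 1) := by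
    refine Summable.of_nonneg_of_le (fun n => by positivity) (fun n => ?_) (lim_summable h hx0 hx)
    have h1 : 0 ≤ ‖b n‖ * x ^ (n + 1) := by positivity
    nlinarith [mul_nonneg (Nat.cast_nonneg n : (0 : ℝ) ≤ n) h1]
  have hM := tendstoUniformly_tsum_nat (f := fun (n : ℕ) (t : ℝ) =>
    b n * ((x : ℂ) * e t) ^ (n + 1)) hs (fun n t => by
      rw [norm_mul, norm_pow, lim_norm_u hx0])
  have hsx : ∀ t, sx b x t = 1 + ∑' n, b n * ((x : ℂ) * e t) ^ (n + 1) := by
    intro t
    unfold sx S pw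
    congr 1
    rw [← tsum_mul_left]
    refine tsum_congr fun n => ?_
    ring
  rw [Metric.tendstoUniformly_iff] at hM ⊢
  intro ε hε
  filter_upwards [hM ε hε] with N hN t
  have h1 := hN t
  rw [hsx t, lim_pe, dist_add_left]
  exact h1

theorem pd_pN_tendsto (h : IsSig F b) {x : ℝ} (hx0 : 0 < x) (hx : x < 1) :
    TendstoUniformly (fun N t => pd (pN b x N) t) (sd b x) atTop := by
  have hM := tendstoUniformly_tsum_nat (f := fun (n : ℕ) (t : ℝ) =>
    ((n : ℂ) + 1) * b n * ((x : ℂ) * e t) ^ (n + 1)) (lim_summable h hx0 hx) (fun n t => by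
      rw [norm_mul, norm_mul, norm_pow, lim_norm_u hx0]
      refine le_of_eq ?_
      congr 2
      have : ((n : ℂ) + 1) = ((n + 1 : ℕ) : ℂ) := by push_cast; ring
      rw [this, Complex.norm_natCast]
      push_cast
      ring)
  have hsd : ∀ t, sd b x t = ∑' n : ℕ, ((n : ℂ) + 1) * b n * ((x : ℂ) * e t) ^ (n + 1) := by
    intro t
    have hu : ‖(x : ℂ) * e t‖ < 1 := by rw [lim_norm_u hx0]; exact hx
    obtain ⟨D, hD1, hD2⟩ := h.rep_sps.hasDerivAt hu
    have hD : deriv (S b) ((x : ℂ) * e t) = D := hD1.deriv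
    unfold sd
    rw [hD]
    have h3 := (hasSum_nat_add_iff' 1).2 hD2
    rw [Finset.sum_range_one, Nat.cast_zero, zero_mul, zero_mul, sub_zero] at h3
    rw [mul_comm ((x : ℂ) * e t) D, ← h3.tsum_eq]
    refine tsum_congr fun n => ?_
    have h2 : PowerSeries.coeff (n + 1) (sps b) = b n := by
      unfold sps
      rw [map_add, PowerSeries.coeff_succ_X_mul, PowerSeries.coeff_mk, PowerSeries.coeff_one,
        if_neg (by omega), zero_add]
    rw [h2]
    push_cast
    ring
  rw [Metric.tendstoUniformly_iff] at hM ⊢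
  intro ε hε
  filter_upwards [hM ε hε] with N hN t
  have h1 := hN t
  rw [hsd t, lim_pd]
  exact h1

end Pool.Agent.H97.SIM
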