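import Pool.Agent.H97.SIM.Core

/-!
# The linearised core inequality for polynomials

CLAIM (`f.coeff 0 = 1`, `0 < q < 1`, `K = sum (j-2)_+ |f_j|^2`):
`hq q <= L - (1 - q) (log s + (Ig f - K / s) / 2)`.

PROOF. Let `R = exp (-L)`, `0 < R < 1`. By `core` `Ig f - K / s <= 2 (L + log (1 - R) - log s)`,
so the right side is `>= L - (1 - q) (L + log (1 - R)) = - q log R - (1 - q) log (1 - R)`, which is
`>= hq q = - q log q - (1 - q) log (1 - q)` by Gibbs' inequality: `log y <= y - 1` gives
`q log (R / q) + (1 - q) log ((1 - R) / (1 - q)) <= (R - q) + ((1 - R) - (1 - q)) = 0`.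
-/

open Complex MeasureTheory Set Polynomial
open scoped ComplexConjugate Real

namespace Pool.Agent.H97.SIM

theorem gibbs {q R : ℝ} (hq0 : 0 < q) (hq1 : q < 1) (hR0 : 0 < R) (hR1 : R < 1) :
    hq q ≤ -(q * Real.log R) - (1 - q) * Real.log (1 - R) := by
  have h1 : Real.log R - Real.log q ≤ R / q - 1 := by
    rw [← Real.log_div hR0.ne' hq0.ne']
    exact Real.log_le_sub_one_of_pos (div_pos hR0 hq0)
  have h2 : Real.log (1 - R) - Real.log (1 - q) ≤ (1 - R) / (1 - q) - 1 := by
    rw [← Real.log_div (by linarith) (by linarith)]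
    exact Real.log_le_sub_one_of_pos (div_pos (by linarith) (by linarith))
  have h3 : q * (Real.log R - Real.log q) ≤ R - q := by
    have := mul_le_mul_of_nonneg_left h1 hq0.le
    have e : q * (R / q - 1) = R - q := by field_simp
    linarith
  have h4 : (1 - q) * (Real.log (1 - R) - Real.log (1 - q)) ≤ (1 - R) - (1 - q) := by
    have hq : 0 < 1 - q := by linarith
    have := mul_le_mul_of_nonneg_left h2 hq.le
    have e : (1 - q) * ((1 - R) / (1 - q) - 1) = (1 - R) - (1 - q) := by field_simp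
    linarith
  unfold hq
  nlinarith

theorem lin_poly {s q : ℝ} (hs : 0 < s) (hq0 : 0 < q) (hq1 : q < 1) {f : ℂ[X]}
    (h1 : f.coeff 0 = 1) {N : ℕ} (hN : f.natDegree < N) :
    hq q ≤ Lg s (pe f) - (1 - q) * (Real.log s + (Ig s (pe f) (pd f) -
      (∑ j ∈ Finset.range N, ((j - 2 : ℕ) : ℝ) * ‖f.coeff j‖ ^ 2) / s) / 2) := by
  obtain ⟨hL, hI⟩ := core hs h1 hN
  set L := Lg s (pe f) with hLdef
  set Ke := ∑ j ∈ Finset.range N, ((j - 2 : ℕ) : ℝ) * ‖f.coeff j‖ ^ 2 with hKe
  have hexp : 1 < Real.exp L := Real.one_lt_exp_iff.2 hL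
  have hR0 : 0 < Real.exp (-L) := Real.exp_pos _
  have hR1 : Real.exp (-L) < 1 := by
    rw [Real.exp_lt_one_iff]; linarith
  have hlog : Real.log (1 - Real.exp (-L)) = Real.log (Real.exp L - 1) - L := by
    have e : 1 - Real.exp (-L) = (Real.exp L - 1) / Real.exp L := by
      rw [Real.exp_neg]
      field_simp
    rw [e, Real.log_div (by linarith) (Real.exp_pos L).ne', Real.log_exp]
  have hlogs : Real.log ((Real.exp L - 1) / s) = Real.log (Real.exp L - 1) - Real.log s :=
    Real.log_div (by linarith) hs.ne'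
  have hg := gibbs hq0 hq1 hR0 hR1
  rw [Real.log_exp, hlog] at hg
  rw [hlogs] at hI
  have hq : 0 < 1 - q := by linarith
  have e1 : (1 / s) * Ke = Ke / s := by ring
  rw [e1] at hI
  have h5 : Real.log s + (Ig s (pe f) (pd f) - Ke / s) / 2 ≤ Real.log (Real.exp L - 1) := by
    linarith
  have h6 := mul_le_mul_of_nonneg_left h5 hq.le
  nlinarith

end Pool.Agent.H97.SIM
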