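import Pool.Agent.H97.SIM.Phi

/-!
# Powers as mixtures of `phi (y / s)`

PROOF. Let `1 < p < 2` and `kap p = integral over v > 0 of v^(-p-1) phi v`. The integrand is
positive, continuous on `v > 0`, at most `v^(1-p) / 4` on `(0, 1]` (`phi_le_sq`; integrable since
`1 - p > -1`) and at most `v^(-p)` on `[1, oo)` (`phi_le`; integrable since `-p < -1`). So
`0 < kap p < oo`. For `y > 0` the substitution `s = y / v` gives
`integral over s > 0 of s^(p-1) phi (y/s) ds = y^p kap p` (for `y = 0` both sides are `0`). It is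
convenient to substitute in two steps: `s = y w` (`integral_comp_mul_left_Ioi`) and
`w = 1 / v` (`integral_comp_rpow_Ioi` with exponent `-1`), or to define `kap p` as the integral of
`w^(p-1) phi (1/w)` over `w > 0` and use only the first one (this is what is stated here).
With `w^(p-1) phi (1/w) <= w^(p-2)` on `(0, 1]` (integrable since `p - 2 > -1`) and
`<= w^(p-3) / 4` on `[1, oo)` (integrable since `p - 3 < -1`).
-/

open Complex MeasureTheory Set
open scoped ComplexConjugate Real

namespace Pool.Agent.H97.SIM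

/-- the normalising constant -/
noncomputable def kap (p : ℝ) : ℝ := ∫ w in Ioi (0:ℝ), w ^ (p - 1) * phi (1 / w)

theorem kap_contOn (p : ℝ) :
    ContinuousOn (fun w : ℝ => w ^ (p - 1) * phi (1 / w)) (Ioi 0) := by
  apply ContinuousOn.mul
  · intro w hw
    exact (Real.continuousAt_rpow_const w (p - 1) (Or.inl (ne_of_gt hw))).continuousWithinAt
  · refine phi_contOn.comp (s := Ioi 0) ?_ ?_
    · intro w hw
      exact (continuousAt_const.div continuousAt_id (ne_of_gt hw)).continuousWithinAt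
    · intro w hw
      have hw0 : (0:ℝ) < w := hw
      exact (one_div_pos.2 hw0).le

theorem kap_integrable {p : ℝ} (h1 : 1 < p) (h2 : p < 2) :
    IntegrableOn (fun w : ℝ => w ^ (p - 1) * phi (1 / w)) (Ioi 0) := by
  have hc := kap_contOn p
  rw [← Ioc_union_Ioi_eq_Ioi (zero_le_one' ℝ)]
  apply IntegrableOn.union
  · have hb : IntegrableOn (fun w : ℝ => w ^ (p - 2)) (Ioc 0 1) :=
      (intervalIntegral.intervalIntegrable_rpow' (a := 0) (b := 1) (r := p - 2) (by linarith)).1
    refine Integrable.mono' hb ?_ ?_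
    · exact (hc.mono Ioc_subset_Ioi_self).aestronglyMeasurable measurableSet_Ioc
    · refine (ae_restrict_mem measurableSet_Ioc).mono fun w hw => ?_
      have hw0 : 0 < w := hw.1
      have hi : 0 < 1 / w := one_div_pos.2 hw0
      rw [Real.norm_of_nonneg (mul_nonneg (Real.rpow_nonneg hw0.le _) (phi_nonneg hi.le))]
      calc w ^ (p - 1) * phi (1 / w) ≤ w ^ (p - 1) * (1 / w) :=
            mul_le_mul_of_nonneg_left (phi_le hi.le) (Real.rpow_nonneg hw0.le _)
        _ = w ^ (p - 2) := by
            rw [show p - 1 = (p - 2) + 1 by ring, Real.rpow_add_one hw0.ne']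
            field_simp
  · have hb : IntegrableOn (fun w : ℝ => w ^ (p - 3)) (Ioi 1) :=
      integrableOn_Ioi_rpow_of_lt (by linarith) one_pos
    refine Integrable.mono' (hb.const_mul (1 / 4)) ?_ ?_
    · exact (hc.mono (Ioi_subset_Ioi zero_le_one)).aestronglyMeasurable measurableSet_Ioi
    · refine (ae_restrict_mem measurableSet_Ioi).mono fun w hw => ?_
      have hw0 : 0 < w := lt_trans one_pos hw
      have hi : 0 < 1 / w := one_div_pos.2 hw0
      rw [Real.norm_of_nonneg (mul_nonneg (Real.rpow_nonneg hw0.le _) (phi_nonneg hi.le))]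
      calc w ^ (p - 1) * phi (1 / w) ≤ w ^ (p - 1) * ((1 / w) ^ 2 / 4) :=
            mul_le_mul_of_nonneg_left (phi_le_sq hi.le) (Real.rpow_nonneg hw0.le _)
        _ = 1 / 4 * w ^ (p - 3) := by
            rw [show p - 1 = (p - 3) + 1 + 1 by ring, Real.rpow_add_one hw0.ne',
              Real.rpow_add_one hw0.ne']
            field_simp

theorem kap_pos {p : ℝ} (h1 : 1 < p) (h2 : p < 2) : 0 < kap p := by
  have hpos : ∀ w ∈ Ioi (0:ℝ), 0 < w ^ (p - 1) * phi (1 / w) := by
    intro w hw
    exact mul_pos (Real.rpow_pos_of_pos hw _) (phi_pos (one_div_pos.2 hw))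
  rw [kap, setIntegral_pos_iff_support_of_nonneg_ae
    ((ae_restrict_mem measurableSet_Ioi).mono fun w hw => (hpos w hw).le)
    (kap_integrable h1 h2)]
  have : Function.support (fun w : ℝ => w ^ (p - 1) * phi (1 / w)) ∩ Ioi 0 = Ioi 0 := by
    apply inter_eq_right.2
    intro w hw
    exact (hpos w hw).ne'
  rw [this, Real.volume_Ioi]
  exact ENNReal.zero_lt_top

theorem mix_scale {p y : ℝ} (hy : 0 < y) {w : ℝ} (hw : w ∈ Ioi (0:ℝ)) :
    (y * w) ^ (p - 1) * phi (y / (y * w)) = y ^ (p - 1) * (w ^ (p - 1) * phi (1 / w)) := by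
  rw [Real.mul_rpow hy.le (le_of_lt hw), mul_assoc]
  have : y / (y * w) = 1 / w := by
    have hw' : w ≠ 0 := ne_of_gt hw
    field_simp
  rw [this]

theorem mix_integrable {p : ℝ} (h1 : 1 < p) (h2 : p < 2) {y : ℝ} (hy : 0 ≤ y) :
    IntegrableOn (fun s : ℝ => s ^ (p - 1) * phi (y / s)) (Ioi 0) := by
  rcases hy.eq_or_lt with h | h
  · subst h
    simp [phi_zero]
  · have hk := integrableOn_Ioi_comp_mul_left_iff
      (fun s : ℝ => s ^ (p - 1) * phi (y / s)) 0 h
    rw [mul_zero] at hk
    rw [← hk]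
    refine ((kap_integrable h1 h2).const_mul (y ^ (p - 1))).congr ?_
    refine (ae_restrict_mem measurableSet_Ioi).mono fun w hw => ?_
    exact (mix_scale h hw).symm

theorem mix {p : ℝ} (h1 : 1 < p) (h2 : p < 2) {y : ℝ} (hy : 0 ≤ y) :
    ∫ s in Ioi (0:ℝ), s ^ (p - 1) * phi (y / s) = kap p * y ^ p := by
  rcases hy.eq_or_lt with h | h
  · subst h
    have : (0:ℝ) ^ p = 0 := Real.zero_rpow (by linarith)
    simp [phi_zero, this]
  · have hk := integral_comp_mul_left_Ioi
      (fun s : ℝ => s ^ (p - 1) * phi (y / s)) 0 h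
    rw [mul_zero, smul_eq_mul] at hk
    have he : ∫ w in Ioi (0:ℝ), (y * w) ^ (p - 1) * phi (y / (y * w))
        = y ^ (p - 1) * kap p := by
      rw [kap, ← integral_const_mul]
      exact setIntegral_congr_fun measurableSet_Ioi fun w hw => mix_scale h hw
    have hk2 : y ^ (p - 1) * kap p
        = y⁻¹ * ∫ s in Ioi (0:ℝ), s ^ (p - 1) * phi (y / s) := by
      rw [← he]; exact hk
    have hyp : y ^ p = y ^ (p - 1) * y := by
      rw [← Real.rpow_add_one h.ne']; congr 1; ring
    have hyi : y * y⁻¹ = 1 := mul_inv_cancel₀ h.ne'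
    calc ∫ s in Ioi (0:ℝ), s ^ (p - 1) * phi (y / s)
        = y * (y⁻¹ * ∫ s in Ioi (0:ℝ), s ^ (p - 1) * phi (y / s)) := by
          rw [← mul_assoc, hyi, one_mul]
      _ = kap p * y ^ p := by rw [← hk2, hyp]; ring

end Pool.Agent.H97.SIM
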