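import Pool.Agent.H97.SIM.Evo
import Pool.Agent.H97.SIM.BaseP
import Pool.Agent.H97.SIM.EndL

/-!
# The inequality for `phi` at every radius

PROOF of `phi_ineq`: take `K` from `exists_K`. For every `ε > 0` and `x < 1` close to `1`:
`Df b K X <= Df b K x <= ε` (`evo_mono`, `base_phi` with `s = sig K x`, `end_lim`); so
`Df b K X <= 0`. Strict: insert a point `X < X' < 1`: `Df b K X < Df b K X' <= 0`
(`evo_strict`; the second inequality is the first part of the argument at `X'`).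
-/

open Complex MeasureTheory Set Filter Topology
open scoped ComplexConjugate Real

namespace Pool.Agent.H97.SIM

open Pool.Agent.H15.Sig

variable {F : ℂ → ℂ} {b : ℕ → ℂ}

private theorem sig_posA {K x : ℝ} (hK : 1 < K) (hKx : 1 < K * x ^ 4) : 0 < sig K x := by
  unfold sig
  have h1 : 1 / K < 1 := by
    rw [div_lt_one (by linarith)]
    exact hK
  exact mul_pos (by linarith) (by linarith)

private theorem df_nonpos (h : IsSig F b) {K X : ℝ} (hK : 1 < K) (hX0 : 0 < X) (hX : X < 1)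
    (hKX : 1 < K * X ^ 4) : Df b K X ≤ 0 := by
  refine le_of_forall_pos_le_add fun ε hε => ?_
  obtain ⟨x1, hx1, -, -, hlim⟩ := end_lim hK hε
  obtain ⟨x, hx, hx'⟩ := exists_between (max_lt hx1 hX)
  have hx1x : x1 < x := lt_of_le_of_lt (le_max_left _ _) hx
  have hXx : X < x := lt_of_le_of_lt (le_max_right _ _) hx
  have hx0 : 0 < x := hX0.trans hXx
  have hKx : 1 < K * x ^ 4 := by
    refine lt_of_lt_of_le hKX ?_
    have : X ^ 4 ≤ x ^ 4 := by gcongr
    gcongr
  have h1 := evo_mono h hK hX0 hKX hXx.le hx'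
  have h2 := base_phi h hx0 hx' (sig_posA hK hKx)
  have h3 := hlim x hx1x hx'
  have h4 : Df b K x ≤ ε := by
    unfold Df
    linarith
  linarith

theorem phi_ineq (h : IsSig F b) {X s : ℝ} (hX0 : 0 < X) (hX : X < 1) (hs : 0 < s) :
    av (fun t => phi (‖sx b X t‖ ^ 2 / s)) ≤ av (fun t => phi (‖gJ X t‖ ^ 2 / s)) := by
  obtain ⟨K, hK, hKX, rfl⟩ := exists_K hX0 hX hs
  have h1 := df_nonpos h hK hX0 hX hKX
  unfold Df at h1
  linarith

theorem phi_ineq_strict (h : IsSig F b) (hb : ‖b 1‖ < 1) {X s : ℝ} (hX0 : 0 < X) (hX : X < 1)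
    (hs : 0 < s) :
    av (fun t => phi (‖sx b X t‖ ^ 2 / s)) < av (fun t => phi (‖gJ X t‖ ^ 2 / s)) := by
  obtain ⟨K, hK, hKX, rfl⟩ := exists_K hX0 hX hs
  obtain ⟨X', hX1, hX2⟩ := exists_between hX
  have hKX' : 1 < K * X' ^ 4 := by
    refine lt_of_lt_of_le hKX ?_
    have : X ^ 4 ≤ X' ^ 4 := by gcongr
    gcongr
  have h1 := df_nonpos h hK (hX0.trans hX1) hX2 hKX'
  have h2 := evo_strict h hb hK hX0 hKX hX1 hX2
  have h3 : Df b K X < 0 := lt_of_lt_of_le h2 h1
  unfold Df at h3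
  linarith

end Pool.Agent.H97.SIM
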