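import Pool.Agent.H97.SIM.Mix
import Pool.Agent.H97.SIM.Av

/-!
# Means of powers as mixtures

PROOF. For a continuous `g` and `1 < p < 2`, Tonelli (everything is `>= 0`):
`kap p * av (|g|^2)^p = av ∫ s^(p-1) phi (|g|^2 / s) ds = ∫ s^(p-1) av phi (|g|^2 / s) ds`
(`mix`; integrable on the product `(0, oo) x [-pi, pi]` since `phi (y/s) <= phi (M/s)` with
`M = max |g|^2`, `phi_mono`, `mix_integrable`).
-/

open Complex MeasureTheory Set Filter Topology
open scoped ComplexConjugate Real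

namespace Pool.Agent.H97.SIM

/-- the integrand on the product -/
private theorem int_prod {p : ℝ} (h1 : 1 < p) (h2 : p < 2) {g : ℝ → ℂ} (hg : Continuous g) :
    Integrable (fun z : ℝ × ℝ => z.1 ^ (p - 1) * phi (‖g z.2‖ ^ 2 / z.1))
      ((volume.restrict (Ioi (0:ℝ))).prod (volume.restrict (Ioc (-π) π))) := by
  obtain ⟨M, hM0, hM⟩ : ∃ M : ℝ, 0 ≤ M ∧ ∀ t ∈ Ioc (-π) π, ‖g t‖ ^ 2 ≤ M := by
    obtain ⟨M, hM⟩ := (isCompact_Icc (a := -π) (b := π)).bddAbove_image
      (f := fun t => ‖g t‖ ^ 2) (by fun_prop)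
    refine ⟨max M 0, le_max_right _ _, fun t ht => ?_⟩
    exact (hM (mem_image_of_mem _ (Ioc_subset_Icc_self ht))).trans (le_max_left _ _)
  have hfin : IsFiniteMeasure (volume.restrict (Ioc (-π) π)) := inferInstance
  have hdom : Integrable (fun z : ℝ × ℝ => (z.1 ^ (p - 1) * phi (M / z.1)) * 1)
      ((volume.restrict (Ioi (0:ℝ))).prod (volume.restrict (Ioc (-π) π))) :=
    Integrable.mul_prod (mix_integrable h1 h2 hM0) (integrable_const (1:ℝ))
  have hae : ∀ᵐ z ∂((volume.restrict (Ioi (0:ℝ))).prod (volume.restrict (Ioc (-π) π))),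
      z ∈ Ioi (0:ℝ) ×ˢ Ioc (-π) π := by
    rw [Measure.prod_restrict]
    exact ae_restrict_mem (measurableSet_Ioi.prod measurableSet_Ioc)
  refine hdom.mono' ?_ ?_
  · rw [Measure.prod_restrict]
    refine ContinuousOn.aestronglyMeasurable ?_ (measurableSet_Ioi.prod measurableSet_Ioc)
    apply ContinuousOn.mul
    · intro z hz
      have hz0 : (0:ℝ) < z.1 := hz.1
      exact ((Real.continuousAt_rpow_const z.1 (p - 1) (Or.inl hz0.ne')).comp
        continuousAt_fst).continuousWithinAt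
    · refine phi_contOn.comp (t := Ici 0) ?_ ?_
      · intro z hz
        have hz0 : (0:ℝ) < z.1 := hz.1
        refine ContinuousAt.continuousWithinAt ?_
        refine ContinuousAt.div ?_ continuousAt_fst hz0.ne'
        exact ((hg.norm.pow 2).continuousAt).comp continuousAt_snd
      · intro z hz
        have hz0 : (0:ℝ) < z.1 := hz.1
        exact mem_Ici.2 (by positivity)
  · refine hae.mono fun z hz => ?_
    have hz0 : (0:ℝ) < z.1 := hz.1
    have hy : 0 ≤ ‖g z.2‖ ^ 2 / z.1 := by positivity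
    rw [Real.norm_of_nonneg (mul_nonneg (Real.rpow_nonneg hz0.le _) (phi_nonneg hy)), mul_one]
    refine mul_le_mul_of_nonneg_left (phi_mono hy ?_) (Real.rpow_nonneg hz0.le _)
    exact div_le_div_of_nonneg_right (hM z.2 hz.2) hz0.le

theorem av_mix {p : ℝ} (h1 : 1 < p) (h2 : p < 2) {g : ℝ → ℂ} (hg : Continuous g) :
    IntegrableOn (fun s : ℝ => s ^ (p - 1) * av (fun t => phi (‖g t‖ ^ 2 / s))) (Ioi 0) ∧
    ∫ s in Ioi (0:ℝ), s ^ (p - 1) * av (fun t => phi (‖g t‖ ^ 2 / s)) =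
      kap p * av (fun t => (‖g t‖ ^ 2) ^ p) := by
  have hi := int_prod h1 h2 hg
  have hle : -π ≤ π := by linarith [Real.pi_pos]
  have e1 : ∀ s : ℝ, s ^ (p - 1) * av (fun t => phi (‖g t‖ ^ 2 / s)) =
      (2 * π)⁻¹ * ∫ t in Ioc (-π) π, s ^ (p - 1) * phi (‖g t‖ ^ 2 / s) := by
    intro s
    rw [av, intervalIntegral.integral_of_le hle, integral_const_mul]
    ring
  have hi1 : Integrable (fun s : ℝ => ∫ t in Ioc (-π) π, s ^ (p - 1) * phi (‖g t‖ ^ 2 / s))
      (volume.restrict (Ioi (0:ℝ))) := hi.integral_prod_left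
  constructor
  · refine (hi1.const_mul (2 * π)⁻¹).congr (Eventually.of_forall fun s => ?_)
    exact (e1 s).symm
  · simp_rw [e1]
    rw [integral_const_mul]
    have hsw := integral_integral_swap (μ := volume.restrict (Ioi (0:ℝ)))
      (ν := volume.restrict (Ioc (-π) π))
      (f := fun s t => s ^ (p - 1) * phi (‖g t‖ ^ 2 / s)) hi
    rw [hsw]
    have e2 : ∀ t : ℝ, ∫ s in Ioi (0:ℝ), s ^ (p - 1) * phi (‖g t‖ ^ 2 / s) =
        kap p * (‖g t‖ ^ 2) ^ p := fun t => mix h1 h2 (by positivity)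
    simp_rw [e2]
    rw [integral_const_mul, av, intervalIntegral.integral_of_le hle]
    ring

end Pool.Agent.H97.SIM
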