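import Pool.Agent.H97.SIM.PhiIneq
import Pool.Agent.H97.SIM.PowA

/-!
# The inequality for powers

PROOF. For a continuous `g` on `[-pi, pi]` and `1 < p < 2`, Tonelli (everything is `>= 0`):
`kap p * av (|g|^2)^p = av ∫ s^(p-1) phi (|g|^2 / s) ds = ∫ s^(p-1) av phi (|g|^2 / s) ds`
(`mix`; integrable on the product since `phi (y/s) <= phi (M/s)` with `M = max |g|^2`,
`phi_mono`). Compare the two sides with `phi_ineq`; `kap p > 0`. STRICT: the integrand difference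
is `> 0` for every `s > 0` (`phi_ineq_strict`), so the integral is `> 0`
(`MeasureTheory.setIntegral_pos_iff_support_of_nonneg_ae` or `integral_pos_iff_support_of_nonneg`).
-/

open Complex MeasureTheory Set Filter Topology
open scoped ComplexConjugate Real

namespace Pool.Agent.H97.SIM

open Pool.Agent.H15.Sig

variable {F : ℂ → ℂ} {b : ℕ → ℂ}

private theorem gJ_cont (X : ℝ) : Continuous (gJ X) := by
  unfold gJ
  have := continuous_e
  fun_prop

theorem pow_ineq (h : IsSig F b) {p : ℝ} (h1 : 1 < p) (h2 : p < 2) {X : ℝ} (hX0 : 0 < X)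
    (hX : X < 1) : av (fun t => (‖sx b X t‖ ^ 2) ^ p) ≤ av (fun t => (‖gJ X t‖ ^ 2) ^ p) := by
  have hs := av_mix h1 h2 (sx_continuous h hX0 hX)
  have hj := av_mix h1 h2 (gJ_cont X)
  have hk := kap_pos h1 h2
  have hle : kap p * av (fun t => (‖sx b X t‖ ^ 2) ^ p) ≤
      kap p * av (fun t => (‖gJ X t‖ ^ 2) ^ p) := by
    rw [← hs.2, ← hj.2]
    refine setIntegral_mono_on hs.1 hj.1 measurableSet_Ioi ?_
    intro s hs0
    have hs0' : 0 < s := hs0
    exact mul_le_mul_of_nonneg_left (phi_ineq h hX0 hX hs0') (Real.rpow_nonneg hs0'.le _)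
  exact le_of_mul_le_mul_left hle hk

theorem pow_ineq_strict (h : IsSig F b) (hb : ‖b 1‖ < 1) {p : ℝ} (h1 : 1 < p) (h2 : p < 2) {X : ℝ}
    (hX0 : 0 < X) (hX : X < 1) :
    av (fun t => (‖sx b X t‖ ^ 2) ^ p) < av (fun t => (‖gJ X t‖ ^ 2) ^ p) := by
  have hs := av_mix h1 h2 (sx_continuous h hX0 hX)
  have hj := av_mix h1 h2 (gJ_cont X)
  have hk := kap_pos h1 h2
  have hpos : ∀ s ∈ Ioi (0:ℝ), 0 < s ^ (p - 1) * av (fun t => phi (‖gJ X t‖ ^ 2 / s)) -
      s ^ (p - 1) * av (fun t => phi (‖sx b X t‖ ^ 2 / s)) := by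
    intro s hs0
    have hs0' : 0 < s := hs0
    have h3 := phi_ineq_strict h hb hX0 hX hs0'
    have h4 : 0 < s ^ (p - 1) := Real.rpow_pos_of_pos hs0' _
    have h5 := mul_lt_mul_of_pos_left h3 h4
    linarith
  have hint : IntegrableOn (fun s : ℝ => s ^ (p - 1) * av (fun t => phi (‖gJ X t‖ ^ 2 / s)) -
      s ^ (p - 1) * av (fun t => phi (‖sx b X t‖ ^ 2 / s))) (Ioi 0) := hj.1.sub hs.1
  have h6 : 0 < ∫ s in Ioi (0:ℝ), (s ^ (p - 1) * av (fun t => phi (‖gJ X t‖ ^ 2 / s)) -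
      s ^ (p - 1) * av (fun t => phi (‖sx b X t‖ ^ 2 / s))) := by
    rw [setIntegral_pos_iff_support_of_nonneg_ae _ hint]
    · have h7 : Ioi (0:ℝ) ⊆ (Function.support (fun s : ℝ =>
          s ^ (p - 1) * av (fun t => phi (‖gJ X t‖ ^ 2 / s)) -
          s ^ (p - 1) * av (fun t => phi (‖sx b X t‖ ^ 2 / s)))) ∩ Ioi 0 := by
        intro s hs0
        exact ⟨(hpos s hs0).ne', hs0⟩
      refine lt_of_lt_of_le ?_ (measure_mono h7)
      rw [Real.volume_Ioi]
      exact ENNReal.zero_lt_top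
    · rw [Filter.EventuallyLE, ae_restrict_iff' measurableSet_Ioi]
      exact Filter.Eventually.of_forall (fun s hs0 => (hpos s hs0).le)
  have h8 : ∫ s in Ioi (0:ℝ), (s ^ (p - 1) * av (fun t => phi (‖gJ X t‖ ^ 2 / s)) -
      s ^ (p - 1) * av (fun t => phi (‖sx b X t‖ ^ 2 / s))) =
      kap p * av (fun t => (‖gJ X t‖ ^ 2) ^ p) - kap p * av (fun t => (‖sx b X t‖ ^ 2) ^ p) := by
    rw [integral_sub hj.1 hs.1, hj.2, hs.2]
  rw [h8] at h6
  exact lt_of_mul_lt_mul_left (by linarith) hk.le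

end Pool.Agent.H97.SIM
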