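import Pool.Agent.H97.SIM.PairB

/-!
# Invariance of `Ig` under hyperbolic rotations (the heart of the proof)

CLAIM: for a pair `(f, h)` and all real `T`, `Ig s` of `cosh T f - sinh T h` equals `Ig s` of `f`.

PROOF. Put `f_T = cosh T f - sinh T h`, `h_T = cosh T h - sinh T f` (a pair by `Pair.rot`), so
`d/dT f_T = - h_T`, `d/dT h_T = - f_T`. On the circle, with `x = |f_T|^2 >= 0`,
`|h_T|^2 = s + x`, `l x = l1 (x / s) / s`, subscript `t` for the derivative in `t` (so
`f_t = i z f'`), `Re (conj f z f') = Im (conj f f_t) =: A`, `m = Re (conj f h)`,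
`n = Im (conj f h)`:
`d_T A = - Im (conj h f_t) - Im (conj f h_t) = - n_t - 2 Im (conj h f_t)`, `d_T x = - 2 m`,
`x_t = 2 Re (conj f f_t)`, and `x_t n - 2 m A = 2 Im (conj (conj f f_t) * (conj f h)) =
- 2 x Im (conj h f_t)`. Hence (`l + x l' = 1 / (s + x)` by `l1_ode`)
`d_T [l A] = - 2 m l' A - l n_t - 2 l Im (conj h f_t)
 = - d_t [l n] + l' (x_t n - 2 m A) - 2 l Im (conj h f_t)
 = - d_t [l n] - 2 (l + x l') Im (conj h f_t) = - d_t [l n] - 2 Im (f_t / h)`
(`conj h / (s + x) = 1 / h`), and `Im (f_t / h) = Re (z f'(z) / h z)`.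
So `R1` below. `R2`: for fixed `T` the mean over `t` of the right side is `0`: `l n` is `2 pi`
periodic (values at `-pi` and `pi` agree, `e_neg_pi`) and `z f' / h` is analytic near the closed
disc and `0` at `0` (`av_re`). CONCLUSION: for every `T`,
`Ig(f_T) - Ig(f_0) = av_t integral_0^T d_T [l A] dT' = integral_0^T av_t d_T[l A] dT' = 0`;
the interchange (`intervalIntegral_intervalIntegral_swap`) is for the function
`(T, t) -> K(T, t) = - 2 m l' A + l (- Im (conj h f_t) - Im (conj f h_t))`, continuous on the plane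
(`l1` and `deriv l1` are continuous on `y > -1`, `l1_contOn`, `l1_deriv_contOn`).
-/

open Complex MeasureTheory Set Polynomial
open scoped ComplexConjugate Real

namespace Pool.Agent.H97.SIM

variable {s : ℝ} {f h : ℂ[X]}

/-- the rotated polynomial `cosh T f - sinh T h` -/
noncomputable def rp (f h : ℂ[X]) (T : ℝ) : ℂ[X] :=
  C (Real.cosh T : ℂ) * f - C (Real.sinh T : ℂ) * h

/-- the integrand of `Ig` -/
noncomputable def iA (s : ℝ) (g k : ℝ → ℂ) (t : ℝ) : ℝ :=
  l1 (‖g t‖ ^ 2 / s) / s * (conj (g t) * k t).re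

/-- `l(|g|^2) Im (conj g h)` -/
noncomputable def iN (s : ℝ) (g h : ℝ → ℂ) (t : ℝ) : ℝ :=
  l1 (‖g t‖ ^ 2 / s) / s * (conj (g t) * h t).im

/-- the `T`-derivative of `iA` (with `g = f_T`, `k = z f_T'`, `h = h_T`, `j = z h_T'`) -/
noncomputable def iK (s : ℝ) (g k h j : ℂ) : ℝ :=
  deriv l1 (‖g‖ ^ 2 / s) / s ^ 2 * (-(2 * (conj g * h).re)) * (conj g * k).re +
    l1 (‖g‖ ^ 2 / s) / s * (-(conj h * k).re - (conj g * j).re)

private theorem pe_rp (f h : ℂ[X]) (T t : ℝ) : pe (rp f h T) t =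
    (Real.cosh T : ℂ) * pe f t - (Real.sinh T : ℂ) * pe h t := by
  simp [pe, rp]

private theorem pd_rp (f h : ℂ[X]) (T t : ℝ) : pd (rp f h T) t =
    (Real.cosh T : ℂ) * pd f t - (Real.sinh T : ℂ) * pd h t := by
  simp only [pd, rp, derivative_sub, derivative_C_mul, eval_sub, eval_mul, eval_C]
  ring

private theorem hasDerivAt_comb (u v : ℂ) (T : ℝ) :
    HasDerivAt (fun T : ℝ => (Real.cosh T : ℂ) * u - (Real.sinh T : ℂ) * v)
      (-((Real.cosh T : ℂ) * v - (Real.sinh T : ℂ) * u)) T := by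
  have h1 : HasDerivAt (fun T : ℝ => (Real.cosh T : ℂ)) (Real.sinh T : ℂ) T :=
    (Real.hasDerivAt_cosh T).ofReal_comp
  have h2 : HasDerivAt (fun T : ℝ => (Real.sinh T : ℂ)) (Real.cosh T : ℂ) T :=
    (Real.hasDerivAt_sinh T).ofReal_comp
  refine ((h1.mul_const u).sub (h2.mul_const v)).congr_deriv ?_
  ring

private theorem hasDerivAt_conj {g : ℝ → ℂ} {g' : ℂ} {x : ℝ} (h : HasDerivAt g g' x) :
    HasDerivAt (fun y => conj (g y)) (conj g') x := by
  have h2 := conjCLE.toContinuousLinearMap.hasFDerivAt.comp_hasDerivAt x h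
  exact h2

private theorem hasDerivAt_re {g : ℝ → ℂ} {g' : ℂ} {x : ℝ} (h : HasDerivAt g g' x) :
    HasDerivAt (fun y => (g y).re) g'.re x :=
  reCLM.hasFDerivAt.comp_hasDerivAt x h

private theorem hasDerivAt_im {g : ℝ → ℂ} {g' : ℂ} {x : ℝ} (h : HasDerivAt g g' x) :
    HasDerivAt (fun y => (g y).im) g'.im x :=
  imCLM.hasFDerivAt.comp_hasDerivAt x h

private theorem normsq_eq (z : ℂ) : ‖z‖ ^ 2 = (conj z * z).re := by
  rw [Complex.conj_mul', ← ofReal_pow, ofReal_re]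

private theorem hasDerivAt_normsq {g : ℝ → ℂ} {g' : ℂ} {x : ℝ} (h : HasDerivAt g g' x) :
    HasDerivAt (fun y => ‖g y‖ ^ 2) (2 * (conj (g x) * g').re) x := by
  have h1 : (fun y => ‖g y‖ ^ 2) = fun y => (conj (g y) * g y).re := by
    funext y
    exact normsq_eq _
  rw [h1]
  refine (hasDerivAt_re ((hasDerivAt_conj h).mul h)).congr_deriv ?_
  simp only [add_re, mul_re, conj_re, conj_im]
  ring

private theorem hasDerivAt_l {g : ℝ → ℂ} {g' : ℂ} {x : ℝ} {s : ℝ} (hs : 0 < s)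
    (h : HasDerivAt g g' x) :
    HasDerivAt (fun y => l1 (‖g y‖ ^ 2 / s) / s)
      (deriv l1 (‖g x‖ ^ 2 / s) / s ^ 2 * (2 * (conj (g x) * g').re)) x := by
  have h0 : (-1 : ℝ) < ‖g x‖ ^ 2 / s :=
    lt_of_lt_of_le (by norm_num) (div_nonneg (by positivity) hs.le)
  have h1 := (l1_hasDerivAt h0).comp x ((hasDerivAt_normsq h).div_const s)
  refine (h1.div_const s).congr_deriv ?_
  field_simp

theorem iA_hasDerivAt_T (hs : 0 < s) (f h : ℂ[X]) (T t : ℝ) :
    HasDerivAt (fun T => iA s (pe (rp f h T)) (pd (rp f h T)) t)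
      (iK s (pe (rp f h T) t) (pd (rp f h T) t) (pe (rp h f T) t) (pd (rp h f T) t)) T := by
  have hg : HasDerivAt (fun T => pe (rp f h T) t) (-pe (rp h f T) t) T := by
    simp only [pe_rp]
    exact hasDerivAt_comb _ _ _
  have hk : HasDerivAt (fun T => pd (rp f h T) t) (-pd (rp h f T) t) T := by
    simp only [pd_rp]
    exact hasDerivAt_comb _ _ _
  have h1 := hasDerivAt_l hs hg
  have h2 : HasDerivAt (fun T => (conj (pe (rp f h T) t) * pd (rp f h T) t).re) _ T :=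
    hasDerivAt_re ((hasDerivAt_conj hg).mul hk)
  refine (h1.mul h2).congr_deriv ?_
  simp only [iK, map_neg, add_re, neg_mul, mul_neg, neg_re]
  ring

/-- `R1`: `K = - d_t (l n) - 2 Re (z f' / h)` -/
theorem iN_hasDerivAt_t (P : Pair s f h) (t : ℝ) :
    HasDerivAt (iN s (pe f) (pe h))
      (-(iK s (pe f t) (pd f t) (pe h t) (pd h t)) - 2 * (pd f t / pe h t).re) t := by
  have hs := P.pos
  have h1 := hasDerivAt_l hs (pe_hasDerivAt f t)
  have h2 := hasDerivAt_im ((hasDerivAt_conj (pe_hasDerivAt f t)).mul (pe_hasDerivAt h t))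
  have h3 : HasDerivAt (iN s (pe f) (pe h)) _ t := h1.mul h2
  refine h3.congr_deriv ?_
  have hc := P.circ t
  have hh : pe h t ≠ 0 := P.nz (e t) (by
    have : ‖e t‖ = 1 := by
      simp only [e]
      exact Complex.norm_exp_ofReal_mul_I t
    exact this.le)
  have hy : (-1 : ℝ) < ‖pe f t‖ ^ 2 / s :=
    lt_of_lt_of_le (by norm_num) (div_nonneg (by positivity) hs.le)
  have hode := l1_ode hy
  have hden : 0 < s + ‖pe f t‖ ^ 2 := by positivity
  have hhn : ‖pe h t‖ ^ 2 = s + ‖pe f t‖ ^ 2 := by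
    have : ‖pe h t‖ ^ 2 = ‖pe f t‖ ^ 2 + s := hc
    rw [this]; ring
  have hdiv : (pd f t / pe h t).re = (conj (pe h t) * pd f t).re / (s + ‖pe f t‖ ^ 2) := by
    have h5 : pd f t / pe h t = (conj (pe h t) * pd f t) / ((‖pe h t‖ ^ 2 : ℝ) : ℂ) := by
      rw [ofReal_pow, ← Complex.conj_mul']
      have hcn : conj (pe h t) ≠ 0 := (_root_.map_ne_zero _).2 hh
      rw [mul_div_mul_left _ _ hcn]
    rw [h5, hhn, div_ofReal_re]
  have hkey : (conj (pe f t) * pe h t).re * (conj (pe f t) * pd f t).re +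
      (conj (pe f t) * pe h t).im * (conj (pe f t) * pd f t).im =
      ‖pe f t‖ ^ 2 * (conj (pe h t) * pd f t).re := by
    rw [normsq_eq]
    simp only [mul_re, mul_im, conj_re, conj_im]
    ring
  have hfin : deriv l1 (‖pe f t‖ ^ 2 / s) / s ^ 2 * ‖pe f t‖ ^ 2 +
      l1 (‖pe f t‖ ^ 2 / s) / s = 1 / (s + ‖pe f t‖ ^ 2) := by
    have h6 : 1 / (s + ‖pe f t‖ ^ 2) = (1 / (1 + ‖pe f t‖ ^ 2 / s)) / s := by
      field_simp
    rw [h6, ← hode]
    field_simp
    ring
  rw [hdiv]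
  have h7 : (conj (pe f t) * (I * pd f t)).re = -(conj (pe f t) * pd f t).im := by
    simp only [mul_re, mul_im, conj_re, conj_im, I_re, I_im]
    ring
  have h8 : (conj (I * pd f t) * pe h t + conj (pe f t) * (I * pd h t)).im =
      -(conj (pe h t) * pd f t).re + (conj (pe f t) * pd h t).re := by
    simp only [map_mul, conj_I, add_im, mul_re, mul_im, conj_re, conj_im, I_re, I_im, neg_re,
      neg_im]
    ring
  rw [h7, h8]
  simp only [iK]
  have h9 : (conj (pe h t) * pd f t).re / (s + ‖pe f t‖ ^ 2) =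
      (conj (pe h t) * pd f t).re * (deriv l1 (‖pe f t‖ ^ 2 / s) / s ^ 2 * ‖pe f t‖ ^ 2 +
      l1 (‖pe f t‖ ^ 2 / s) / s) := by
    rw [hfin]; ring
  rw [h9]
  linear_combination (2 * (deriv l1 (‖pe f t‖ ^ 2 / s) / s ^ 2)) * (-hkey)

theorem iK_continuous (hs : 0 < s) (f h : ℂ[X]) :
    Continuous fun p : ℝ × ℝ => iK s (pe (rp f h p.1) p.2) (pd (rp f h p.1) p.2)
      (pe (rp h f p.1) p.2) (pd (rp h f p.1) p.2) := by
  have c1 : ∀ u v : ℂ[X], Continuous fun p : ℝ × ℝ => pe (rp u v p.1) p.2 := by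
    intro u v
    simp only [pe_rp]
    have a1 : Continuous fun p : ℝ × ℝ => pe u p.2 := (continuous_pe u).comp continuous_snd
    have a2 : Continuous fun p : ℝ × ℝ => pe v p.2 := (continuous_pe v).comp continuous_snd
    have a3 : Continuous fun p : ℝ × ℝ => (Real.cosh p.1 : ℂ) :=
      continuous_ofReal.comp (Real.continuous_cosh.comp continuous_fst)
    have a4 : Continuous fun p : ℝ × ℝ => (Real.sinh p.1 : ℂ) :=
      continuous_ofReal.comp (Real.continuous_sinh.comp continuous_fst)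
    exact (a3.mul a1).sub (a4.mul a2)
  have c2 : ∀ u v : ℂ[X], Continuous fun p : ℝ × ℝ => pd (rp u v p.1) p.2 := by
    intro u v
    simp only [pd_rp]
    have a1 : Continuous fun p : ℝ × ℝ => pd u p.2 := (continuous_pd u).comp continuous_snd
    have a2 : Continuous fun p : ℝ × ℝ => pd v p.2 := (continuous_pd v).comp continuous_snd
    have a3 : Continuous fun p : ℝ × ℝ => (Real.cosh p.1 : ℂ) :=
      continuous_ofReal.comp (Real.continuous_cosh.comp continuous_fst)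
    have a4 : Continuous fun p : ℝ × ℝ => (Real.sinh p.1 : ℂ) :=
      continuous_ofReal.comp (Real.continuous_sinh.comp continuous_fst)
    exact (a3.mul a1).sub (a4.mul a2)
  have c3 : Continuous fun p : ℝ × ℝ => ‖pe (rp f h p.1) p.2‖ ^ 2 / s :=
    ((c1 f h).norm.pow 2).div_const s
  have hm : ∀ p : ℝ × ℝ, ‖pe (rp f h p.1) p.2‖ ^ 2 / s ∈ Ioi (-1 : ℝ) := fun p =>
    lt_of_lt_of_le (by norm_num : (-1 : ℝ) < 0) (div_nonneg (by positivity) hs.le)
  have c4 : Continuous fun p : ℝ × ℝ => l1 (‖pe (rp f h p.1) p.2‖ ^ 2 / s) :=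
    l1_contOn.comp_continuous c3 hm
  have c5 : Continuous fun p : ℝ × ℝ => deriv l1 (‖pe (rp f h p.1) p.2‖ ^ 2 / s) :=
    l1_deriv_contOn.comp_continuous c3 hm
  have cc : ∀ {u v : ℝ × ℝ → ℂ}, Continuous u → Continuous v →
      Continuous fun p => (conj (u p) * v p).re := fun hu hv =>
    continuous_re.comp ((continuous_conj.comp hu).mul hv)
  simp only [iK]
  exact ((c5.div_const _).mul ((continuous_const.mul (cc (c1 f h) (c1 h f))).neg)).mul
    (cc (c1 f h) (c2 f h)) |>.add ((c4.div_const _).mul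
      (((cc (c1 h f) (c2 f h)).neg).sub (cc (c1 f h) (c2 h f))))

end Pool.Agent.H97.SIM
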