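import Pool.Agent.H97.SIM.Ell
import Pool.Agent.H15.Sig.Area

/-!
# A Stokes formula with a radial weight, and the change of variables with a weight

PROOF of `wstokes`: as `Pool.Agent.H15.Sig.stokes` (copy that proof), for the form
`Ps(|V|^2) Im (conj V dV)`. With `A' = d_s [Ps(|V|^2) Im (conj V V2)]`,
`B' = - d_t [Ps(|V|^2) Im (conj V V1)]` one has, since `d_s |V|^2 = 2 Re (conj V V1)`,
`d_t |V|^2 = 2 Re (conj V V2)` and `Re a Im b - Re b Im a = Im (conj a b)`,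
`A' + B' = 2 (Ps + |V|^2 Ps') Im (conj V1 V2)`; the integral of `B'` over `t` is `0` by periodicity.
PROOF of `wcov`: as `Pool.Agent.H15.Sig.cov`.
-/

open Complex MeasureTheory Set Filter Topology
open scoped ComplexConjugate Real

namespace Pool.Agent.H97.SIM

open Pool.Agent.H15.Sig

theorem wstokes {Ps Ps' : ℝ → ℝ} (hP : ∀ y, 0 ≤ y → HasDerivAt Ps (Ps' y) y)
    (cP' : ContinuousOn Ps' (Ici 0))
    {s0 s1 : ℝ} (hs : s0 ≤ s1) (V V1 V2 V12 : ℝ × ℝ → ℂ)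
    (h1 : ∀ s ∈ Icc s0 s1, ∀ t, HasDerivAt (fun x => V (x, t)) (V1 (s, t)) s)
    (h2 : ∀ s ∈ Icc s0 s1, ∀ t, HasDerivAt (fun y => V (s, y)) (V2 (s, t)) t)
    (h21 : ∀ s ∈ Icc s0 s1, ∀ t, HasDerivAt (fun x => V2 (x, t)) (V12 (s, t)) s)
    (h12 : ∀ s ∈ Icc s0 s1, ∀ t, HasDerivAt (fun y => V1 (s, y)) (V12 (s, t)) t)
    (c0 : ContinuousOn V (Icc s0 s1 ×ˢ univ)) (c1 : ContinuousOn V1 (Icc s0 s1 ×ˢ univ))
    (c2 : ContinuousOn V2 (Icc s0 s1 ×ˢ univ)) (c12 : ContinuousOn V12 (Icc s0 s1 ×ˢ univ))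
    (per : ∀ s ∈ Icc s0 s1, V (s, π) = V (s, -π))
    (per1 : ∀ s ∈ Icc s0 s1, V1 (s, π) = V1 (s, -π)) :
    ∫ s in s0..s1, ∫ t in (-π)..π, (Ps (‖V (s, t)‖ ^ 2) + ‖V (s, t)‖ ^ 2 * Ps' (‖V (s, t)‖ ^ 2)) *
        (conj (V1 (s, t)) * V2 (s, t)).im =
      (1 / 2) * (∫ t in (-π)..π, Ps (‖V (s1, t)‖ ^ 2) * (conj (V (s1, t)) * V2 (s1, t)).im) -
      (1 / 2) * (∫ t in (-π)..π, Ps (‖V (s0, t)‖ ^ 2) * (conj (V (s0, t)) * V2 (s0, t)).im) := by
  have hpi : -π ≤ π := by linarith [Real.pi_pos]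
  set A' : ℝ → ℝ → ℝ := fun s t =>
    Ps' (‖V (s, t)‖ ^ 2) * (2 * (conj (V (s, t)) * V1 (s, t)).re) *
      (conj (V (s, t)) * V2 (s, t)).im + Ps (‖V (s, t)‖ ^ 2) *
    (conj (V1 (s, t)) * V2 (s, t) + conj (V (s, t)) * V12 (s, t)).im with hA'
  set B' : ℝ → ℝ → ℝ := fun s t =>
    -(Ps' (‖V (s, t)‖ ^ 2) * (2 * (conj (V (s, t)) * V2 (s, t)).re) *
      (conj (V (s, t)) * V1 (s, t)).im + Ps (‖V (s, t)‖ ^ 2) *
    (conj (V2 (s, t)) * V1 (s, t) + conj (V (s, t)) * V12 (s, t)).im) with hB'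
  have hsum : ∀ s t, (Ps (‖V (s, t)‖ ^ 2) + ‖V (s, t)‖ ^ 2 * Ps' (‖V (s, t)‖ ^ 2)) *
      (conj (V1 (s, t)) * V2 (s, t)).im = (1 / 2) * (A' s t + B' s t) := by
    intro s t
    simp only [hA', hB', add_im, mul_im, mul_re, conj_re, conj_im]
    generalize Ps (‖V (s, t)‖ ^ 2) = a
    generalize Ps' (‖V (s, t)‖ ^ 2) = b
    rw [← Complex.normSq_eq_norm_sq, Complex.normSq_apply]
    ring
  have cN : ContinuousOn (fun x : ℝ × ℝ => ‖V x‖ ^ 2) (Icc s0 s1 ×ˢ univ) := c0.norm.pow 2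
  have mN : MapsTo (fun x : ℝ × ℝ => ‖V x‖ ^ 2) (Icc s0 s1 ×ˢ univ) (Ici 0) :=
    fun x _ => mem_Ici.2 (by positivity)
  have cP : ContinuousOn Ps (Ici 0) := fun y hy => (hP y hy).continuousAt.continuousWithinAt
  have cPN : ContinuousOn (fun x : ℝ × ℝ => Ps (‖V x‖ ^ 2)) (Icc s0 s1 ×ˢ univ) :=
    cP.comp cN mN
  have cPN' : ContinuousOn (fun x : ℝ × ℝ => Ps' (‖V x‖ ^ 2)) (Icc s0 s1 ×ˢ univ) :=
    cP'.comp cN mN
  have cA : ContinuousOn (Function.uncurry A') (Icc s0 s1 ×ˢ univ) := by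
    have e : Function.uncurry A' = fun x : ℝ × ℝ =>
      Ps' (‖V x‖ ^ 2) * (2 * (conj (V x) * V1 x).re) * (conj (V x) * V2 x).im + Ps (‖V x‖ ^ 2) *
        (conj (V1 x) * V2 x + conj (V x) * V12 x).im := by funext x; rfl
    rw [e]
    have r1 : ContinuousOn (fun x => (2 * (conj (V x) * V1 x).re)) (Icc s0 s1 ×ˢ univ) := by
      fun_prop
    have r2 : ContinuousOn (fun x => (conj (V x) * V2 x).im) (Icc s0 s1 ×ˢ univ) := by
      fun_prop
    have r3 : ContinuousOn (fun x => (conj (V1 x) * V2 x + conj (V x) * V12 x).im)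
        (Icc s0 s1 ×ˢ univ) := by
      fun_prop
    exact ((cPN'.mul r1).mul r2).add (cPN.mul r3)
  have cB : ContinuousOn (Function.uncurry B') (Icc s0 s1 ×ˢ univ) := by
    have e : Function.uncurry B' = fun x : ℝ × ℝ =>
      -(Ps' (‖V x‖ ^ 2) * (2 * (conj (V x) * V2 x).re) * (conj (V x) * V1 x).im + Ps (‖V x‖ ^ 2) *
        (conj (V2 x) * V1 x + conj (V x) * V12 x).im) := by funext x; rfl
    rw [e]
    have r1 : ContinuousOn (fun x => (2 * (conj (V x) * V2 x).re)) (Icc s0 s1 ×ˢ univ) := by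
      fun_prop
    have r2 : ContinuousOn (fun x => (conj (V x) * V1 x).im) (Icc s0 s1 ×ˢ univ) := by
      fun_prop
    have r3 : ContinuousOn (fun x => (conj (V2 x) * V1 x + conj (V x) * V12 x).im)
        (Icc s0 s1 ×ˢ univ) := by
      fun_prop
    exact (((cPN'.mul r1).mul r2).add (cPN.mul r3)).neg
  have sect : ∀ {G : ℝ → ℝ → ℝ}, ContinuousOn (Function.uncurry G) (Icc s0 s1 ×ˢ univ) →
      ∀ s ∈ Icc s0 s1, Continuous (G s) := by
    intro G hG s hs'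
    rw [← continuousOn_univ]
    exact hG.comp (by fun_prop : Continuous fun t : ℝ => (s, t)).continuousOn
      (fun t _ => ⟨hs', mem_univ _⟩)
  have integ : ∀ {G : ℝ → ℝ → ℝ}, ContinuousOn (Function.uncurry G) (Icc s0 s1 ×ˢ univ) →
      IntegrableOn (Function.uncurry G) (uIoc s0 s1 ×ˢ uIoc (-π) π) volume := by
    intro G hG
    rw [uIoc_of_le hs, uIoc_of_le hpi]
    have hc : IsCompact (Icc s0 s1 ×ˢ Icc (-π) π) := isCompact_Icc.prod isCompact_Icc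
    have := (hG.mono (prod_mono le_rfl (subset_univ (Icc (-π) π)))).integrableOn_compact hc
      (μ := (volume : Measure (ℝ × ℝ)))
    exact this.mono_set (prod_mono Ioc_subset_Icc_self Ioc_subset_Icc_self)
  have hnsq : ∀ {f : ℝ → ℂ} {f' : ℂ} {x : ℝ}, HasDerivAt f f' x →
      HasDerivAt (fun y => Ps (‖f y‖ ^ 2))
        (Ps' (‖f x‖ ^ 2) * (2 * (conj (f x) * f').re)) x := by
    intro f f' x hf
    have g1 : HasDerivAt (fun y => ‖f y‖ ^ 2) (2 * (conj (f x) * f').re) x := by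
      have := hf.norm_sq
      have e : inner ℝ (f x) f' = (conj (f x) * f').re := by
        rw [Complex.inner, mul_comm]
      rwa [e] at this
    exact (hP _ (by positivity)).comp x g1
  have IB : ∀ s ∈ Icc s0 s1, ∫ t in (-π)..π, B' s t = 0 := by
    intro s hs'
    have hd : ∀ t ∈ uIcc (-π) π, HasDerivAt
        (fun y => -(Ps (‖V (s, y)‖ ^ 2) * (conj (V (s, y)) * V1 (s, y)).im)) (B' s t) t := by
      intro t _
      exact ((hnsq (h2 s hs' t)).fun_mul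
        (hasDerivAt_im ((hasDerivAt_conj (h2 s hs' t)).fun_mul (h12 s hs' t)))).fun_neg
    rw [intervalIntegral.integral_eq_sub_of_hasDerivAt hd
      ((sect cB s hs').intervalIntegrable _ _), per s hs', per1 s hs']
    ring
  have IA : ∀ t, ∫ s in s0..s1, A' s t =
      Ps (‖V (s1, t)‖ ^ 2) * (conj (V (s1, t)) * V2 (s1, t)).im -
        Ps (‖V (s0, t)‖ ^ 2) * (conj (V (s0, t)) * V2 (s0, t)).im := by
    intro t
    have hd : ∀ s ∈ uIcc s0 s1, HasDerivAt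
        (fun x => Ps (‖V (x, t)‖ ^ 2) * (conj (V (x, t)) * V2 (x, t)).im) (A' s t) s := by
      intro s hs'
      rw [uIcc_of_le hs] at hs'
      exact (hnsq (h1 s hs' t)).fun_mul
        (hasDerivAt_im ((hasDerivAt_conj (h1 s hs' t)).fun_mul (h21 s hs' t)))
    have hc : ContinuousOn (fun s => A' s t) (uIcc s0 s1) := by
      rw [uIcc_of_le hs]
      exact cA.comp (by fun_prop : Continuous fun s : ℝ => (s, t)).continuousOn
        (fun s hs' => ⟨hs', mem_univ _⟩)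
    rw [intervalIntegral.integral_eq_sub_of_hasDerivAt hd hc.intervalIntegrable]
  have e1 : ∫ s in s0..s1, ∫ t in (-π)..π,
      (Ps (‖V (s, t)‖ ^ 2) + ‖V (s, t)‖ ^ 2 * Ps' (‖V (s, t)‖ ^ 2)) *
        (conj (V1 (s, t)) * V2 (s, t)).im =
      ∫ s in s0..s1, (1 / 2) * (∫ t in (-π)..π, A' s t) := by
    apply intervalIntegral.integral_congr
    intro s hs'
    rw [uIcc_of_le hs] at hs'
    simp only [hsum]
    rw [intervalIntegral.integral_const_mul, intervalIntegral.integral_add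
      ((sect cA s hs').intervalIntegrable _ _) ((sect cB s hs').intervalIntegrable _ _), IB s hs',
      add_zero]
  rw [e1, intervalIntegral.integral_const_mul,
    intervalIntegral_intervalIntegral_swap (integ cA)]
  simp only [IA]
  have cb : ∀ s ∈ Icc s0 s1, Continuous fun t =>
      Ps (‖V (s, t)‖ ^ 2) * (conj (V (s, t)) * V2 (s, t)).im := by
    intro s hs'
    apply sect (G := fun s t => Ps (‖V (s, t)‖ ^ 2) * (conj (V (s, t)) * V2 (s, t)).im) _ s hs'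
    have e : Function.uncurry (fun s t => Ps (‖V (s, t)‖ ^ 2) * (conj (V (s, t)) * V2 (s, t)).im) =
      fun x : ℝ × ℝ => Ps (‖V x‖ ^ 2) * (conj (V x) * V2 x).im := by funext x; rfl
    rw [e]
    have r2 : ContinuousOn (fun x => (conj (V x) * V2 x).im) (Icc s0 s1 ×ˢ univ) := by
      fun_prop
    exact cPN.mul r2
  rw [intervalIntegral.integral_sub
    ((cb s1 (right_mem_Icc.2 hs)).intervalIntegrable _ _)
    ((cb s0 (left_mem_Icc.2 hs)).intervalIntegrable _ _)]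
  ring

theorem wcov {s0 s1 : ℝ} {f a c : ℝ × ℝ → ℂ}
    (hf : ∀ x ∈ Ioo s0 s1 ×ˢ Ioc (-π) π, HasFDerivAt f
      ((ContinuousLinearMap.fst ℝ ℝ ℝ).smulRight (a x) +
      (ContinuousLinearMap.snd ℝ ℝ ℝ).smulRight (c x)) x)
    (inj : InjOn f (Ioo s0 s1 ×ˢ Ioc (-π) π))
    (nn : ∀ x ∈ Ioo s0 s1 ×ˢ Ioc (-π) π, 0 ≤ (conj (a x) * c x).im) (D : ℂ → ℝ) :
    (∫ w in (fun x => toR (f x)) '' (Ioo s0 s1 ×ˢ Ioc (-π) π), D (toC w)) =
      ∫ x in Ioo s0 s1 ×ˢ Ioc (-π) π, D (f x) * (conj (a x) * c x).im := by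
  have hS : MeasurableSet (Ioo s0 s1 ×ˢ Ioc (-π) π) := measurableSet_Ioo.prod measurableSet_Ioc
  rw [integral_image_eq_integral_abs_det_fderiv_smul volume hS
    (fun x hx => (hasFDerivAt_toR (hf x hx)).hasFDerivWithinAt)
    (fun x hx y hy h => inj hx hy (toR_injective h))]
  apply setIntegral_congr_fun hS
  intro x hx
  simp only [det_colMap, toC_toR, smul_eq_mul]
  rw [abs_of_nonneg (nn x hx), mul_comm]

theorem wcov_integrable {s0 s1 : ℝ} {f a c : ℝ × ℝ → ℂ}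
    (hf : ∀ x ∈ Ioo s0 s1 ×ˢ Ioc (-π) π, HasFDerivAt f
      ((ContinuousLinearMap.fst ℝ ℝ ℝ).smulRight (a x) +
      (ContinuousLinearMap.snd ℝ ℝ ℝ).smulRight (c x)) x)
    (inj : InjOn f (Ioo s0 s1 ×ˢ Ioc (-π) π))
    (nn : ∀ x ∈ Ioo s0 s1 ×ˢ Ioc (-π) π, 0 ≤ (conj (a x) * c x).im) (D : ℂ → ℝ)
    (hint : IntegrableOn (fun x => D (f x) * (conj (a x) * c x).im)
      (Ioo s0 s1 ×ˢ Ioc (-π) π)) :
    IntegrableOn (fun w => D (toC w))
      ((fun x => toR (f x)) '' (Ioo s0 s1 ×ˢ Ioc (-π) π)) := by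
  have hS : MeasurableSet (Ioo s0 s1 ×ˢ Ioc (-π) π) := measurableSet_Ioo.prod measurableSet_Ioc
  rw [integrableOn_image_iff_integrableOn_abs_det_fderiv_smul volume hS
    (fun x hx => (hasFDerivAt_toR (hf x hx)).hasFDerivWithinAt)
    (fun x hx y hy h => inj hx hy (toR_injective h))]
  refine hint.congr_fun (fun x hx => ?_) hS
  simp only [det_colMap, toC_toR, smul_eq_mul]
  rw [abs_of_nonneg (nn x hx), mul_comm]

/-- the weight: the derivative of `y (1 - th l1 (y / sg))` is `1 - th sg / (sg + y)` -/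
theorem weight_eq {sg th y : ℝ} (hs : 0 < sg) (hy : 0 ≤ y) :
    (1 - th * l1 (y / sg)) + y * (-(th * (deriv l1 (y / sg) / sg))) = 1 - th * sg / (sg + y) := by
  have h0 : 0 ≤ y / sg := div_nonneg hy hs.le
  have h1 := l1_ode (y := y / sg) (by linarith)
  have h2 : 1 / (1 + y / sg) = sg / (sg + y) := by
    field_simp
  rw [h2] at h1
  have h3 : l1 (y / sg) = sg / (sg + y) - y / sg * deriv l1 (y / sg) := by linarith
  rw [h3]
  ring

/-- the boundary form with the radial weight -/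
noncomputable def wb (F : ℂ → ℂ) (sg th r : ℝ) : ℝ :=
  ∫ t in (-π)..π, (1 - th * l1 (‖F (r * exp (t * I))‖ ^ 2 / sg)) *
    (conj (F (r * exp (t * I))) * (deriv F (r * exp (t * I)) * (r * exp (t * I)))).re

end Pool.Agent.H97.SIM
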